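import Pool.Agent.TH369.SJ.Defs

/-! The evolution is unitary and strongly continuous (helper914, second prover of SJ-UN). -/

set_option autoImplicit false
open MeasureTheory Filter Topology
open scoped InnerProductSpace ENNReal
namespace Pool.Agent.TH369.SJ
open Pool.Agent.TH369.AN Pool.Agent.TH369.MU

variable {X : Type} [NormedAddCommGroup X] [InnerProductSpace ℂ X] [CompleteSpace X]

theorem ut_norm (T : X →L[ℂ] X) (hT : IsSelfAdjoint T) (t : ℝ) (φ : X) :
    ‖Ut T t φ‖ = ‖φ‖ := by
  have hs : IsSelfAdjoint ((-t) • T) := by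
    rw [isSelfAdjoint_iff, star_smul, hT.star_eq]
    simp
  have hu := (selfAdjoint.expUnitary ⟨(-t) • T, hs⟩).2
  rw [selfAdjoint.expUnitary_coe] at hu
  have e : Complex.I • ((-t) • T) = (-(Complex.I * (t : ℂ))) • T := by
    rw [← Complex.coe_smul, smul_smul]
    congr 1
    push_cast
    ring
  have e2 : Ut T t = NormedSpace.exp (Complex.I • ((-t) • T)) := by
    rw [e]
    rfl
  rw [e2]
  exact ContinuousLinearMap.norm_map_of_mem_unitary hu φ

theorem ut_deriv (T : X →L[ℂ] X) (φ : X) (t : ℝ) :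
    HasDerivAt (fun s : ℝ => Ut T s φ) (-(Complex.I • T (Ut T t φ))) t := by
  have h := hasDerivAt_exp_smul_const' (𝕂 := ℝ) ((-Complex.I) • T) t
  have e : ∀ s : ℝ, s • ((-Complex.I) • T) = (-(Complex.I * (s : ℂ))) • T := by
    intro s
    rw [← Complex.coe_smul, smul_smul]
    congr 1
    ring
  simp only [e] at h
  have h2 := ((ContinuousLinearMap.apply ℂ X φ).restrictScalars ℝ).hasFDerivAt.comp_hasDerivAt t h
  refine h2.congr_deriv ?_
  show ((-Complex.I) • T * NormedSpace.exp ((-(Complex.I * (t : ℂ))) • T)) φ = _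
  rw [ContinuousLinearMap.mul_apply, ContinuousLinearMap.smul_apply, neg_smul]
  rfl

theorem ut_cont (T : X →L[ℂ] X) (φ : X) : Continuous fun t : ℝ => Ut T t φ :=
  continuous_iff_continuousAt.2 fun t => (ut_deriv T φ t).continuousAt

end Pool.Agent.TH369.SJ
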