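import Pool.Agent.TH369.SJ.Defs
import Pool.Agent.TH369.AN.OP
import Pool.Agent.TH369.SJ.UN
set_option autoImplicit false
open MeasureTheory Filter Topology
open scoped InnerProductSpace ENNReal
namespace Pool.Agent.TH369.SJ
open Pool.Agent.TH369.AN Pool.Agent.TH369.MU
variable {d : ℕ}

theorem at_le_sum (T : L2 d →L[ℂ] L2 d) (M τ : ℝ) (hτ : 0 < τ) (ψ : L2 d)
    (J : Zd d → ℝ≥0∞) (h : ∀ y, ∫⁻ t : ℝ, ‖⟪dl y, Ut T t ψ⟫_ℂ‖ₑ ^ 2 ≤ J y) :
    At T M τ ψ ≤ ENNReal.ofReal (1 / τ) *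
      ∑' y : Zd d, if ‖y‖ ≤ M * τ ^ ((1 : ℝ) / d) then J y else 0 := by
  unfold At
  refine mul_le_mul_right ?_ _
  have hm : ∀ y : Zd d, Measurable fun t : ℝ =>
      (if ‖y‖ ≤ M * τ ^ ((1 : ℝ) / d) then ‖(Ut T t ψ) y‖ₑ ^ 2 else 0 : ℝ≥0∞) := by
    intro y
    split_ifs
    · have h1 : (fun t : ℝ => ‖(Ut T t ψ) y‖ₑ ^ 2) = fun t : ℝ => ‖⟪dl y, Ut T t ψ⟫_ℂ‖ₑ ^ 2 := by
        funext t
        rw [inner_dl]
      rw [h1]
      have h2 : Continuous fun t : ℝ => ⟪dl y, Ut T t ψ⟫_ℂ :=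
        continuous_const.inner (ut_cont T ψ)
      exact (h2.measurable.enorm).pow_const 2
    · exact measurable_const
  rw [lintegral_tsum fun y => (hm y).aemeasurable]
  refine ENNReal.tsum_le_tsum fun y => ?_
  split_ifs
  · refine (setLIntegral_le_lintegral _ _).trans ?_
    refine le_trans (le_of_eq ?_) (h y)
    refine lintegral_congr fun t => ?_
    rw [inner_dl]
  · simp

end Pool.Agent.TH369.SJ
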