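import Pool.Agent.TH369.SJ.Defs
import Pool.Agent.TH369.AN.SB
import Pool.Agent.TH369.AN.KM
import Pool.Agent.TH369.MU.SM
import Pool.Agent.H4R2.LO.Bden

/-!
# Uniqueness of the spectral measure
(job SJ-UQ of helper369, written by helper889)
-/

set_option autoImplicit false

open MeasureTheory Filter Topology
open scoped InnerProductSpace ENNReal

namespace Pool.Agent.TH369.SJ

open Pool.Agent.TH369.AN Pool.Agent.TH369.MU

namespace UQ

/-- finite measures with the same Borel transform are equal -/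
theorem eq_of_borel (m m' : Measure ℝ) [IsFiniteMeasure m] [IsFiniteMeasure m']
    (h : ∀ z : ℂ, z.im ≠ 0 → ∫ x : ℝ, ((x : ℂ) - z)⁻¹ ∂m = ∫ x : ℝ, ((x : ℂ) - z)⁻¹ ∂m') :
    m = m' := by
  have ha : m ≪ m + m' := Measure.AbsolutelyContinuous.rfl.add_right m'
  have ha' : m' ≪ m + m' := by
    rw [add_comm]
    exact Measure.AbsolutelyContinuous.rfl.add_right m
  have i1 : Integrable (fun x => (m.rnDeriv (m + m') x).toReal) (m + m') :=
    Measure.integrable_toReal_rnDeriv
  have i2 : Integrable (fun x => (m'.rnDeriv (m + m') x).toReal) (m + m') :=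
    Measure.integrable_toReal_rnDeriv
  have i3 : Integrable (fun x => ((m.rnDeriv (m + m') x).toReal : ℂ)) (m + m') := i1.ofReal
  have i4 : Integrable (fun x => ((m'.rnDeriv (m + m') x).toReal : ℂ)) (m + m') := i2.ofReal
  have key := Pool.Agent.H4R2.LO.Bden.dens (m + m') _ (i3.sub i4) (by
    intro z hz _
    have e1 := integral_rnDeriv_smul (μ := m) (ν := m + m') ha
      (f := fun x : ℝ => ((x : ℂ) - z)⁻¹)
    have e2 := integral_rnDeriv_smul (μ := m') (ν := m + m') ha'
      (f := fun x : ℝ => ((x : ℂ) - z)⁻¹)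
    have j1 := Pool.Agent.H4R2.LO.Bden.int_inv (m + m') _ i3 hz
    have j2 := Pool.Agent.H4R2.LO.Bden.int_inv (m + m') _ i4 hz
    simp only [Pi.sub_apply, sub_mul]
    rw [integral_sub j1 j2]
    simp only [Complex.real_smul] at e1 e2
    rw [e1, e2, h z hz, sub_self])
  have hae : m.rnDeriv (m + m') =ᵐ[m + m'] m'.rnDeriv (m + m') := by
    filter_upwards [key, m.rnDeriv_lt_top (m + m'), m'.rnDeriv_lt_top (m + m')] with x hx h1 h2
    rw [Pi.sub_apply, sub_eq_zero] at hx
    have h3 : (m.rnDeriv (m + m') x).toReal = (m'.rnDeriv (m + m') x).toReal := by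
      exact_mod_cast hx
    exact (ENNReal.toReal_eq_toReal_iff' h1.ne h2.ne).1 h3
  exact (Measure.withDensity_rnDeriv_eq m (m + m') ha).symm.trans
    ((withDensity_congr_ae hae).trans (Measure.withDensity_rnDeriv_eq m' (m + m') ha'))

end UQ

variable {X : Type} [NormedAddCommGroup X] [InnerProductSpace ℂ X] [CompleteSpace X]

theorem spm_unique (T : X →L[ℂ] X) (φ : X) (m m' : Measure ℝ) (h : SpM T φ m)
    (h' : SpM T φ m') : m = m' := by
  haveI := h.1
  haveI := h'.1
  exact UQ.eq_of_borel m m' fun z hz => (h.2 z hz).symm.trans (h'.2 z hz)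

theorem spm_cfc (T : X →L[ℂ] X) (hT : IsSelfAdjoint T) (φ : X) (m : Measure ℝ)
    (hm : SpM T φ m) (f : ℝ → ℝ) (hf : Continuous f) :
    Integrable f m ∧ ((∫ x, f x ∂m : ℝ) : ℂ) = ⟪φ, cfc f T φ⟫_ℂ := by
  obtain ⟨m0, hf0, -, -, hm0, -, -⟩ :=
    Pool.Agent.H54R3.Spec508.exists_spectral T hT φ
  have h0 : SpM T φ m0 := ⟨hf0, fun z hz => spec_borel T hT φ m0 hm0 z hz⟩
  rw [spm_unique T φ m m0 hm h0]
  exact hm0 f hf

theorem spm_norm (T : X →L[ℂ] X) (hT : IsSelfAdjoint T) (φ : X) (m : Measure ℝ)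
    (hm : SpM T φ m) : m.real Set.univ = ‖φ‖ ^ 2 := by
  obtain ⟨m0, h0, h1⟩ := spm_exists T hT φ
  rw [spm_unique T φ m m0 hm h0, measureReal_def, h1, ENNReal.toReal_ofReal (by positivity)]

end Pool.Agent.TH369.SJ
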