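import Pool.Agent.TH369.SJ.Defs
import Pool.Agent.TH369.AN.RES
import Pool.Agent.TH369.AN.SB
import Pool.Agent.TH369.MU.SM
import Pool.Agent.TH369.SJ.UQ

/-!
# Restriction of a vector to a Borel set of energies
(job SJ-BF of helper369, written by helper592)
-/

set_option autoImplicit false

open MeasureTheory Filter Topology
open scoped InnerProductSpace ENNReal

namespace Pool.Agent.TH369.SJ

open Pool.Agent.TH369.AN Pool.Agent.TH369.MU

variable {X : Type} [NormedAddCommGroup X] [InnerProductSpace ℂ X] [CompleteSpace X]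

namespace BF

theorem inner_cfc (T : X →L[ℂ] X) {f h : ℝ → ℝ} (hf : Continuous f)
    (hh : Continuous h) (φ : X) :
    ⟪cfc f T φ, cfc h T (cfc f T φ)⟫_ℂ = ⟪φ, cfc (fun x => f x * (h x * f x)) T φ⟫_ℂ := by
  have h1 : cfc (fun x => f x * (h x * f x)) T = cfc f T * (cfc h T * cfc f T) := by
    rw [cfc_mul f (fun x => h x * f x) T hf.continuousOn (hh.mul hf).continuousOn,
      cfc_mul h f T hh.continuousOn hf.continuousOn]
  have h2 : IsSelfAdjoint (cfc f T) := cfc_predicate f T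
  rw [h1]
  exact h2.isSymmetric φ (cfc h T (cfc f T φ))

theorem normsq (T : X →L[ℂ] X) (hT : IsSelfAdjoint T) (φ : X) (m : Measure ℝ) (hm : SpM T φ m)
    {f : ℝ → ℝ} (hf : Continuous f) : ‖cfc f T φ‖ ^ 2 = ∫ x, f x ^ 2 ∂m := by
  have h1 := inner_cfc T hf (continuous_const (y := (1 : ℝ))) φ
  rw [cfc_const_one ℝ T, one_apply_eq_self, inner_self_eq_norm_sq_to_K] at h1
  have h2 := (spm_cfc T hT φ m hm (fun x => f x * (1 * f x)) (by fun_prop)).2
  rw [← h1] at h2
  have h3 : ((∫ x, f x * (1 * f x) ∂m : ℝ) : ℂ) = ((‖cfc f T φ‖ ^ 2 : ℝ) : ℂ) := by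
    rw [h2]
    push_cast
    rfl
  have h4 := Complex.ofReal_injective h3
  rw [← h4]
  refine integral_congr_ae (Eventually.of_forall fun x => ?_)
  show f x * (1 * f x) = f x ^ 2
  ring

theorem sub_cfc (T : X →L[ℂ] X) {f g : ℝ → ℝ} (hf : Continuous f) (hg : Continuous g) (φ : X) :
    cfc (fun x => f x - g x) T φ = cfc f T φ - cfc g T φ := by
  rw [cfc_sub f g T hf.continuousOn hg.continuousOn]
  rfl

/-- the indicator function -/
noncomputable def ind (S : Set ℝ) (x : ℝ) : ℝ := S.indicator (fun _ => (1 : ℝ)) x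

theorem ind_abs (S : Set ℝ) (x : ℝ) : |ind S x| ≤ 1 := by
  unfold ind
  by_cases h : x ∈ S
  · rw [Set.indicator_of_mem h]; simp
  · rw [Set.indicator_of_notMem h]; simp

theorem ind_meas {S : Set ℝ} (hS : MeasurableSet S) : Measurable (ind S) :=
  measurable_const.indicator hS

/-- continuous approximations of an indicator function -/
theorem approx (m : Measure ℝ) [IsFiniteMeasure m] {S : Set ℝ} (hS : MeasurableSet S) :
    ∃ f : ℕ → ℝ → ℝ, (∀ n, Continuous (f n)) ∧ (∀ n x, |f n x| ≤ 1) ∧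
      ∀ᵐ x ∂m, Tendsto (fun n => f n x) atTop (𝓝 (ind S x)) := by
  have key : ∀ n : ℕ, ∃ f : ℝ → ℝ, Continuous f ∧ (∀ x, |f x| ≤ 1) ∧
      m {x | f x ≠ ind S x} ≤ 2 * ((1 / 2 : ℝ≥0∞) ^ n) := by
    intro n
    have he : ((1 / 2 : ℝ≥0∞) ^ n) ≠ 0 := by
      refine pow_ne_zero _ ?_
      simp
    obtain ⟨U, hU, hUo, -, hUm⟩ := hS.exists_isOpen_diff_lt (measure_ne_top m S) he
    obtain ⟨F, hF, hFc, hFm⟩ := hS.exists_isClosed_diff_lt (measure_ne_top m S) he
    have hd : Disjoint Uᶜ F := by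
      rw [Set.disjoint_left]
      exact fun x h1 h2 => h1 (hU (hF h2))
    obtain ⟨g, g0, g1, g2⟩ := exists_continuous_zero_one_of_isClosed hUo.isClosed_compl hFc hd
    refine ⟨g, g.continuous, fun x => ?_, ?_⟩
    · rw [abs_le]
      exact ⟨by linarith [(g2 x).1], (g2 x).2⟩
    · have hsub : {x | g x ≠ ind S x} ⊆ (U \ S) ∪ (S \ F) := by
        intro x hx
        by_cases h1 : x ∈ S
        · right
          refine ⟨h1, fun h2 => hx ?_⟩
          rw [g1 h2]
          unfold ind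
          rw [Set.indicator_of_mem h1]
          rfl
        · left
          refine ⟨?_, h1⟩
          by_contra h2
          refine hx ?_
          rw [g0 h2]
          unfold ind
          rw [Set.indicator_of_notMem h1]
          rfl
      refine (measure_mono hsub).trans ((measure_union_le _ _).trans ?_)
      rw [two_mul]
      exact add_le_add hUm.le hFm.le
  choose f hf1 hf2 hf3 using key
  refine ⟨f, hf1, hf2, ?_⟩
  have hsum : ∑' n, m {x | f n x ≠ ind S x} ≠ ∞ := by
    refine ne_top_of_le_ne_top ?_ (ENNReal.tsum_le_tsum hf3)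
    rw [ENNReal.tsum_mul_left, ENNReal.tsum_geometric]
    refine ENNReal.mul_ne_top (by simp) ?_
    rw [ENNReal.inv_ne_top]
    simp
  filter_upwards [ae_eventually_notMem hsum] with x hx
  refine tendsto_const_nhds.congr' ?_
  filter_upwards [hx] with n hn
  by_contra h
  exact hn fun h' => h h'.symm

theorem lim_sq (m : Measure ℝ) [IsFiniteMeasure m] {f : ℕ → ℝ → ℝ} (hf : ∀ n, Continuous (f n))
    {B : ℝ} (hB : ∀ n x, |f n x| ≤ B) {u : ℝ → ℝ} (hu : Measurable u) (huB : ∀ x, |u x| ≤ B)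
    (hlim : ∀ᵐ x ∂m, Tendsto (fun n => f n x) atTop (𝓝 (u x))) :
    Tendsto (fun n => ∫ x, (f n x - u x) ^ 2 ∂m) atTop (𝓝 0) := by
  have h1 : Tendsto (fun n => ∫ x, (f n x - u x) ^ 2 ∂m) atTop (𝓝 (∫ _ : ℝ, (0 : ℝ) ∂m)) := by
    refine tendsto_integral_of_dominated_convergence (fun _ => (2 * B) ^ 2) (fun n => ?_)
      (integrable_const _) (fun n => ?_) ?_
    · exact (((hf n).measurable.sub hu).pow_const 2).aestronglyMeasurable
    · refine Eventually.of_forall fun x => ?_
      rw [Real.norm_eq_abs, abs_pow]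
      refine pow_le_pow_left₀ (abs_nonneg _) ?_ 2
      refine (abs_sub _ _).trans ?_
      linarith [hB n x, huB x]
    · filter_upwards [hlim] with x hx
      have := (hx.sub_const (u x)).pow 2
      simpa using this
  simpa using h1

theorem lim_exists (T : X →L[ℂ] X) (hT : IsSelfAdjoint T) (φ : X) (m : Measure ℝ)
    (hm : SpM T φ m) {f : ℕ → ℝ → ℝ} (hf : ∀ n, Continuous (f n))
    {B : ℝ} (hB : ∀ n x, |f n x| ≤ B) {u : ℝ → ℝ} (hu : Measurable u) (huB : ∀ x, |u x| ≤ B)
    (hlim : ∀ᵐ x ∂m, Tendsto (fun n => f n x) atTop (𝓝 (u x))) :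
    ∃ ψ : X, Tendsto (fun n => cfc (f n) T φ) atTop (𝓝 ψ) := by
  have := hm.1
  have h0 := lim_sq m hf hB hu huB hlim
  have hint : ∀ n, Integrable (fun x => (f n x - u x) ^ 2) m := by
    intro n
    refine Integrable.of_bound (((hf n).measurable.sub hu).pow_const 2).aestronglyMeasurable
      ((2 * B) ^ 2) (Eventually.of_forall fun x => ?_)
    rw [Real.norm_eq_abs, abs_pow]
    refine pow_le_pow_left₀ (abs_nonneg _) ?_ 2
    refine (abs_sub _ _).trans ?_
    linarith [hB n x, huB x]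
  have hd : ∀ n k, ‖cfc (f n) T φ - cfc (f k) T φ‖ ^ 2 ≤
      2 * ∫ x, (f n x - u x) ^ 2 ∂m + 2 * ∫ x, (f k x - u x) ^ 2 ∂m := by
    intro n k
    rw [← sub_cfc T (hf n) (hf k) φ, normsq T hT φ m hm (f := fun x => f n x - f k x) ((hf n).sub (hf k)),
      ← integral_const_mul, ← integral_const_mul,
      ← integral_add ((hint n).const_mul 2) ((hint k).const_mul 2)]
    refine integral_mono ?_ (((hint n).const_mul 2).add ((hint k).const_mul 2)) fun x => ?_
    · exact (spm_cfc T hT φ m hm (fun x => (f n x - f k x) ^ 2)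
        (((hf n).sub (hf k)).pow 2)).1
    · show (f n x - f k x) ^ 2 ≤ 2 * (f n x - u x) ^ 2 + 2 * (f k x - u x) ^ 2
      nlinarith [sq_nonneg ((f n x - u x) + (f k x - u x))]
  refine cauchySeq_tendsto_of_complete ?_
  rw [Metric.cauchySeq_iff']
  intro ε hε
  have h1 : ∀ᶠ n in atTop, ∫ x, (f n x - u x) ^ 2 ∂m < ε ^ 2 / 5 :=
    h0.eventually_lt_const (by positivity)
  obtain ⟨N, hN⟩ := eventually_atTop.1 h1
  refine ⟨N, fun n hn => ?_⟩
  rw [dist_eq_norm]
  have h2 := hd n N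
  have h3 := hN n hn
  have h4 := hN N le_rfl
  have h5 : ‖cfc (f n) T φ - cfc (f N) T φ‖ ^ 2 < ε ^ 2 := by nlinarith [sq_nonneg ε, hε]
  exact lt_of_pow_lt_pow_left₀ 2 hε.le h5

theorem key (T : X →L[ℂ] X) (hT : IsSelfAdjoint T) (φ : X) (m : Measure ℝ)
    (hm : SpM T φ m) {f : ℕ → ℝ → ℝ} (hf : ∀ n, Continuous (f n))
    {B : ℝ} (hB : ∀ n x, |f n x| ≤ B) {S : Set ℝ} (hS : MeasurableSet S)
    (hlim : ∀ᵐ x ∂m, Tendsto (fun n => f n x) atTop (𝓝 (ind S x))) {ψ : X}
    (hψ : Tendsto (fun n => cfc (f n) T φ) atTop (𝓝 ψ)) : SpM T ψ (m.restrict S) := by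
  have := hm.1
  refine ⟨inferInstance, fun z hz => spec_borel T hT ψ (m.restrict S) (fun h hh => ?_) z hz⟩
  have hi : Integrable h m := (spm_cfc T hT φ m hm h hh).1
  refine ⟨hi.restrict, ?_⟩
  have h1 : Tendsto (fun n => ⟪cfc (f n) T φ, cfc h T (cfc (f n) T φ)⟫_ℂ) atTop
      (𝓝 ⟪ψ, cfc h T ψ⟫_ℂ) :=
    hψ.inner (((cfc h T).continuous.tendsto ψ).comp hψ)
  have h2 : ∀ n, ⟪cfc (f n) T φ, cfc h T (cfc (f n) T φ)⟫_ℂ =
      ((∫ x, f n x * (h x * f n x) ∂m : ℝ) : ℂ) := by
    intro n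
    rw [inner_cfc T (hf n) hh φ]
    exact (spm_cfc T hT φ m hm _ ((hf n).mul (hh.mul (hf n)))).2.symm
  have h3 : Tendsto (fun n => ∫ x, f n x * (h x * f n x) ∂m) atTop
      (𝓝 (∫ x, ind S x * (h x * ind S x) ∂m)) := by
    refine tendsto_integral_of_dominated_convergence (fun x => B * (|h x| * B)) (fun n => ?_)
      ((hi.abs.mul_const B).const_mul B) (fun n => ?_) ?_
    · exact ((hf n).mul (hh.mul (hf n))).aestronglyMeasurable
    · refine Eventually.of_forall fun x => ?_
      have hB0 : 0 ≤ B := (abs_nonneg _).trans (hB n x)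
      rw [Real.norm_eq_abs, abs_mul, abs_mul]
      exact mul_le_mul (hB n x) (mul_le_mul_of_nonneg_left (hB n x) (abs_nonneg _))
        (by positivity) hB0
    · filter_upwards [hlim] with x hx
      exact hx.mul (hx.const_mul (h x))
  have h4 : ∫ x, ind S x * (h x * ind S x) ∂m = ∫ x in S, h x ∂m := by
    rw [← integral_indicator hS]
    refine integral_congr_ae (Eventually.of_forall fun x => ?_)
    show ind S x * (h x * ind S x) = S.indicator h x
    unfold ind
    by_cases hx : x ∈ S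
    · rw [Set.indicator_of_mem hx, Set.indicator_of_mem hx]; ring
    · rw [Set.indicator_of_notMem hx, Set.indicator_of_notMem hx]; ring
  rw [h4] at h3
  have h5 : Tendsto (fun n => ((∫ x, f n x * (h x * f n x) ∂m : ℝ) : ℂ)) atTop
      (𝓝 ((∫ x in S, h x ∂m : ℝ) : ℂ)) :=
    (Complex.continuous_ofReal.tendsto _).comp h3
  have h6 : (fun n => ⟪cfc (f n) T φ, cfc h T (cfc (f n) T φ)⟫_ℂ) =
      fun n => ((∫ x, f n x * (h x * f n x) ∂m : ℝ) : ℂ) := funext h2
  rw [h6] at h1
  exact tendsto_nhds_unique h5 h1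

end BF

theorem restr (T : X →L[ℂ] X) (hT : IsSelfAdjoint T) (φ : X) (m : Measure ℝ)
    (hm : SpM T φ m) :
    ∃ P : Set ℝ → X, (∀ S, MeasurableSet S →
      SpM T (P S) (m.restrict S) ∧ SpM T (φ - P S) (m.restrict Sᶜ)) ∧
      ∀ S S', MeasurableSet S → MeasurableSet S' → S ⊆ S' →
        SpM T (P S' - P S) (m.restrict (S' \ S)) := by
  have := hm.1
  have key : ∀ S : Set ℝ, ∃ (f : ℕ → ℝ → ℝ) (ψ : X), MeasurableSet S →
      (∀ n, Continuous (f n)) ∧ (∀ n x, |f n x| ≤ 1) ∧
      (∀ᵐ x ∂m, Tendsto (fun n => f n x) atTop (𝓝 (BF.ind S x))) ∧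
      Tendsto (fun n => cfc (f n) T φ) atTop (𝓝 ψ) := by
    intro S
    by_cases hS : MeasurableSet S
    · obtain ⟨f, h1, h2, h3⟩ := BF.approx m hS
      obtain ⟨ψ, hψ⟩ := BF.lim_exists T hT φ m hm h1 h2 (BF.ind_meas hS) (BF.ind_abs S) h3
      exact ⟨f, ψ, fun _ => ⟨h1, h2, h3, hψ⟩⟩
    · exact ⟨0, 0, fun h => absurd h hS⟩
  choose f P hP using key
  refine ⟨P, fun S hS => ?_, fun S S' hS hS' hSS => ?_⟩
  · obtain ⟨h1, h2, h3, h4⟩ := hP S hS
    refine ⟨BF.key T hT φ m hm h1 h2 hS h3 h4, ?_⟩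
    refine BF.key T hT φ m hm (f := fun n x => 1 - f S n x) (B := 2)
      (fun n => continuous_const.sub (h1 n)) (fun n x => ?_) hS.compl ?_ ?_
    · have := h2 n x
      rw [abs_le] at this ⊢
      constructor <;> linarith
    · filter_upwards [h3] with x hx
      have h5 : BF.ind Sᶜ x = 1 - BF.ind S x := by
        unfold BF.ind
        by_cases h : x ∈ S
        · rw [Set.indicator_of_mem h, Set.indicator_of_notMem (show x ∉ Sᶜ from fun h' => h' h)]; ring
        · rw [Set.indicator_of_notMem h, Set.indicator_of_mem (show x ∈ Sᶜ from h)]; ring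
      rw [h5]
      exact hx.const_sub 1
    · have h6 : (fun n => cfc (fun x => 1 - f S n x) T φ) = fun n => φ - cfc (f S n) T φ := by
        funext n
        rw [BF.sub_cfc T continuous_const (h1 n) φ, cfc_const_one ℝ T]
        rfl
      rw [h6]
      exact h4.const_sub φ
  · obtain ⟨h1, h2, h3, h4⟩ := hP S hS
    obtain ⟨k1, k2, k3, k4⟩ := hP S' hS'
    refine BF.key T hT φ m hm (f := fun n x => f S' n x - f S n x) (B := 2)
      (fun n => (k1 n).sub (h1 n)) (fun n x => ?_) (hS'.diff hS) ?_ ?_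
    · have e1 := h2 n x
      have e2 := k2 n x
      rw [abs_le] at e1 e2 ⊢
      constructor <;> linarith
    · filter_upwards [h3, k3] with x hx hx'
      have h5 : BF.ind (S' \ S) x = BF.ind S' x - BF.ind S x := by
        unfold BF.ind
        by_cases h : x ∈ S
        · rw [Set.indicator_of_mem h, Set.indicator_of_mem (hSS h),
            Set.indicator_of_notMem (show x ∉ S' \ S from fun h' => h'.2 h)]
          ring
        · by_cases h' : x ∈ S'
          · rw [Set.indicator_of_notMem h, Set.indicator_of_mem h', Set.indicator_of_mem (show x ∈ S' \ S from ⟨h', h⟩)]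
            ring
          · rw [Set.indicator_of_notMem h, Set.indicator_of_notMem h',
              Set.indicator_of_notMem (show x ∉ S' \ S from fun h'' => h' h''.1)]
            ring
      rw [h5]
      exact hx'.sub hx
    · have h6 : (fun n => cfc (fun x => f S' n x - f S n x) T φ) =
          fun n => cfc (f S' n) T φ - cfc (f S n) T φ := by
        funext n
        rw [BF.sub_cfc T (k1 n) (h1 n) φ]
      rw [h6]
      exact k4.sub h4

end Pool.Agent.TH369.SJ
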