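import Pool.Agent.TH369.SJ.Defs
set_option autoImplicit false
open MeasureTheory Filter Topology
open scoped InnerProductSpace ENNReal
namespace Pool.Agent.TH369.SJ
open Pool.Agent.TH369.AN Pool.Agent.TH369.MU
variable {d : ℕ}

namespace CE

/-- the box -/
noncomputable def box (d : ℕ) (R : ℝ) : Finset (Zd d) :=
  Fintype.piFinset (fun _ : Fin d => Finset.Icc (-⌊R⌋) ⌊R⌋)

lemma mem_box {R : ℝ} (_hR : 0 ≤ R) {y : Zd d} (hy : ‖y‖ ≤ R) : y ∈ box d R := by
  rw [box, Fintype.mem_piFinset]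
  intro i
  have h1 : ‖y i‖ ≤ R := (norm_le_pi_norm y i).trans hy
  rw [Int.norm_eq_abs] at h1
  have h2 := abs_le.mp h1
  rw [Finset.mem_Icc]
  refine ⟨?_, Int.le_floor.mpr h2.2⟩
  have : -(y i) ≤ ⌊R⌋ := Int.le_floor.mpr (by push_cast; linarith)
  omega

lemma card_box {R : ℝ} (hR : 0 ≤ R) : ((box d R).card : ℝ) ≤ (2 * R + 1) ^ d := by
  rw [box, Fintype.card_piFinset, Finset.prod_const, Finset.card_univ, Fintype.card_fin,
    Int.card_Icc]
  push_cast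
  have h0 : 0 ≤ ⌊R⌋ := Int.floor_nonneg.mpr hR
  have h1 : (((⌊R⌋ + 1 - -⌊R⌋).toNat : ℕ) : ℝ) = 2 * (⌊R⌋ : ℝ) + 1 := by
    have : (((⌊R⌋ + 1 - -⌊R⌋).toNat : ℕ) : ℤ) = ⌊R⌋ + 1 - -⌊R⌋ := Int.toNat_of_nonneg (by omega)
    have h2 : (((⌊R⌋ + 1 - -⌊R⌋).toNat : ℕ) : ℝ) = ((⌊R⌋ + 1 - -⌊R⌋ : ℤ) : ℝ) := by
      exact_mod_cast this
    rw [h2]; push_cast; ring
  rw [h1]
  have h2 := Int.floor_le R
  have h3 : (0 : ℝ) ≤ (⌊R⌋ : ℝ) := by exact_mod_cast h0
  exact pow_le_pow_left₀ (by linarith) (by linarith) d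

lemma tsum_le (a : Zd d → ℝ≥0∞) (c δ : ℝ≥0∞) (B : Finset (Zd d)) (hC : ∀ y, a y ≤ c)
    (hB : ∀ y : Zd d, y ∉ B → a y ≤ δ) (R : ℝ) (hR : 0 ≤ R) :
    (∑' y : Zd d, if ‖y‖ ≤ R then a y else 0) ≤ B.card * c + (box d R).card * δ := by
  classical
  have h1 : ∀ y : Zd d, (if ‖y‖ ≤ R then a y else 0) ≤
      (if y ∈ B then c else 0) + (if y ∈ box d R then δ else 0) := by
    intro y
    by_cases hy : ‖y‖ ≤ R
    · rw [if_pos hy]
      by_cases hyB : y ∈ B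
      · rw [if_pos hyB]; exact (hC y).trans le_self_add
      · rw [if_neg hyB, if_pos (mem_box hR hy), zero_add]; exact hB y hyB
    · rw [if_neg hy]; exact zero_le
  refine (ENNReal.tsum_le_tsum h1).trans ?_
  rw [ENNReal.tsum_add]
  have h2 : ∀ (S : Finset (Zd d)) (e : ℝ≥0∞), (∑' y : Zd d, if y ∈ S then e else 0) = S.card * e := by
    intro S e
    rw [tsum_eq_sum (s := S) (fun y hy => if_neg hy), Finset.sum_congr rfl (fun y hy => if_pos hy),
      Finset.sum_const, nsmul_eq_mul]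
  rw [h2, h2]

end CE

theorem cesaro (hd : 0 < d) (a : Zd d → ℝ≥0∞) (C : ℝ) (hC : ∀ y, a y ≤ ENNReal.ofReal C)
    (h : ∀ δ : ℝ, 0 < δ → ∃ B : Finset (Zd d), ∀ y : Zd d, y ∉ B → a y ≤ ENNReal.ofReal δ)
    (M : ℝ) :
    Tendsto (fun τ : ℝ => ENNReal.ofReal (1 / τ) *
      ∑' y : Zd d, if ‖y‖ ≤ M * τ ^ ((1 : ℝ) / d) then a y else 0) atTop (𝓝 0) := by
  rw [ENNReal.tendsto_nhds_zero]
  intro ε hε
  obtain ⟨e, he0, he⟩ : ∃ e : ℝ, 0 < e ∧ ENNReal.ofReal e ≤ ε := by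
    rcases eq_or_ne ε ⊤ with h1 | h1
    · exact ⟨1, one_pos, by rw [h1]; exact le_top⟩
    · exact ⟨ε.toReal, ENNReal.toReal_pos hε.ne' h1, by rw [ENNReal.ofReal_toReal h1]⟩
  set K : ℝ := (2 * |M| + 1) ^ d with hK
  have hK0 : 0 < K := by positivity
  obtain ⟨B, hB⟩ := h (e / (2 * K)) (by positivity)
  set C' : ℝ := max C 0 with hC'
  have hC'0 : 0 ≤ C' := le_max_right _ _
  have hCC : ∀ y, a y ≤ ENNReal.ofReal C' := fun y =>
    (hC y).trans (ENNReal.ofReal_le_ofReal (le_max_left _ _))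
  filter_upwards [eventually_ge_atTop (1 : ℝ),
    eventually_ge_atTop (2 * (B.card * C') / e)] with τ h1 h2
  have hτ : 0 < τ := by linarith
  set R : ℝ := |M| * τ ^ ((1 : ℝ) / d) with hR
  have hpow : 1 ≤ τ ^ ((1 : ℝ) / d) := Real.one_le_rpow h1 (by positivity)
  have hR0 : 0 ≤ R := by positivity
  have h3 : (∑' y : Zd d, if ‖y‖ ≤ M * τ ^ ((1 : ℝ) / d) then a y else 0) ≤
      ∑' y : Zd d, if ‖y‖ ≤ R then a y else 0 := by
    refine ENNReal.tsum_le_tsum (fun y => ?_)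
    by_cases hy : ‖y‖ ≤ M * τ ^ ((1 : ℝ) / d)
    · have : ‖y‖ ≤ R := hy.trans (mul_le_mul_of_nonneg_right (le_abs_self M) (by positivity))
      rw [if_pos hy, if_pos this]
    · rw [if_neg hy]; exact zero_le
  have h4 := CE.tsum_le a (ENNReal.ofReal C') (ENNReal.ofReal (e / (2 * K))) B hCC hB R hR0
  have h5 : ((CE.box d R).card : ℝ) ≤ K * τ := by
    refine (CE.card_box hR0).trans ?_
    have h6 : 2 * R + 1 ≤ (2 * |M| + 1) * τ ^ ((1 : ℝ) / d) := by
      rw [hR]; nlinarith [abs_nonneg M]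
    refine (pow_le_pow_left₀ (by positivity) h6 d).trans ?_
    rw [mul_pow, hK]
    have h7 : (τ ^ ((1 : ℝ) / d)) ^ d = τ := by
      rw [← Real.rpow_natCast, ← Real.rpow_mul hτ.le]
      have : ((1 : ℝ) / d) * (d : ℝ) = 1 := by
        have : (d : ℝ) ≠ 0 := by exact_mod_cast hd.ne'
        field_simp
      rw [this, Real.rpow_one]
    rw [h7]
  calc ENNReal.ofReal (1 / τ) * ∑' y : Zd d, (if ‖y‖ ≤ M * τ ^ ((1 : ℝ) / d) then a y else 0)
      ≤ ENNReal.ofReal (1 / τ) * (B.card * ENNReal.ofReal C' +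
          (CE.box d R).card * ENNReal.ofReal (e / (2 * K))) := by
        gcongr
        exact h3.trans h4
    _ = ENNReal.ofReal (1 / τ * (B.card * C' + (CE.box d R).card * (e / (2 * K)))) := by
        rw [ENNReal.ofReal_mul (by positivity), ENNReal.ofReal_add (by positivity) (by positivity),
          ENNReal.ofReal_mul (by positivity), ENNReal.ofReal_mul (by positivity),
          ENNReal.ofReal_natCast, ENNReal.ofReal_natCast]
    _ ≤ ENNReal.ofReal e := by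
        apply ENNReal.ofReal_le_ofReal
        have h8 : (B.card * C' : ℝ) ≤ τ * (e / 2) := by
          rw [div_le_iff₀ he0] at h2
          linarith
        have h9 : ((CE.box d R).card : ℝ) * (e / (2 * K)) ≤ τ * (e / 2) := by
          calc ((CE.box d R).card : ℝ) * (e / (2 * K)) ≤ (K * τ) * (e / (2 * K)) := by gcongr
            _ = τ * (e / 2) := by field_simp
        rw [one_div, inv_mul_le_iff₀ hτ]
        linarith
    _ ≤ ε := he

end Pool.Agent.TH369.SJ
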