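import Pool.Agent.TH369.SJ.Defs
set_option autoImplicit false
open MeasureTheory Filter Topology
open scoped InnerProductSpace ENNReal
namespace Pool.Agent.TH369.SJ
open Pool.Agent.TH369.AN Pool.Agent.TH369.MU

theorem dom_zero {Ω : Type} [MeasurableSpace Ω] (P : Measure Ω) [IsProbabilityMeasure P]
    (f : ℕ → Ω → ℝ≥0∞) (hf : ∀ i ω, f i ω ≤ 1) (h : ∀ᵐ ω ∂P, Tendsto (fun i => f i ω) atTop (𝓝 0)) :
    Tendsto (fun i => ∫⁻ ω, f i ω ∂P) atTop (𝓝 0) := by
  choose g hgm hgf hg using fun i => exists_measurable_le_lintegral_eq P (f i)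
  have key : Tendsto (fun i => ∫⁻ ω, g i ω ∂P) atTop (𝓝 (∫⁻ _ω, (0 : ℝ≥0∞) ∂P)) := by
    refine tendsto_lintegral_of_dominated_convergence (fun _ => 1) hgm
      (fun i => Filter.Eventually.of_forall fun ω => le_trans (hgf i ω) (hf i ω)) ?_ ?_
    · simp
    · filter_upwards [h] with ω hω
      exact tendsto_of_tendsto_of_tendsto_of_le_of_le tendsto_const_nhds hω
        (fun i => bot_le) (fun i => hgf i ω)
  simp only [lintegral_zero] at key
  have e : (fun i => ∫⁻ ω, f i ω ∂P) = fun i => ∫⁻ ω, g i ω ∂P := funext hg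
  rw [e]
  exact key

end Pool.Agent.TH369.SJ
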