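import Pool.Agent.TH369.SJ.Defs
import Pool.Agent.TH369.AN.RES
import Pool.Agent.TH369.MU.SM
import Pool.Agent.TH369.SJ.UQ

/-!
# Absolutely continuous and singular vectors are orthogonal
-/

set_option autoImplicit false
open MeasureTheory Filter Topology
open scoped InnerProductSpace ENNReal
namespace Pool.Agent.TH369.SJ
open Pool.Agent.TH369.AN Pool.Agent.TH369.MU
variable {X : Type} [NormedAddCommGroup X] [InnerProductSpace ℂ X] [CompleteSpace X]

namespace OR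

theorem normsq (T : X →L[ℂ] X) (hT : IsSelfAdjoint T) (φ : X) (m : Measure ℝ)
    (hm : SpM T φ m) (g : ℝ → ℝ) (hg : Continuous g) :
    ‖cfc g T φ‖ ^ 2 = ∫ x, g x * g x ∂m := by
  have h1 := (spm_cfc T hT φ m hm (fun x => g x * g x) (hg.mul hg)).2
  rw [cfc_mul g g T hg.continuousOn hg.continuousOn] at h1
  have hsa : IsSelfAdjoint (cfc g T) := cfc_predicate g T
  have hsym : ∀ x y : X, ⟪cfc g T x, y⟫_ℂ = ⟪x, cfc g T y⟫_ℂ :=
    fun x y => (ContinuousLinearMap.isSelfAdjoint_iff_isSymmetric.1 hsa) x y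
  have h2 : ⟪φ, (cfc g T * cfc g T) φ⟫_ℂ = ((‖cfc g T φ‖ ^ 2 : ℝ) : ℂ) := by
    have h3 : (cfc g T * cfc g T) φ = cfc g T (cfc g T φ) := rfl
    rw [h3, ← hsym, inner_self_eq_norm_sq_to_K]
    push_cast
    rfl
  rw [h2] at h1
  exact_mod_cast h1.symm

theorem norm_bound (T : X →L[ℂ] X) (hT : IsSelfAdjoint T) (φ : X) (m : Measure ℝ)
    (hm : SpM T φ m) (g : ℝ → ℝ) (hg : Continuous g) (h0 : ∀ x, 0 ≤ g x) (h1 : ∀ x, g x ≤ 1)
    (A : Set ℝ) (hA : MeasurableSet A) (hgA : ∀ x, x ∉ A → g x = 0) :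
    ‖cfc g T φ‖ ^ 2 ≤ m.real A := by
  have := hm.1
  rw [normsq T hT φ m hm g hg]
  have h2 : ∫ x, g x * g x ∂m ≤ ∫ x, A.indicator (fun _ => (1:ℝ)) x ∂m := by
    apply integral_mono_of_nonneg (Eventually.of_forall fun x => mul_self_nonneg _)
    · exact (integrable_const (1:ℝ)).indicator hA
    · refine Eventually.of_forall fun x => ?_
      by_cases hx : x ∈ A
      · simp only [Set.indicator_of_mem hx]
        exact mul_le_one₀ (h1 x) (h0 x) (h1 x)
      · simp [Set.indicator_of_notMem hx, hgA x hx]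
  rw [integral_indicator hA] at h2
  simpa using h2

end OR

theorem orth (T : X →L[ℂ] X) (hT : IsSelfAdjoint T) (ψ η : X) (hψ : ACv T ψ) (m : Measure ℝ)
    (hm : SpM T η m) (hs : m ⟂ₘ (volume : Measure ℝ)) : ⟪ψ, η⟫_ℂ = 0 := by
  obtain ⟨m0, hm0, hac⟩ := hψ
  have hf := hm.1
  have hf0 := hm0.1
  obtain ⟨s, hs1, hs2, hs3⟩ := hs
  have hN : MeasurableSet sᶜ := hs1.compl
  have hN0 : m0 sᶜ = 0 := hac hs3
  have key : ∀ ε : ℝ, 0 < ε → ‖⟪ψ, η⟫_ℂ‖ ≤ ‖ψ‖ * ε + ε * ‖η‖ := by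
    intro ε hε
    have hε2 : (0:ℝ≥0∞) < ENNReal.ofReal (ε ^ 2) := ENNReal.ofReal_pos.2 (by positivity)
    obtain ⟨K, hKN, hKc, hK⟩ := hN.exists_isClosed_sdiff_lt (μ := m) (measure_ne_top m _)
      hε2.ne'
    obtain ⟨U, hNU, hUo, hU⟩ := sᶜ.exists_isOpen_lt_of_lt (μ := m0) (ENNReal.ofReal (ε ^ 2))
      (by rw [hN0]; exact hε2)
    have hdisj : Disjoint Uᶜ K := by
      rw [Set.disjoint_left]
      intro x hx hx'
      exact hx (hNU (hKN hx'))
    obtain ⟨f, hf0', hf1, hf01⟩ := exists_continuous_zero_one_of_isClosed hUo.isClosed_compl hKc hdisj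
    have hfc : Continuous (fun x => f x) := f.continuous
    -- the two norms
    have b1 : ‖cfc (fun x => f x) T ψ‖ ≤ ε := by
      have h1 := OR.norm_bound T hT ψ m0 hm0 (fun x => f x) hfc (fun x => (hf01 x).1)
        (fun x => (hf01 x).2) U hUo.measurableSet (fun x hx => hf0' hx)
      have h2 : m0.real U ≤ ε ^ 2 := by
        unfold Measure.real
        exact (ENNReal.toReal_mono ENNReal.ofReal_ne_top hU.le).trans
          (by rw [ENNReal.toReal_ofReal (by positivity)])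
      exact (pow_le_pow_iff_left₀ (norm_nonneg _) hε.le two_ne_zero).1 (h1.trans h2)
    have b2 : ‖cfc (fun x => 1 - f x) T η‖ ≤ ε := by
      have h1 := OR.norm_bound T hT η m hm (fun x => 1 - f x) (continuous_const.sub hfc)
        (fun x => by have := (hf01 x).2; linarith)
        (fun x => by have := (hf01 x).1; linarith) Kᶜ hKc.isOpen_compl.measurableSet
        (fun x hx => by
          have : f x = 1 := hf1 (by simpa using hx)
          rw [this, sub_self])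
      have h3 : m Kᶜ ≤ ENNReal.ofReal (ε ^ 2) := by
        have h4 : Kᶜ ⊆ s ∪ (sᶜ \ K) := by
          intro x hx
          by_cases hxs : x ∈ s
          · exact Or.inl hxs
          · exact Or.inr ⟨hxs, hx⟩
        calc m Kᶜ ≤ m (s ∪ (sᶜ \ K)) := measure_mono h4
          _ ≤ m s + m (sᶜ \ K) := measure_union_le _ _
          _ ≤ ENNReal.ofReal (ε ^ 2) := by rw [hs2, zero_add]; exact hK.le
      have h2 : m.real Kᶜ ≤ ε ^ 2 := by
        unfold Measure.real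
        exact (ENNReal.toReal_mono ENNReal.ofReal_ne_top h3).trans
          (by rw [ENNReal.toReal_ofReal (by positivity)])
      exact (pow_le_pow_iff_left₀ (norm_nonneg _) hε.le two_ne_zero).1 (h1.trans h2)
    have hsub : cfc (fun x => 1 - f x) T = 1 - cfc (fun x => f x) T := by
      rw [cfc_sub (fun _ => (1:ℝ)) (fun x => f x) T continuousOn_const hfc.continuousOn,
        cfc_const_one ℝ T]
    have hsa : IsSelfAdjoint (cfc (fun x => f x) T) := cfc_predicate _ T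
    have hsym : ∀ x y : X, ⟪cfc (fun x => f x) T x, y⟫_ℂ = ⟪x, cfc (fun x => f x) T y⟫_ℂ :=
      fun x y => (ContinuousLinearMap.isSelfAdjoint_iff_isSymmetric.1 hsa) x y
    have hη : η = cfc (fun x => 1 - f x) T η + cfc (fun x => f x) T η := by
      rw [hsub]
      simp
    calc ‖⟪ψ, η⟫_ℂ‖ = ‖⟪ψ, cfc (fun x => 1 - f x) T η⟫_ℂ + ⟪cfc (fun x => f x) T ψ, η⟫_ℂ‖ := by
          rw [hsym, ← inner_add_right, ← hη]
      _ ≤ ‖⟪ψ, cfc (fun x => 1 - f x) T η⟫_ℂ‖ + ‖⟪cfc (fun x => f x) T ψ, η⟫_ℂ‖ :=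
          norm_add_le _ _
      _ ≤ ‖ψ‖ * ‖cfc (fun x => 1 - f x) T η‖ + ‖cfc (fun x => f x) T ψ‖ * ‖η‖ :=
          add_le_add (norm_inner_le_norm _ _) (norm_inner_le_norm _ _)
      _ ≤ ‖ψ‖ * ε + ε * ‖η‖ := by gcongr
  by_contra hne
  have hpos : 0 < ‖⟪ψ, η⟫_ℂ‖ := norm_pos_iff.2 hne
  set c := ‖⟪ψ, η⟫_ℂ‖ with hc
  have h1 := key (c / (2 * (‖ψ‖ + ‖η‖ + 1))) (by positivity)
  have h2 : ‖ψ‖ * (c / (2 * (‖ψ‖ + ‖η‖ + 1))) + c / (2 * (‖ψ‖ + ‖η‖ + 1)) * ‖η‖ =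
      c * ((‖ψ‖ + ‖η‖) / (2 * (‖ψ‖ + ‖η‖ + 1))) := by ring
  rw [h2] at h1
  have h3 : (‖ψ‖ + ‖η‖) / (2 * (‖ψ‖ + ‖η‖ + 1)) < 1 := by
    rw [div_lt_one (by positivity)]
    have := norm_nonneg ψ
    have := norm_nonneg η
    linarith
  nlinarith

end Pool.Agent.TH369.SJ
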