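import Pool.Agent.TH369.SJ.Defs
import Pool.Agent.TH369.AN.OP
import Pool.Agent.TH369.SJ.OR
set_option autoImplicit false
open MeasureTheory Filter Topology
open scoped InnerProductSpace ENNReal
namespace Pool.Agent.TH369.SJ
open Pool.Agent.TH369.AN Pool.Agent.TH369.MU
variable {d : ℕ}

namespace DN

lemma hasSum_dl (ψ : L2 d) : HasSum (fun x : Zd d => (ψ x) • (dl x : L2 d)) ψ := by
  have h := lp.hasSum_single (E := fun _ : Zd d => ℂ) (p := 2) (by norm_num) ψ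
  have he : (fun x : Zd d => (ψ x) • (dl x : L2 d)) = fun x => lp.single 2 x (ψ x : ℂ) := by
    funext x
    unfold dl
    rw [← lp.single_smul, smul_eq_mul, mul_one]
  rw [he]
  exact h

end DN

theorem dense_ac (T : L2 d →L[ℂ] L2 d) (hT : IsSelfAdjoint T) (g : Zd d → ℕ → L2 d)
    (g1 : Zd d → L2 d) (h1 : ∀ x, Tendsto (g x) atTop (𝓝 (g1 x))) (h2 : ∀ x, ACv T (g1 x))
    (h3 : ∀ x, ∃ m : Measure ℝ, SpM T (dl x - g1 x) m ∧ m ⟂ₘ (volume : Measure ℝ))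
    (ψ : L2 d) (hψ : ACv T ψ) :
    ψ ∈ (Submodule.span ℂ (Set.range fun p : Zd d × ℕ => g p.1 p.2)).topologicalClosure := by
  set V := (Submodule.span ℂ (Set.range fun p : Zd d × ℕ => g p.1 p.2)).topologicalClosure
    with hV
  have hc : IsClosed (V : Set (L2 d)) := Submodule.isClosed_topologicalClosure _
  have hg : ∀ x, g1 x ∈ V := by
    intro x
    refine hc.mem_of_tendsto (h1 x) (Eventually.of_forall fun n => ?_)
    exact Submodule.le_topologicalClosure _ (Submodule.subset_span ⟨(x, n), rfl⟩)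
  have ho : ∀ x, ⟪ψ, dl x - g1 x⟫_ℂ = 0 := fun x => by
    obtain ⟨m, hm, hs⟩ := h3 x
    exact orth T hT ψ _ hψ m hm hs
  have ho2 : ∀ y x, ⟪g1 y, dl x - g1 x⟫_ℂ = 0 := fun y x => by
    obtain ⟨m, hm, hs⟩ := h3 x
    exact orth T hT _ _ (h2 y) m hm hs
  have hsum := DN.hasSum_dl ψ
  have hb : ∀ F : Finset (Zd d), ‖ψ - ∑ x ∈ F, ψ x • g1 x‖ ≤ ‖ψ - ∑ x ∈ F, ψ x • (dl x : L2 d)‖ := by
    intro F
    set G : L2 d := ∑ x ∈ F, ψ x • g1 x with hG
    set s : L2 d := ∑ x ∈ F, ψ x • (dl x : L2 d) with hs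
    have hr : s - G = ∑ x ∈ F, ψ x • ((dl x : L2 d) - g1 x) := by
      rw [hs, hG, ← Finset.sum_sub_distrib]
      exact Finset.sum_congr rfl fun x _ => (smul_sub _ _ _).symm
    have h0 : ∀ x, ⟪ψ - G, (dl x : L2 d) - g1 x⟫_ℂ = 0 := by
      intro x
      rw [inner_sub_left, ho x, hG, sum_inner]
      simp only [inner_smul_left, ho2, mul_zero, Finset.sum_const_zero, sub_zero]
    have h4 : ⟪ψ - G, s - G⟫_ℂ = 0 := by
      rw [hr, inner_sum]
      simp only [inner_smul_right, h0, mul_zero, Finset.sum_const_zero]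
    have h5 : ⟪ψ - G, ψ - G⟫_ℂ = ⟪ψ - G, ψ - s⟫_ℂ := by
      have h6 : ψ - G = (ψ - s) + (s - G) := by abel
      calc ⟪ψ - G, ψ - G⟫_ℂ = ⟪ψ - G, (ψ - s) + (s - G)⟫_ℂ := by rw [← h6]
        _ = ⟪ψ - G, ψ - s⟫_ℂ := by rw [inner_add_right, h4, add_zero]
    have h7 : ‖ψ - G‖ * ‖ψ - G‖ ≤ ‖ψ - G‖ * ‖ψ - s‖ := by
      have h8 : ‖⟪ψ - G, ψ - G⟫_ℂ‖ = ‖ψ - G‖ * ‖ψ - G‖ := by
        rw [inner_self_eq_norm_sq_to_K]
        simp [sq]
      rw [← h8, h5]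
      exact norm_inner_le_norm _ _
    rcases eq_or_lt_of_le (norm_nonneg (ψ - G)) with h9 | h9
    · rw [← h9]; exact norm_nonneg _
    · exact le_of_mul_le_mul_left h7 h9
  have hlim : Tendsto (fun F : Finset (Zd d) => ∑ x ∈ F, ψ x • g1 x) atTop (𝓝 ψ) := by
    rw [tendsto_iff_norm_sub_tendsto_zero]
    have h4 : Tendsto (fun F : Finset (Zd d) => ‖(∑ x ∈ F, ψ x • (dl x : L2 d)) - ψ‖) atTop
        (𝓝 0) := tendsto_iff_norm_sub_tendsto_zero.mp hsum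
    refine squeeze_zero (fun F => norm_nonneg _) (fun F => ?_) h4
    rw [norm_sub_rev, norm_sub_rev (∑ x ∈ F, ψ x • (dl x : L2 d)) ψ]
    exact hb F
  exact hc.mem_of_tendsto hlim (Eventually.of_forall fun F =>
    Submodule.sum_mem _ fun x _ => Submodule.smul_mem _ _ (hg x))

end Pool.Agent.TH369.SJ
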