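import Pool.Agent.TH369.MU.Defs

/-!
# Absolutely continuous states of the Anderson model leave every ball of volume `O(T)`.
Definitions (team SJ, helper369).
-/

set_option autoImplicit false

open MeasureTheory Filter Topology
open scoped InnerProductSpace ENNReal

namespace Pool.Agent.TH369.SJ

open Pool.Agent.TH369.AN Pool.Agent.TH369.MU

section abs

variable {X : Type} [NormedAddCommGroup X] [InnerProductSpace ℂ X]

/-- `ε_k ⟨(T - z_k)⁻¹ χ, (T - z_k)⁻¹ φ⟩` -/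
noncomputable def kk (T : X →L[ℂ] X) (E : ℝ) (k : ℕ) (χ φ : X) : ℂ :=
  (ep k : ℂ) * ⟪Rz T (zk E k) χ, Rz T (zk E k) φ⟫_ℂ

/-- `φ` is in the absolutely continuous subspace -/
def ACv (T : X →L[ℂ] X) (φ : X) : Prop := ∃ m : Measure ℝ, SpM T φ m ∧ m ≪ volume

/-- `e^{-itT}` -/
noncomputable def Ut (T : X →L[ℂ] X) (t : ℝ) : X →L[ℂ] X :=
  NormedSpace.exp ((-(Complex.I * (t : ℂ))) • T)

end abs

variable {d : ℕ}

/-- the integral over the energies `E` with `kap ≤ Λ` at `x` of `|Im G(x, y; E + i0)|²` -/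
noncomputable def Jn (c : ℝ) (ω : Zd d → ℝ) (Λ : ℕ) (x y : Zd d) : ℝ≥0∞ :=
  ∫⁻ E : ℝ, if kap c E x ω ≤ (Λ : ℝ≥0∞) then
    liminf (fun k => ‖(Gk c ω E k x y).im‖ₑ ^ 2) atTop else 0

/-- the mean probability over the times `0 < t < τ` to be in the ball of radius `M τ^{1/d}` -/
noncomputable def At (T : L2 d →L[ℂ] L2 d) (M τ : ℝ) (ψ : L2 d) : ℝ≥0∞ :=
  ENNReal.ofReal (1 / τ) * ∫⁻ t in Set.Ioo 0 τ,
    ∑' y : Zd d, if ‖y‖ ≤ M * τ ^ ((1 : ℝ) / d) then ‖(Ut T t ψ) y‖ₑ ^ 2 else 0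

end Pool.Agent.TH369.SJ
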