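import Pool.Agent.TH369.SJ.Defs

/-!
# Project SJ, piece EX: the evolution in terms of the density
-/

set_option autoImplicit false

open MeasureTheory Filter Topology
open scoped InnerProductSpace ENNReal

namespace Pool.Agent.TH369.SJ

open Pool.Agent.TH369.AN Pool.Agent.TH369.MU

variable {X : Type} [NormedAddCommGroup X] [InnerProductSpace ℂ X] [CompleteSpace X]

namespace EX

lemma ut_sum (T : X →L[ℂ] X) (χ g : X) (t : ℝ) :
    HasSum (fun n : ℕ => ((n.factorial : ℂ)⁻¹ * (-(Complex.I * t)) ^ n) * ⟪χ, (T ^ n) g⟫_ℂ)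
      ⟪χ, Ut T t g⟫_ℂ := by
  have h1 : HasSum (fun n : ℕ => ((n.factorial : ℂ)⁻¹) • ((-(Complex.I * (t : ℂ))) • T) ^ n)
      (Ut T t) := NormedSpace.exp_series_hasSum_exp' (𝕂 := ℂ) ((-(Complex.I * (t : ℂ))) • T)
  have h3 := h1.mapL (ContinuousLinearMap.apply ℂ X g)
  have h4 := h3.mapL (innerSL ℂ χ)
  refine h4.congr_fun fun n => ?_
  change ((n.factorial : ℂ)⁻¹ * (-(Complex.I * t)) ^ n) * ⟪χ, (T ^ n) g⟫_ℂ =
    ⟪χ, (((n.factorial : ℂ)⁻¹) • ((-(Complex.I * (t : ℂ))) • T) ^ n) g⟫_ℂ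
  rw [smul_pow, ContinuousLinearMap.smul_apply, ContinuousLinearMap.smul_apply,
    inner_smul_right, inner_smul_right, mul_assoc]

end EX

theorem exp_dens (T : X →L[ℂ] X) (χ g : X) (h : ℝ → ℂ) (hi : Integrable h)
    (hs : ∀ᵐ E : ℝ, ‖T‖ < |E| → h E = 0)
    (hm : ∀ n : ℕ, ⟪χ, (T ^ n) g⟫_ℂ = ∫ E : ℝ, (E : ℂ) ^ n * h E) (t : ℝ) :
    ⟪χ, Ut T t g⟫_ℂ = ∫ E : ℝ, Complex.exp (-(Complex.I * t * E)) * h E := by
  set z : ℂ := -(Complex.I * t) with hz
  have h1 := EX.ut_sum T χ g t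
  let F : ℕ → ℝ → ℂ := fun n E => ((n.factorial : ℂ)⁻¹ * z ^ n) * ((E : ℂ) ^ n * h E)
  have hb : ∀ n, ∀ᵐ E : ℝ, ‖F n E‖ ≤ (‖z‖ * ‖T‖) ^ n / n.factorial * ‖h E‖ := by
    intro n
    filter_upwards [hs] with E hE
    simp only [F]
    rw [norm_mul, norm_mul, norm_mul, norm_inv, norm_pow, norm_pow, Complex.norm_natCast,
      Complex.norm_real, Real.norm_eq_abs]
    by_cases hET : ‖T‖ < |E|
    · rw [hE hET]
      simp
    · rw [not_lt] at hET
      calc (n.factorial : ℝ)⁻¹ * ‖z‖ ^ n * (|E| ^ n * ‖h E‖)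
          ≤ (n.factorial : ℝ)⁻¹ * ‖z‖ ^ n * (‖T‖ ^ n * ‖h E‖) := by gcongr
        _ = (‖z‖ * ‖T‖) ^ n / n.factorial * ‖h E‖ := by
            rw [mul_pow, div_eq_mul_inv]
            ring
  have hme : ∀ n, AEStronglyMeasurable (F n) := by
    intro n
    refine AEStronglyMeasurable.const_mul ?_ _
    refine AEStronglyMeasurable.mul ?_ hi.aestronglyMeasurable
    exact (by fun_prop : Continuous fun E : ℝ => (E : ℂ) ^ n).aestronglyMeasurable
  have hF : ∀ n, Integrable (F n) := fun n => (hi.norm.const_mul _).mono' (hme n) (hb n)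
  have hsum : Summable fun n => ∫ E, ‖F n E‖ := by
    refine Summable.of_nonneg_of_le (fun n => integral_nonneg fun _ => norm_nonneg _)
      (fun n => ?_)
      ((Real.summable_pow_div_factorial (‖z‖ * ‖T‖)).mul_right (∫ E, ‖h E‖))
    rw [← integral_const_mul]
    exact integral_mono_ae (hF n).norm (hi.norm.const_mul _) (hb n)
  have h2 := hasSum_integral_of_summable_integral_norm hF hsum
  have h3 : ∀ E : ℝ, ∑' n, F n E = Complex.exp (-(Complex.I * t * E)) * h E := by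
    intro E
    have h4 : HasSum (fun n : ℕ => (z * E) ^ n / n.factorial) (Complex.exp (z * E)) := by
      rw [Complex.exp_eq_exp_ℂ]
      exact NormedSpace.expSeries_div_hasSum_exp (z * E)
    have h5 := h4.mul_right (h E)
    have h6 : z * E = -(Complex.I * t * E) := by
      rw [hz]
      ring
    rw [h6] at h5
    rw [← h5.tsum_eq]
    refine tsum_congr fun n => ?_
    simp only [F]
    rw [← h6, mul_pow, div_eq_mul_inv]
    ring
  simp only [h3] at h2
  refine h1.unique ?_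
  refine h2.congr_fun fun n => ?_
  simp only [F]
  rw [integral_const_mul, ← hm n]

end Pool.Agent.TH369.SJ
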