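import Pool.Agent.TH369.SJ.Defs
import Pool.Agent.TH369.AN.OP
import Pool.Agent.TH369.MU.QB
import Pool.Agent.TH369.MU.SM
import Pool.Agent.TH369.MU.QA
import Pool.Agent.TH369.MU.SY

/-!
# Elementary facts on the Green function
(job SJ-KG of helper369, written by helper512)
-/

set_option autoImplicit false
open MeasureTheory Filter Topology
open scoped InnerProductSpace ENNReal
namespace Pool.Agent.TH369.SJ
open Pool.Agent.TH369.AN Pool.Agent.TH369.MU

namespace KG

section abs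

variable {X : Type} [NormedAddCommGroup X] [InnerProductSpace ℂ X] [CompleteSpace X]

theorem im_inv (x η : ℝ) (_hη : 0 < η) :
    (((x : ℂ) - (η : ℂ) * Complex.I)⁻¹).im = η / (x ^ 2 + η ^ 2) := by
  have h1 : ((x : ℂ) - (η : ℂ) * Complex.I) = ⟨x, -η⟩ := by
    apply Complex.ext <;> simp
  rw [h1, Complex.inv_im, Complex.normSq_mk]
  congr 1
  · simp
  · ring

theorem integrable_inv (m : Measure ℝ) [IsFiniteMeasure m] (η : ℝ) (hη : 0 < η) :
    Integrable (fun x : ℝ => ((x : ℂ) - (η : ℂ) * Complex.I)⁻¹) m := by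
  have hcont : Continuous (fun x : ℝ => ((x : ℂ) - (η : ℂ) * Complex.I)⁻¹) := by
    apply Continuous.inv₀ (by fun_prop)
    intro x hx
    have := congrArg Complex.im hx
    simp at this
    linarith
  apply Integrable.of_bound hcont.aestronglyMeasurable (C := 1 / η)
  refine ae_of_all _ fun x => ?_
  rw [norm_inv, one_div]
  apply inv_anti₀ hη
  have h1 := Complex.abs_im_le_norm ((x : ℂ) - (η : ℂ) * Complex.I)
  have h2 : ((x : ℂ) - (η : ℂ) * Complex.I).im = -η := by simp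
  rw [h2, abs_neg, abs_of_pos hη] at h1
  exact h1

/-- the mass of the spectral measure is at most the square of the norm -/
theorem mass_le (T : X →L[ℂ] X) (hT : IsSelfAdjoint T) (φ : X) (m : Measure ℝ)
    (hm : SpM T φ m) : m Set.univ ≤ ENNReal.ofReal (‖φ‖ ^ 2) := by
  obtain ⟨hfin, hF⟩ := hm
  have key : ∀ n : ℕ, ∫ x : ℝ, ((n : ℝ) + 1) ^ 2 / (x ^ 2 + ((n : ℝ) + 1) ^ 2) ∂m ≤ ‖φ‖ ^ 2 := by
    intro n
    have hη : (0 : ℝ) < (n : ℝ) + 1 := by positivity
    obtain ⟨η, hη'⟩ : ∃ η : ℝ, η = (n : ℝ) + 1 := ⟨_, rfl⟩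
    rw [← hη'] at hη ⊢
    have him : ((η : ℂ) * Complex.I).im = η := by simp
    have hz : ((η : ℂ) * Complex.I).im ≠ 0 := by rw [him]; exact hη.ne'
    have h1 := hF _ hz
    have h2 := integral_im (integrable_inv m η hη)
    simp only [RCLike.im_to_complex] at h2
    have h3 : ∫ x : ℝ, η ^ 2 / (x ^ 2 + η ^ 2) ∂m =
        η * (∫ x : ℝ, (((x : ℂ) - (η : ℂ) * Complex.I)⁻¹).im ∂m) := by
      rw [← integral_const_mul]
      congr 1
      funext x
      rw [im_inv x η hη]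
      ring
    rw [h3, h2, ← h1]
    have h4 : (⟪φ, Rz T ((η : ℂ) * Complex.I) φ⟫_ℂ).im ≤ ‖φ‖ * (‖φ‖ / η) := by
      refine (le_abs_self _).trans ((Complex.abs_im_le_norm _).trans ?_)
      refine (norm_inner_le_norm _ _).trans ?_
      refine mul_le_mul_of_nonneg_left ?_ (norm_nonneg _)
      have := rz_norm T hT _ hz φ
      rwa [him, abs_of_pos hη] at this
    calc η * (⟪φ, Rz T ((η : ℂ) * Complex.I) φ⟫_ℂ).im ≤ η * (‖φ‖ * (‖φ‖ / η)) :=
          mul_le_mul_of_nonneg_left h4 hη.le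
      _ = ‖φ‖ ^ 2 := by field_simp
  have hlim : Tendsto (fun n : ℕ => ∫ x : ℝ, ((n : ℝ) + 1) ^ 2 / (x ^ 2 + ((n : ℝ) + 1) ^ 2) ∂m)
      atTop (𝓝 (∫ _x : ℝ, (1 : ℝ) ∂m)) := by
    refine tendsto_integral_of_dominated_convergence (fun _ => (1 : ℝ)) ?_ ?_ ?_ ?_
    · intro n
      refine Continuous.aestronglyMeasurable ?_
      refine Continuous.div (by fun_prop) (by fun_prop) ?_
      intro x
      positivity
    · exact integrable_const _
    · intro n
      refine ae_of_all _ fun x => ?_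
      rw [Real.norm_eq_abs, abs_of_nonneg (by positivity)]
      rw [div_le_one (by positivity)]
      nlinarith [sq_nonneg x]
    · refine ae_of_all _ fun x => ?_
      have h1 : Tendsto (fun n : ℕ => x ^ 2 / ((n : ℝ) + 1) ^ 2) atTop (𝓝 0) := by
        refine Tendsto.div_atTop tendsto_const_nhds ?_
        refine (tendsto_pow_atTop (n := 2) (by norm_num)).comp ?_
        exact tendsto_atTop_add_const_right _ _ tendsto_natCast_atTop_atTop
      have h2 : Tendsto (fun n : ℕ => (1 : ℝ) / (x ^ 2 / ((n : ℝ) + 1) ^ 2 + 1)) atTop (𝓝 (1 / (0 + 1))) := by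
        refine Tendsto.div tendsto_const_nhds (h1.add tendsto_const_nhds) (by norm_num)
      simp only [zero_add, div_one] at h2
      refine h2.congr fun n => ?_
      have : (0 : ℝ) < (n : ℝ) + 1 := by positivity
      field_simp
  have hle := le_of_tendsto' hlim key
  rw [integral_const, smul_eq_mul, mul_one] at hle
  rw [measureReal_def] at hle
  exact (ENNReal.le_ofReal_iff_toReal_le (measure_ne_top m _) (by positivity)).2 hle

end abs

variable {d : ℕ}

theorem gk_norm (c : ℝ) (ω : Zd d → ℝ) (E : ℝ) (k : ℕ) (x : Zd d) :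
    (Gk c ω E k x x).im = ep k * ‖Rz (TT (∅ : Finset (Zd d)) c ω) (zk E k) (dl x)‖ ^ 2 := by
  have h := gk_inner c ω E k x x
  rw [inner_self_eq_norm_sq_to_K] at h
  apply Complex.ofReal_injective
  rw [← h, Complex.ofReal_mul]
  congr 1
  exact (Complex.ofReal_pow _ _).symm

end KG

variable {d : ℕ}

theorem kk_dl (c : ℝ) (ω : Zd d → ℝ) (E : ℝ) (k : ℕ) (x y : Zd d) :
    kk (TT (∅ : Finset (Zd d)) c ω) E k (dl y) (dl x) = ((Gk c ω E k x y).im : ℂ) := by
  unfold kk
  rw [gk_inner, gk_symm]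

theorem gk_cs (c : ℝ) (ω : Zd d → ℝ) (E : ℝ) (k : ℕ) (x y : Zd d) :
    (Gk c ω E k x y).im ^ 2 ≤ (Gk c ω E k x x).im * (Gk c ω E k y y).im := by
  rw [KG.gk_norm, KG.gk_norm]
  have h := gk_inner c ω E k x y
  have h1 : |(Gk c ω E k x y).im| = ‖(((Gk c ω E k x y).im : ℝ) : ℂ)‖ := by
    rw [Complex.norm_real, Real.norm_eq_abs]
  have hep := QB.ep_pos k
  have h2 : |(Gk c ω E k x y).im| ≤ ep k *
      (‖Rz (TT (∅ : Finset (Zd d)) c ω) (zk E k) (dl x)‖ *
        ‖Rz (TT (∅ : Finset (Zd d)) c ω) (zk E k) (dl y)‖) := by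
    rw [h1, ← h, norm_mul, Complex.norm_real, Real.norm_eq_abs, abs_of_pos hep]
    exact mul_le_mul_of_nonneg_left (norm_inner_le_norm _ _) hep.le
  rw [← sq_abs]
  calc |(Gk c ω E k x y).im| ^ 2 ≤ (ep k *
      (‖Rz (TT (∅ : Finset (Zd d)) c ω) (zk E k) (dl x)‖ *
        ‖Rz (TT (∅ : Finset (Zd d)) c ω) (zk E k) (dl y)‖)) ^ 2 :=
        pow_le_pow_left₀ (abs_nonneg _) h2 2
    _ = _ := by ring

theorem kap_ae (c : ℝ) (ω : Zd d → ℝ) (x : Zd d) (m : Measure ℝ)
    (hm : SpM (TT (∅ : Finset (Zd d)) c ω) (dl x) m) :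
    (∀ᵐ E : ℝ, kap c E x ω = ENNReal.ofReal Real.pi * m.rnDeriv volume E) ∧
      (∀ᵐ E : ℝ, Tendsto (fun k => ENNReal.ofReal (Gk c ω E k x x).im) atTop
        (𝓝 (kap c E x ω))) ∧
      ∫⁻ E : ℝ, kap c E x ω ≤ ENNReal.ofReal Real.pi := by
  have hT := TT_sa (∅ : Finset (Zd d)) c ω
  have hfin : IsFiniteMeasure m := hm.1
  have key : ∀ᵐ E : ℝ, Tendsto (fun k => ENNReal.ofReal (Gk c ω E k x x).im) atTop
      (𝓝 (ENNReal.ofReal Real.pi * m.rnDeriv volume E)) := by
    filter_upwards [qk_ae _ hT (dl x) m hm, m.rnDeriv_lt_top volume] with E hE hE2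
    have h1 := ENNReal.tendsto_ofReal hE
    rw [ENNReal.ofReal_mul Real.pi_pos.le, ENNReal.ofReal_toReal hE2.ne] at h1
    refine h1.congr fun k => ?_
    rw [qk_sq _ hT]
    rfl
  have h1 : ∀ᵐ E : ℝ, kap c E x ω = ENNReal.ofReal Real.pi * m.rnDeriv volume E := by
    filter_upwards [key] with E hE
    exact hE.liminf_eq
  refine ⟨h1, ?_, ?_⟩
  · filter_upwards [key, h1] with E hE hE2
    rw [hE2]
    exact hE
  · rw [lintegral_congr_ae h1, lintegral_const_mul _ (m.measurable_rnDeriv volume)]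
    calc ENNReal.ofReal Real.pi * ∫⁻ E : ℝ, m.rnDeriv volume E
        ≤ ENNReal.ofReal Real.pi * 1 := by
          refine mul_le_mul_right ?_ _
          refine (Measure.lintegral_rnDeriv_le).trans ?_
          refine (KG.mass_le _ hT (dl x) m hm).trans ?_
          rw [norm_dl]
          simp
      _ = _ := mul_one _

end Pool.Agent.TH369.SJ
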