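import Pool.Agent.TH369.SJ.Defs
import Pool.Agent.TH369.AN.RES
import Pool.Agent.TH369.AN.OP
import Pool.Agent.TH369.MU.QB
import Pool.Agent.TH369.MU.SM
import Pool.Agent.TH369.MU.QA
import Pool.Agent.TH369.MU.SN
import Pool.Agent.TH369.MU.MJ
import Pool.Agent.TH369.SJ.UQ
import Pool.Agent.TH369.SJ.BF
import Pool.Agent.TH369.SJ.KG

/-!
# SJ-GV: truncated absolutely continuous parts of the sites (helper111 for helper369)
-/

set_option autoImplicit false
open MeasureTheory Filter Topology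
open scoped InnerProductSpace ENNReal

namespace Pool.Agent.TH369.SJ

open Pool.Agent.TH369.AN Pool.Agent.TH369.MU

namespace GV

section abs

variable {X : Type} [NormedAddCommGroup X] [InnerProductSpace ℂ X]

theorem kk_le (T : X →L[ℂ] X) (E : ℝ) (k : ℕ) (χ φ : X) :
    ‖kk T E k χ φ‖ ≤ qk T E k χ * qk T E k φ := by
  unfold kk qk
  have he : 0 ≤ ep k := (Pool.Agent.TH369.MU.QB.ep_pos k).le
  rw [norm_mul, Complex.norm_real, Real.norm_of_nonneg he]
  have h1 := norm_inner_le_norm (𝕜 := ℂ) (Rz T (zk E k) χ) (Rz T (zk E k) φ)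
  have h2 : Real.sqrt (ep k) * Real.sqrt (ep k) = ep k := Real.mul_self_sqrt he
  calc ep k * ‖⟪Rz T (zk E k) χ, Rz T (zk E k) φ⟫_ℂ‖
      ≤ ep k * (‖Rz T (zk E k) χ‖ * ‖Rz T (zk E k) φ‖) := mul_le_mul_of_nonneg_left h1 he
    _ = (Real.sqrt (ep k) * Real.sqrt (ep k)) * (‖Rz T (zk E k) χ‖ * ‖Rz T (zk E k) φ‖) := by
        rw [h2]
    _ = _ := by ring

theorem kk_sub (T : X →L[ℂ] X) (E : ℝ) (k : ℕ) (χ φ ψ : X) :
    kk T E k χ (φ - ψ) = kk T E k χ φ - kk T E k χ ψ := by
  unfold kk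
  rw [map_sub, inner_sub_right]
  ring

end abs

/-- comparison of lower limits -/
theorem liminf_le_of_sub {a b : ℕ → ℂ} (C : ℝ) (hb : ∀ k, ‖b k‖ ≤ C)
    (h : Tendsto (fun k => a k - b k) atTop (𝓝 0)) :
    liminf (fun k => ‖a k‖ₑ ^ 2) atTop ≤ liminf (fun k => ‖b k‖ₑ ^ 2) atTop := by
  have hC : 0 ≤ C := (norm_nonneg _).trans (hb 0)
  apply ENNReal.le_of_forall_pos_le_add
  intro ε hε _
  have h1 : Tendsto (fun k => 2 * C * ‖a k - b k‖ + ‖a k - b k‖ ^ 2) atTop (𝓝 (2 * C * 0 + 0 ^ 2)) := by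
    have h2 : Tendsto (fun k => ‖a k - b k‖) atTop (𝓝 0) := by simpa using h.norm
    exact (h2.const_mul _).add (h2.pow 2)
  have h3 : ∀ᶠ k in atTop, 2 * C * ‖a k - b k‖ + ‖a k - b k‖ ^ 2 < ε := by
    apply h1.eventually_lt_const
    simpa using hε
  have h4 : liminf (fun k => ‖b k‖ₑ ^ 2) atTop + ε = liminf (fun k => ‖b k‖ₑ ^ 2 + ε) atTop :=
    (liminf_add_const (R := ℝ≥0∞) atTop (fun k => ‖b k‖ₑ ^ 2) ε (by isBoundedDefault)
      (by isBoundedDefault)).symm
  rw [h4]
  refine liminf_le_liminf ?_ (by isBoundedDefault) (by isBoundedDefault)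
  filter_upwards [h3] with k hk
  have h5 : ‖a k‖ ^ 2 ≤ ‖b k‖ ^ 2 + ε := by
    have h6 : ‖a k‖ ≤ ‖b k‖ + ‖a k - b k‖ := by
      have : a k = b k + (a k - b k) := by ring
      calc ‖a k‖ = ‖b k + (a k - b k)‖ := by rw [← this]
        _ ≤ _ := norm_add_le _ _
    have h7 := hb k
    have h8 := norm_nonneg (a k)
    have h9 := norm_nonneg (b k)
    have h10 := norm_nonneg (a k - b k)
    nlinarith
  have h11 : ‖a k‖ₑ ^ 2 = ENNReal.ofReal (‖a k‖ ^ 2) := by
    rw [ENNReal.ofReal_pow (norm_nonneg _), ofReal_norm]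
  have h12 : ‖b k‖ₑ ^ 2 = ENNReal.ofReal (‖b k‖ ^ 2) := by
    rw [ENNReal.ofReal_pow (norm_nonneg _), ofReal_norm]
  rw [h11, h12, ← ENNReal.ofReal_coe_nnreal, ← ENNReal.ofReal_add (by positivity) (by positivity)]
  exact ENNReal.ofReal_le_ofReal h5

end GV

variable {d : ℕ}

theorem gvec (c : ℝ) (hc : 0 ≤ c) (ω : Zd d → ℝ) (x : Zd d) :
    ∃ (g : ℕ → L2 d) (g1 : L2 d), (∀ Λ, ACv (TT (∅ : Finset (Zd d)) c ω) (g Λ)) ∧
      (∀ Λ (y : Zd d), ∫⁻ E : ℝ, liminf (fun k =>
        ‖kk (TT (∅ : Finset (Zd d)) c ω) E k (dl y) (g Λ)‖ₑ ^ 2) atTop ≤ Jn c ω Λ x y) ∧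
      Tendsto g atTop (𝓝 g1) ∧ ACv (TT (∅ : Finset (Zd d)) c ω) g1 ∧
      ∃ m : Measure ℝ, SpM (TT (∅ : Finset (Zd d)) c ω) (dl x - g1) m ∧
        m ⟂ₘ (volume : Measure ℝ) := by
  obtain ⟨T, hTd⟩ : ∃ T : L2 d →L[ℂ] L2 d, T = TT (∅ : Finset (Zd d)) c ω := ⟨_, rfl⟩
  have hT : IsSelfAdjoint T := by rw [hTd]; exact TT_sa ∅ c ω
  obtain ⟨m, hm, -⟩ := spm_exists T hT (dl x)
  have hfin : IsFiniteMeasure m := hm.1
  -- the null set
  obtain ⟨s, hs, hs1, hs2⟩ := Measure.mutuallySingular_singularPart m (volume : Measure ℝ)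
  have hac : m.restrict s ≪ (volume : Measure ℝ) := by
    rw [m.haveLebesgueDecomposition_add (volume : Measure ℝ), Measure.restrict_add,
      Measure.restrict_eq_zero.2 hs1, zero_add]
    exact (Measure.absolutelyContinuous_of_le Measure.restrict_le_self).trans
      (withDensity_absolutelyContinuous _ _)
  have hkm : Measurable fun E : ℝ => kap c E x ω := by
    unfold kap
    refine Measurable.liminf fun k => ?_
    exact (Complex.measurable_im.comp (MJ.gk_cont c ω k x x).measurable).ennreal_ofReal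
  obtain ⟨S, hSd⟩ : ∃ S : ℕ → Set ℝ, S = fun Λ : ℕ => s ∩ {E | kap c E x ω ≤ (Λ : ℝ≥0∞)} := ⟨_, rfl⟩
  have hS : ∀ Λ, MeasurableSet (S Λ) := by
    intro Λ
    rw [hSd]
    exact hs.inter (measurableSet_le hkm measurable_const)
  obtain ⟨P, hP1, hP2⟩ := restr T hT (dl x) m hm
  have hacS : ∀ Λ, m.restrict (S Λ) ≪ (volume : Measure ℝ) := by
    intro Λ
    refine (Measure.absolutelyContinuous_of_le ?_).trans hac
    apply Measure.restrict_mono _ le_rfl
    rw [hSd]
    exact Set.inter_subset_left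
  rw [← hTd]
  refine ⟨fun Λ => P (S Λ), P s, fun Λ => ⟨_, (hP1 _ (hS Λ)).1, hacS Λ⟩, ?_, ?_,
    ⟨_, (hP1 _ hs).1, hac⟩, ⟨m.restrict sᶜ, (hP1 _ hs).2, ?_⟩⟩
  · -- the sojourn bound
    intro Λ y
    unfold Jn
    apply lintegral_mono_ae
    obtain ⟨my, hmy, -⟩ := spm_exists T hT (dl y)
    have hfy : IsFiniteMeasure my := hmy.1
    have h1 := qk_ae T hT (dl y) my hmy
    have h2 := qk_ae T hT (P (S Λ)) _ (hP1 _ (hS Λ)).1
    have h3 := qk_ae T hT (dl x - P (S Λ)) _ (hP1 _ (hS Λ)).2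
    have hx := qk_ae T hT (dl x) m hm
    have h4 := Measure.rnDeriv_restrict m (volume : Measure ℝ) (hS Λ)
    have h5 := Measure.rnDeriv_restrict m (volume : Measure ℝ) (hS Λ).compl
    have h6 : ∀ᵐ E : ℝ, E ∈ s := by
      rw [ae_iff]
      exact hs2
    filter_upwards [h1, h2, h3, hx, h4, h5, h6] with E e1 e2 e3 ex e4 e5 e6
    -- boundedness
    obtain ⟨C, hC⟩ := e1.bddAbove_range
    have hqy : ∀ k, qk T E k (dl y) ≤ Real.sqrt C := by
      intro k
      apply Real.le_sqrt_of_sq_le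
      exact hC ⟨k, rfl⟩
    obtain ⟨Cx, hCx⟩ := ex.bddAbove_range
    have hqx : ∀ k, qk T E k (dl x) ≤ Real.sqrt Cx := by
      intro k
      apply Real.le_sqrt_of_sq_le
      exact hCx ⟨k, rfl⟩
    have hzero : ∀ v : L2 d, Tendsto (fun k => qk T E k v) atTop (𝓝 0) →
        Tendsto (fun k => kk T E k (dl y) v) atTop (𝓝 0) := by
      intro v hv
      have h7 : Tendsto (fun k => Real.sqrt C * qk T E k v) atTop (𝓝 0) := by
        simpa using hv.const_mul (Real.sqrt C)
      refine squeeze_zero_norm (fun k => ?_) h7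
      refine (GV.kk_le T E k (dl y) v).trans ?_
      exact mul_le_mul_of_nonneg_right (hqy k) (qk_nonneg T E k v)
    by_cases hE : E ∈ S Λ
    · have hk : kap c E x ω ≤ (Λ : ℝ≥0∞) := by
        rw [hSd] at hE
        exact hE.2
      rw [if_pos hk]
      have h8 : Tendsto (fun k => qk T E k (dl x - P (S Λ))) atTop (𝓝 0) := by
        rw [SN.sq_zero _ (fun k => qk_nonneg T E k _)]
        rw [e5, Set.indicator_of_notMem (by simpa using hE)] at e3
        simpa using e3
      have h9 := hzero _ h8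
      have h10 : liminf (fun k => ‖kk T E k (dl y) (P (S Λ))‖ₑ ^ 2) atTop ≤
          liminf (fun k => ‖kk T E k (dl y) (dl x)‖ₑ ^ 2) atTop := by
        apply GV.liminf_le_of_sub (Real.sqrt C * Real.sqrt Cx)
        · intro k
          refine (GV.kk_le T E k (dl y) (dl x)).trans ?_
          exact mul_le_mul (hqy k) (hqx k) (qk_nonneg T E k _) (Real.sqrt_nonneg _)
        · have h11 := h9.neg
          rw [neg_zero] at h11
          refine h11.congr fun k => ?_
          rw [GV.kk_sub]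
          ring
      refine h10.trans (le_of_eq ?_)
      congr 1
      funext k
      have h12 : ‖kk T E k (dl y) (dl x)‖ₑ = ‖(Gk c ω E k x y).im‖ₑ := by
        rw [hTd, kk_dl, ← ofReal_norm, ← ofReal_norm, Complex.norm_real]
      rw [h12]
    · have h8 : Tendsto (fun k => qk T E k (P (S Λ))) atTop (𝓝 0) := by
        rw [SN.sq_zero _ (fun k => qk_nonneg T E k _)]
        rw [e4, Set.indicator_of_notMem hE] at e2
        simpa using e2
      have h9 : Tendsto (fun k => ‖kk T E k (dl y) (P (S Λ))‖ₑ ^ 2) atTop (𝓝 0) := by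
        have h10 := (hzero _ h8).enorm
        rw [enorm_zero] at h10
        have h11 := ENNReal.Tendsto.pow (n := 2) h10
        simpa using h11
      rw [h9.liminf_eq]
      exact bot_le
  · -- convergence
    have hmono : ∀ Λ, S Λ ⊆ s := by
      intro Λ
      rw [hSd]
      exact Set.inter_subset_left
    have hnorm : ∀ Λ, ‖P s - P (S Λ)‖ ^ 2 = (m (s \ S Λ)).toReal := by
      intro Λ
      rw [← spm_norm T hT _ _ (hP2 _ _ (hS Λ) hs (hmono Λ)), Measure.real,
        Measure.restrict_apply_univ]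
    have hlim : Tendsto (fun Λ => m (s \ S Λ)) atTop (𝓝 0) := by
      have h1 : Tendsto (fun Λ => m (s \ S Λ)) atTop (𝓝 (m (⋂ Λ, s \ S Λ))) := by
        apply tendsto_measure_iInter_atTop
        · intro Λ
          exact (hs.diff (hS Λ)).nullMeasurableSet
        · intro Λ Λ' hΛ
          apply Set.sdiff_subset_sdiff_right
          rw [hSd]
          apply Set.inter_subset_inter_right
          intro E hE
          have hE' : kap c E x ω ≤ (Λ : ℝ≥0∞) := hE
          exact hE'.trans (by exact_mod_cast hΛ)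
        · exact ⟨0, measure_ne_top m _⟩
      have h2 : m (⋂ Λ, s \ S Λ) = 0 := by
        have h3 : (volume : Measure ℝ) {E | kap c E x ω = ⊤} = 0 := by
          have h4 := (kap_ae c ω x m (by rw [← hTd]; exact hm)).1
          have h5 : ∀ᵐ E : ℝ, m.rnDeriv volume E < ⊤ := Measure.rnDeriv_lt_top m volume
          have h6 : ∀ᵐ E : ℝ, ¬ kap c E x ω = ⊤ := by
            filter_upwards [h4, h5] with E e4 e5
            rw [e4]
            exact (ENNReal.mul_lt_top ENNReal.ofReal_lt_top e5).ne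
          rw [ae_iff] at h6
          simpa using h6
        have h7 := hac h3
        have h8 : MeasurableSet {E : ℝ | kap c E x ω = ⊤} := hkm (measurableSet_singleton _)
        rw [Measure.restrict_apply h8] at h7
        refine measure_mono_null ?_ h7
        intro E hE
        rw [Set.mem_iInter] at hE
        refine ⟨?_, (hE 0).1⟩
        show kap c E x ω = ⊤
        by_contra hne
        obtain ⟨n, hn⟩ := ENNReal.exists_nat_gt hne
        apply (hE n).2
        rw [hSd]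
        exact ⟨(hE n).1, hn.le⟩
      rw [h2] at h1
      exact h1
    have hlim2 : Tendsto (fun Λ => ‖P s - P (S Λ)‖ ^ 2) atTop (𝓝 0) := by
      have h1 := (ENNReal.tendsto_toReal ENNReal.zero_ne_top).comp hlim
      simp only [ENNReal.toReal_zero] at h1
      exact h1.congr fun Λ => (hnorm Λ).symm
    rw [tendsto_iff_norm_sub_tendsto_zero]
    have h2 := hlim2.sqrt
    rw [Real.sqrt_zero] at h2
    refine h2.congr fun Λ => ?_
    rw [Real.sqrt_sq (norm_nonneg _), norm_sub_rev]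
  · -- the singular part
    refine ⟨s, hs, ?_, hs2⟩
    rw [Measure.restrict_apply hs]
    simp

end Pool.Agent.TH369.SJ
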