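import Pool.Agent.TH369.SJ.Defs
import Pool.Agent.TH369.AN.OP
import Pool.Agent.TH369.MU.SM
import Pool.Agent.TH369.MU.SH
import Pool.Agent.TH369.MU.MJ
import Pool.Agent.TH369.MU.SA
import Pool.Agent.TH369.SJ.KG

/-! Measurability, bound and covariance of `Jn` (helper914, job 4657). -/

set_option autoImplicit false
open MeasureTheory Filter Topology
open scoped InnerProductSpace ENNReal
namespace Pool.Agent.TH369.SJ
open Pool.Agent.TH369.AN Pool.Agent.TH369.MU
variable {d : ℕ}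

theorem jn_meas (c : ℝ) (hc : 0 ≤ c) (Λ : ℕ) (x y : Zd d) :
    Measurable fun ω : Zd d → ℝ => Jn c ω Λ x y := by
  unfold Jn
  have h1 : Measurable fun p : (Zd d → ℝ) × ℝ => if kap c p.2 x p.1 ≤ (Λ : ℝ≥0∞) then
      liminf (fun k => ‖(Gk c p.1 p.2 k x y).im‖ₑ ^ 2) atTop else 0 := by
    refine Measurable.ite (measurableSet_le (SA.kap_meas c hc x) measurable_const) ?_
      measurable_const
    exact Measurable.liminf fun k =>
      ((Complex.measurable_im.comp (gk_meas2 c hc k x y)).enorm.pow_const 2)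
  exact h1.lintegral_prod_right'

theorem jn_le (c : ℝ) (hc : 0 ≤ c) (ω : Zd d → ℝ) (Λ : ℕ) (x y : Zd d) :
    Jn c ω Λ x y ≤ ENNReal.ofReal (Real.pi * Λ) := by
  have hT := TT_sa (∅ : Finset (Zd d)) c ω
  obtain ⟨mx, hmx, -⟩ := spm_exists (TT (∅ : Finset (Zd d)) c ω) hT (dl x)
  obtain ⟨my, hmy, -⟩ := spm_exists (TT (∅ : Finset (Zd d)) c ω) hT (dl y)
  obtain ⟨-, hx2, -⟩ := kap_ae c ω x mx hmx
  obtain ⟨-, hy2, hy3⟩ := kap_ae c ω y my hmy
  have hp : Measurable fun E : ℝ => ((ω, E) : (Zd d → ℝ) × ℝ) := measurable_prodMk_left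
  have hkm : Measurable ((fun p : (Zd d → ℝ) × ℝ => kap c p.2 y p.1) ∘
      fun E : ℝ => ((ω, E) : (Zd d → ℝ) × ℝ)) := (SA.kap_meas c hc y).comp hp
  change Measurable fun E : ℝ => kap c E y ω at hkm
  have hfin : ∀ᵐ E : ℝ, kap c E y ω < ⊤ :=
    ae_lt_top hkm (ne_top_of_le_ne_top ENNReal.ofReal_ne_top hy3)
  have hle : Jn c ω Λ x y ≤ ∫⁻ E : ℝ, (Λ : ℝ≥0∞) * kap c E y ω := by
    unfold Jn
    refine lintegral_mono_ae ?_
    filter_upwards [hx2, hy2, hfin] with E h1 h2 h3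
    split_ifs with hk
    · have h4 : Tendsto (fun k => ENNReal.ofReal (Gk c ω E k x x).im *
          ENNReal.ofReal (Gk c ω E k y y).im) atTop (𝓝 (kap c E x ω * kap c E y ω)) :=
        ENNReal.Tendsto.mul h1 (Or.inr h3.ne) h2
          (Or.inr (ne_top_of_le_ne_top (ENNReal.natCast_ne_top Λ) hk))
      calc liminf (fun k => ‖(Gk c ω E k x y).im‖ₑ ^ 2) atTop
          ≤ liminf (fun k => ENNReal.ofReal (Gk c ω E k x x).im *
            ENNReal.ofReal (Gk c ω E k y y).im) atTop := by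
            refine liminf_le_liminf (Eventually.of_forall fun k => ?_)
            rw [Real.enorm_eq_ofReal_abs, ← ENNReal.ofReal_pow (abs_nonneg _), sq_abs,
              ← ENNReal.ofReal_mul (gk_pos c ω E k x).le]
            exact ENNReal.ofReal_le_ofReal (gk_cs c ω E k x y)
        _ = kap c E x ω * kap c E y ω := h4.liminf_eq
        _ ≤ (Λ : ℝ≥0∞) * kap c E y ω := by gcongr
    · exact zero_le
  refine hle.trans ?_
  rw [lintegral_const_mul _ hkm, mul_comm Real.pi, ENNReal.ofReal_mul (Nat.cast_nonneg Λ),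
    ENNReal.ofReal_natCast]
  gcongr

theorem jn_shift (c : ℝ) (ω : Zd d → ℝ) (Λ : ℕ) (a x y : Zd d) :
    Jn c (sh a ω) Λ x y = Jn c ω Λ (x + a) (y + a) := by
  unfold Jn kap
  simp only [gk_shift]

end Pool.Agent.TH369.SJ
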