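import Pool.Agent.TH369.SJ.Defs
import Pool.Agent.TH369.AN.OP
import Pool.Agent.TH369.MU.SM
import Pool.Agent.TH369.MU.SH
import Pool.Agent.TH369.MU.SY
import Pool.Agent.TH369.MU.MJ
import Pool.Agent.TH369.MU.GA
import Pool.Agent.TH369.MU.DE
import Pool.Agent.TH369.SJ.KG

/-!
# The averages of `Jn` tend to zero (job SJ-P1 of helper369, written by helper365)
-/

set_option autoImplicit false

open MeasureTheory Filter Topology
open scoped InnerProductSpace ENNReal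

namespace Pool.Agent.TH369.SJ

open Pool.Agent.TH369.AN Pool.Agent.TH369.MU

variable {d : ℕ}

namespace P1

/-- the integrand of `Jn` -/
noncomputable def F (c : ℝ) (Λ : ℕ) (y : Zd d) (ω : Zd d → ℝ) (E : ℝ) : ℝ≥0∞ :=
  if kap c E 0 ω ≤ (Λ : ℝ≥0∞) then
    liminf (fun k => ‖(Gk c ω E k 0 y).im‖ₑ ^ 2) atTop else 0

theorem F_meas (c : ℝ) (hc : 0 ≤ c) (Λ : ℕ) (y : Zd d) :
    Measurable fun p : (Zd d → ℝ) × ℝ => F c Λ y p.1 p.2 := by
  unfold F
  refine Measurable.ite (measurableSet_le (GA.meas_kap c hc 0) measurable_const) ?_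
    measurable_const
  refine Measurable.liminf fun k => ?_
  exact ((Complex.measurable_im.comp (gk_meas2 c hc k 0 y)).enorm).pow_const 2

theorem enorm_sq' (x : ℝ) : ‖x‖ₑ ^ 2 = ENNReal.ofReal (x ^ 2) := by
  rw [← ofReal_norm, ← ENNReal.ofReal_pow (norm_nonneg _), Real.norm_eq_abs, sq_abs]

/-- the estimates at a good environment -/
theorem F_le (c : ℝ) (Λ : ℕ) (y : Zd d) (ω : Zd d → ℝ) (E : ℝ) (hg : Good c E ω) :
    F c Λ y ω E ≤ Λ * kap c E y ω ∧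
    (∀ δ : ℝ, 0 ≤ δ → ¬ (0 < kap c E 0 ω ∧ 0 < kap c E y ω ∧
        ¬ ∀ᶠ k in atTop, ‖Gk c ω E k 0 y‖ ≤ δ) → F c Λ y ω E ≤ ENNReal.ofReal (δ ^ 2)) := by
  obtain ⟨l0, h0⟩ := (hg 0).1
  obtain ⟨ly, hy⟩ := (hg y).1
  have k0 : kap c E 0 ω = ENNReal.ofReal l0 :=
    ((ENNReal.continuous_ofReal.tendsto _).comp h0).liminf_eq
  have ky : kap c E y ω = ENNReal.ofReal ly :=
    ((ENNReal.continuous_ofReal.tendsto _).comp hy).liminf_eq
  have p0 : 0 ≤ l0 := ge_of_tendsto' h0 fun k => (gk_pos c ω E k 0).le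
  have h1 : Tendsto (fun k => ENNReal.ofReal ((Gk c ω E k 0 0).im * (Gk c ω E k y y).im)) atTop
      (𝓝 (kap c E 0 ω * kap c E y ω)) := by
    rw [k0, ky, ← ENNReal.ofReal_mul p0]
    exact (ENNReal.continuous_ofReal.tendsto _).comp (h0.mul hy)
  have h2 : liminf (fun k => ‖(Gk c ω E k 0 y).im‖ₑ ^ 2) atTop ≤
      kap c E 0 ω * kap c E y ω := by
    rw [← h1.liminf_eq]
    refine liminf_le_liminf (Eventually.of_forall fun k => ?_)
    rw [enorm_sq']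
    exact ENNReal.ofReal_le_ofReal (gk_cs c ω E k 0 y)
  constructor
  · unfold F
    split_ifs with h
    · exact h2.trans (mul_le_mul' h le_rfl)
    · exact bot_le
  · intro δ hδ hn
    have h3 : liminf (fun k => ‖(Gk c ω E k 0 y).im‖ₑ ^ 2) atTop ≤ ENNReal.ofReal (δ ^ 2) := by
      by_cases ha : 0 < kap c E 0 ω
      · by_cases hb : 0 < kap c E y ω
        · have hev : ∀ᶠ k in atTop, ‖Gk c ω E k 0 y‖ ≤ δ := by
            by_contra hcon
            exact hn ⟨ha, hb, hcon⟩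
          calc liminf (fun k => ‖(Gk c ω E k 0 y).im‖ₑ ^ 2) atTop
              ≤ liminf (fun _ : ℕ => ENNReal.ofReal (δ ^ 2)) atTop := by
                refine liminf_le_liminf (hev.mono fun k hk => ?_)
                show ‖(Gk c ω E k 0 y).im‖ₑ ^ 2 ≤ ENNReal.ofReal (δ ^ 2)
                rw [enorm_sq']
                refine ENNReal.ofReal_le_ofReal ?_
                have h4 : |(Gk c ω E k 0 y).im| ≤ δ := (Complex.abs_im_le_norm _).trans hk
                rw [← sq_abs]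
                exact pow_le_pow_left₀ (abs_nonneg _) h4 2
            _ = _ := liminf_const _
        · have hb' : kap c E y ω = 0 := by simpa using hb
          rw [hb', mul_zero] at h2
          exact h2.trans bot_le
      · have ha' : kap c E 0 ω = 0 := by simpa using ha
        rw [ha', zero_mul] at h2
        exact h2.trans bot_le
    unfold F
    split_ifs
    · exact h3
    · exact bot_le

theorem shift_int (c : ℝ) (hc : 0 ≤ c) (μ : Measure ℝ) [IsProbabilityMeasure μ] (E : ℝ)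
    (y : Zd d) : ∫⁻ ω, kap c E y ω ∂(iid d μ) = ∫⁻ ω, kap c E 0 ω ∂(iid d μ) := by
  have h := (sh_mp (d := d) μ y).lintegral_comp (DE.kap_meas c hc E 0)
  rw [← h]
  exact lintegral_congr fun ω => (DE.kap_shift c E y ω).symm

theorem shift_set (c : ℝ) (hc : 0 ≤ c) (μ : Measure ℝ) [IsProbabilityMeasure μ] (E : ℝ)
    (y : Zd d) (A : Set (Zd d → ℝ)) (hA : MeasurableSet A) :
    ∃ A' : Set (Zd d → ℝ), iid d μ A' = iid d μ A ∧
      ∫⁻ ω in A, kap c E y ω ∂(iid d μ) = ∫⁻ ω in A', kap c E 0 ω ∂(iid d μ) := by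
  have hm := sh_mp (d := d) μ (-y)
  refine ⟨sh (-y) ⁻¹' A, hm.measure_preimage hA.nullMeasurableSet, ?_⟩
  have hA' : MeasurableSet (sh (-y) ⁻¹' A) := hm.measurable hA
  rw [← lintegral_indicator hA, ← lintegral_indicator hA']
  have h := (sh_mp (d := d) μ y).lintegral_comp ((DE.kap_meas c hc E 0).indicator hA')
  rw [← h]
  refine lintegral_congr fun ω => ?_
  have hs : sh (-y) (sh y ω) = ω := by
    funext x
    simp [sh]
  by_cases hω : ω ∈ A
  · have h1 : sh y ω ∈ sh (-y) ⁻¹' A := by rw [Set.mem_preimage, hs]; exact hω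
    rw [Set.indicator_of_mem hω, Set.indicator_of_mem h1, DE.kap_shift]
  · have h1 : sh y ω ∉ sh (-y) ⁻¹' A := by rw [Set.mem_preimage, hs]; exact hω
    rw [Set.indicator_of_notMem hω, Set.indicator_of_notMem h1]

theorem bad_meas (c : ℝ) (hc : 0 ≤ c) (E δ : ℝ) (y : Zd d) :
    MeasurableSet {ω : Zd d → ℝ | 0 < kap c E 0 ω ∧ 0 < kap c E y ω ∧
        ¬ ∀ᶠ k in atTop, ‖Gk c ω E k 0 y‖ ≤ δ} := by
  have h1 : MeasurableSet {ω : Zd d → ℝ | ∀ᶠ k in atTop, ‖Gk c ω E k 0 y‖ ≤ δ} := by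
    have : {ω : Zd d → ℝ | ∀ᶠ k in atTop, ‖Gk c ω E k 0 y‖ ≤ δ} =
        ⋃ N : ℕ, ⋂ k ∈ Set.Ici N, {ω | ‖Gk c ω E k 0 y‖ ≤ δ} := by
      ext ω
      simp [eventually_atTop]
    rw [this]
    refine MeasurableSet.iUnion fun N => MeasurableSet.biInter (Set.to_countable _) fun k _ => ?_
    exact measurableSet_le (gk_meas c hc E k 0 y).norm measurable_const
  exact (measurableSet_lt measurable_const (DE.kap_meas c hc E 0)).inter
    ((measurableSet_lt measurable_const (DE.kap_meas c hc E y)).inter h1.compl)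

theorem cg : (cofinite : Filter (Zd d)).IsCountablyGenerated :=
  HasCountableBasis.isCountablyGenerated ⟨hasBasis_cofinite, Set.Countable.ofPred_finite⟩

theorem fiber (c : ℝ) (hc : 0 ≤ c) (μ : Measure ℝ) [IsProbabilityMeasure μ]
    (hμ : μ (Set.Icc (-c) c)ᶜ = 0) (hnd : ∀ x : ℝ, μ {x} ≠ 1) (Λ : ℕ) (E : ℝ)
    (hE : ∀ᵐ ω ∂(iid d μ), Good c E ω) (hK : ∫⁻ ω, kap c E 0 ω ∂(iid d μ) ≠ ∞) :
    Tendsto (fun y : Zd d => ∫⁻ ω, F c Λ y ω E ∂(iid d μ)) cofinite (𝓝 0) := by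
  have : IsProbabilityMeasure (iid d μ) := DE.iid_prob μ
  rw [ENNReal.tendsto_nhds_zero]
  intro ε hε
  have hε2 : ε / 2 ≠ 0 := (ENNReal.half_pos hε.ne').ne'
  have hΛ : ((Λ : ℝ≥0∞) + 1) ≠ ∞ := ENNReal.add_ne_top.2 ⟨ENNReal.natCast_ne_top _, by simp⟩
  have hε3 : ε / 2 / ((Λ : ℝ≥0∞) + 1) ≠ 0 := by
    rw [Ne, ENNReal.div_eq_zero_iff, not_or]
    exact ⟨hε2, hΛ⟩
  obtain ⟨δ1, hδ1, hAC⟩ := exists_pos_setLIntegral_lt_of_measure_lt hK hε3
  have hmin : (0 : ℝ≥0∞) < min δ1 (min (ε / 2) 1) :=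
    lt_min hδ1 (lt_min (pos_iff_ne_zero.2 hε2) one_pos)
  obtain ⟨r, hr0, hr⟩ := ENNReal.lt_iff_exists_nnreal_btwn.1 hmin
  have hr0' : (0 : ℝ) < (r : ℝ) := by exact_mod_cast hr0
  have hrδ : (r : ℝ≥0∞) < δ1 := hr.trans_le (min_le_left _ _)
  have hrε : (r : ℝ≥0∞) ≤ ε / 2 := (hr.trans_le ((min_le_right _ _).trans (min_le_left _ _))).le
  have hr1 : (r : ℝ) ≤ 1 := by
    have h1 : (r : ℝ≥0∞) ≤ 1 := (hr.trans_le ((min_le_right _ _).trans (min_le_right _ _))).le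
    exact_mod_cast h1
  obtain ⟨B, hB⟩ := decay c hc μ hμ hnd E hE (r : ℝ) hr0'
  have hBc : ((B : Set (Zd d))ᶜ) ∈ (cofinite : Filter (Zd d)) :=
    B.finite_toSet.compl_mem_cofinite
  filter_upwards [hBc] with y hy
  have hyB : y ∉ B := fun h => hy (Finset.mem_coe.2 h)
  set A : Set (Zd d → ℝ) := {ω | 0 < kap c E 0 ω ∧ 0 < kap c E y ω ∧
        ¬ ∀ᶠ k in atTop, ‖Gk c ω E k 0 y‖ ≤ (r : ℝ)} with hAdef
  have hAm : MeasurableSet A := bad_meas c hc E (r : ℝ) y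
  have hPA : iid d μ A ≤ (r : ℝ≥0∞) := by
    have h1 := hB y hyB
    rwa [ENNReal.ofReal_coe_nnreal] at h1
  obtain ⟨A', hA'1, hA'2⟩ := shift_set c hc μ E y A hAm
  have hint : ∫⁻ ω in A, kap c E y ω ∂(iid d μ) ≤ ε / 2 / ((Λ : ℝ≥0∞) + 1) := by
    rw [hA'2]
    exact (hAC A' (by rw [hA'1]; exact hPA.trans_lt hrδ)).le
  have hkm : Measurable (kap (d := d) c E y) := DE.kap_meas c hc E y
  calc ∫⁻ ω, F c Λ y ω E ∂(iid d μ)
      ≤ ∫⁻ ω, (ENNReal.ofReal ((r : ℝ) ^ 2) + (Λ : ℝ≥0∞) * A.indicator (kap c E y) ω)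
          ∂(iid d μ) := by
        refine lintegral_mono_ae (hE.mono fun ω hω => ?_)
        obtain ⟨h1, h2⟩ := F_le c Λ y ω E hω
        by_cases h : ω ∈ A
        · rw [Set.indicator_of_mem h]
          exact h1.trans le_add_self
        · exact (h2 (r : ℝ) hr0'.le h).trans le_self_add
    _ = ENNReal.ofReal ((r : ℝ) ^ 2) + (Λ : ℝ≥0∞) * ∫⁻ ω in A, kap c E y ω ∂(iid d μ) := by
        rw [lintegral_add_left measurable_const, lintegral_const, measure_univ, mul_one,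
          lintegral_const_mul _ (hkm.indicator hAm), lintegral_indicator hAm]
    _ ≤ ε / 2 + ε / 2 := by
        refine add_le_add ?_ ?_
        · refine le_trans ?_ hrε
          rw [← ENNReal.ofReal_coe_nnreal]
          refine ENNReal.ofReal_le_ofReal ?_
          nlinarith
        · calc (Λ : ℝ≥0∞) * ∫⁻ ω in A, kap c E y ω ∂(iid d μ)
              ≤ ((Λ : ℝ≥0∞) + 1) * (ε / 2 / ((Λ : ℝ≥0∞) + 1)) :=
                mul_le_mul' le_self_add hint
            _ ≤ ε / 2 := ENNReal.mul_div_le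
    _ = ε := ENNReal.add_halves ε

end P1

theorem jn_zero (c : ℝ) (hc : 0 ≤ c) (μ : Measure ℝ) [IsProbabilityMeasure μ]
    (hμ : μ (Set.Icc (-c) c)ᶜ = 0) (hnd : ∀ x : ℝ, μ {x} ≠ 1) (Λ : ℕ) (δ : ℝ) (hδ : 0 < δ) :
    ∃ B : Finset (Zd d), ∀ y : Zd d, y ∉ B →
      ∫⁻ ω, Jn c ω Λ 0 y ∂(iid d μ) ≤ ENNReal.ofReal δ := by
  have : IsProbabilityMeasure (iid d μ) := DE.iid_prob μ
  have hT : ∀ y : Zd d, ∫⁻ ω, Jn c ω Λ 0 y ∂(iid d μ) =
      ∫⁻ E : ℝ, ∫⁻ ω, P1.F c Λ y ω E ∂(iid d μ) := by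
    intro y
    have h1 : ∀ ω : Zd d → ℝ, Jn c ω Λ 0 y = ∫⁻ E : ℝ, P1.F c Λ y ω E := fun ω => rfl
    simp only [h1]
    exact lintegral_lintegral_swap (P1.F_meas c hc Λ y).aemeasurable
  set K : ℝ → ℝ≥0∞ := fun E => ∫⁻ ω, kap c E (0 : Zd d) ω ∂(iid d μ) with hK
  have hKm : Measurable K := (GA.meas_kap (d := d) c hc 0).lintegral_prod_left'
  have hKi : ∫⁻ E, K E ≤ ENNReal.ofReal Real.pi := by
    have h1 : ∫⁻ E, K E = ∫⁻ ω, (∫⁻ E : ℝ, kap c E (0 : Zd d) ω) ∂(iid d μ) :=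
      (lintegral_lintegral_swap (μ := iid d μ) (ν := (volume : Measure ℝ))
        (f := fun ω E => kap c E (0 : Zd d) ω) (GA.meas_kap c hc 0).aemeasurable).symm
    rw [h1]
    calc ∫⁻ ω, (∫⁻ E : ℝ, kap c E (0 : Zd d) ω) ∂(iid d μ)
        ≤ ∫⁻ _ω, ENNReal.ofReal Real.pi ∂(iid d μ) := by
          refine lintegral_mono fun ω => ?_
          obtain ⟨m, hm, -⟩ := spm_exists (TT (∅ : Finset (Zd d)) c ω) (TT_sa _ _ _)
            (dl (0 : Zd d))
          exact (kap_ae c ω 0 m hm).2.2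
      _ = ENNReal.ofReal Real.pi := by rw [lintegral_const, measure_univ, mul_one]
  have hKfin : ∀ᵐ E : ℝ, K E < ∞ := ae_lt_top hKm (hKi.trans_lt ENNReal.ofReal_lt_top).ne
  have hgood := good_ae (d := d) c hc μ
  have := P1.cg (d := d)
  have hlim : Tendsto (fun y : Zd d => ∫⁻ E : ℝ, ∫⁻ ω, P1.F c Λ y ω E ∂(iid d μ)) cofinite
      (𝓝 (∫⁻ _E : ℝ, (0 : ℝ≥0∞))) := by
    refine tendsto_lintegral_filter_of_dominated_convergence (fun E => (Λ : ℝ≥0∞) * K E)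
      ?_ ?_ ?_ ?_
    · exact Eventually.of_forall fun y => (P1.F_meas c hc Λ y).lintegral_prod_left'
    · refine Eventually.of_forall fun y => ?_
      filter_upwards [hgood] with E hE
      calc ∫⁻ ω, P1.F c Λ y ω E ∂(iid d μ) ≤ ∫⁻ ω, (Λ : ℝ≥0∞) * kap c E y ω ∂(iid d μ) :=
            lintegral_mono_ae (hE.mono fun ω hω => (P1.F_le c Λ y ω E hω).1)
        _ = Λ * K E := by
            rw [lintegral_const_mul _ (DE.kap_meas c hc E y), P1.shift_int c hc μ E y]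
    · rw [lintegral_const_mul _ hKm]
      exact ENNReal.mul_ne_top (ENNReal.natCast_ne_top _)
        (hKi.trans_lt ENNReal.ofReal_lt_top).ne
    · filter_upwards [hgood, hKfin] with E hE hK'
      exact P1.fiber c hc μ hμ hnd Λ E hE hK'.ne
  rw [lintegral_zero] at hlim
  have hev := (ENNReal.tendsto_nhds_zero.1 hlim) (ENNReal.ofReal δ) (ENNReal.ofReal_pos.2 hδ)
  rw [Filter.eventually_cofinite] at hev
  refine ⟨hev.toFinset, fun y hy => ?_⟩
  rw [hT]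
  by_contra hcon
  exact hy (hev.mem_toFinset.2 hcon)

end Pool.Agent.TH369.SJ
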