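import Pool.Agent.TH369.SJ.Defs
import Pool.Agent.TH369.AN.OP
import Pool.Agent.TH369.MU.SH
import Pool.Agent.TH369.SJ.CE
import Pool.Agent.TH369.SJ.JM
import Pool.Agent.TH369.SJ.P1

/-!
# Mean of the sojourn bound (job SJ-PB of helper369, written by helper544)
-/

set_option autoImplicit false
open MeasureTheory Filter Topology
open scoped InnerProductSpace ENNReal
namespace Pool.Agent.TH369.SJ
open Pool.Agent.TH369.AN Pool.Agent.TH369.MU
variable {d : ℕ}

namespace PB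

instance iid_prob (μ : Measure ℝ) [IsProbabilityMeasure μ] : IsProbabilityMeasure (iid d μ) := by
  unfold iid; infer_instance

/-- the mean of `Jn` is translation invariant -/
lemma mean_shift (c : ℝ) (hc : 0 ≤ c) (μ : Measure ℝ) [IsProbabilityMeasure μ] (Λ : ℕ)
    (x y : Zd d) :
    ∫⁻ ω, Jn c ω Λ x y ∂(iid d μ) = ∫⁻ ω, Jn c ω Λ 0 (y - x) ∂(iid d μ) := by
  have h := (sh_mp μ x).lintegral_comp (f := fun ω => Jn c ω Λ 0 (y - x))
    (jn_meas c hc Λ 0 (y - x))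
  rw [← h]
  refine lintegral_congr fun ω => ?_
  rw [jn_shift, zero_add, sub_add_cancel]

end PB

theorem jn_mean (hd : 0 < d) (c : ℝ) (hc : 0 ≤ c) (μ : Measure ℝ) [IsProbabilityMeasure μ]
    (hμ : μ (Set.Icc (-c) c)ᶜ = 0) (hnd : ∀ x : ℝ, μ {x} ≠ 1) (Λ : ℕ) (x : Zd d) (M : ℝ) :
    Tendsto (fun τ : ℝ => ∫⁻ ω, ENNReal.ofReal (1 / τ) *
      (∑' y : Zd d, if ‖y‖ ≤ M * τ ^ ((1 : ℝ) / d) then
        ENNReal.ofReal (2 / Real.pi) * Jn c ω Λ x y else 0) ∂(iid d μ)) atTop (𝓝 0) := by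
  classical
  have hpi := Real.pi_pos
  set a : Zd d → ℝ≥0∞ := fun y => ∫⁻ ω, ENNReal.ofReal (2 / Real.pi) * Jn c ω Λ x y ∂(iid d μ)
    with ha
  have ha' : ∀ y, a y = ENNReal.ofReal (2 / Real.pi) * ∫⁻ ω, Jn c ω Λ x y ∂(iid d μ) := by
    intro y
    simp only [ha]
    rw [lintegral_const_mul _ (jn_meas c hc Λ x y)]
  have hC : ∀ y, a y ≤ ENNReal.ofReal (2 * Λ) := by
    intro y
    have h1 : ∫⁻ ω, Jn c ω Λ x y ∂(iid d μ) ≤ ENNReal.ofReal (Real.pi * Λ) := by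
      calc ∫⁻ ω, Jn c ω Λ x y ∂(iid d μ)
          ≤ ∫⁻ _ω, ENNReal.ofReal (Real.pi * Λ) ∂(iid d μ) :=
            lintegral_mono fun ω => jn_le c hc ω Λ x y
        _ = ENNReal.ofReal (Real.pi * Λ) := by
            rw [lintegral_const, measure_univ, mul_one]
    rw [ha' y]
    calc ENNReal.ofReal (2 / Real.pi) * ∫⁻ ω, Jn c ω Λ x y ∂(iid d μ)
        ≤ ENNReal.ofReal (2 / Real.pi) * ENNReal.ofReal (Real.pi * Λ) := by gcongr
      _ = ENNReal.ofReal (2 * Λ) := by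
          rw [← ENNReal.ofReal_mul (by positivity)]
          congr 1
          field_simp
  have hδ : ∀ δ : ℝ, 0 < δ → ∃ B : Finset (Zd d), ∀ y : Zd d, y ∉ B →
      a y ≤ ENNReal.ofReal δ := by
    intro δ hδ
    obtain ⟨B, hB⟩ := jn_zero (d := d) c hc μ hμ hnd Λ (δ * Real.pi / 2) (by positivity)
    refine ⟨B.image fun z => z + x, fun y hy => ?_⟩
    have hy' : y - x ∉ B := by
      intro h
      exact hy (Finset.mem_image.2 ⟨y - x, h, sub_add_cancel y x⟩)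
    rw [ha' y, PB.mean_shift c hc μ Λ x y]
    calc ENNReal.ofReal (2 / Real.pi) * ∫⁻ ω, Jn c ω Λ 0 (y - x) ∂(iid d μ)
        ≤ ENNReal.ofReal (2 / Real.pi) * ENNReal.ofReal (δ * Real.pi / 2) := by
          gcongr
          exact hB _ hy'
      _ = ENNReal.ofReal δ := by
          rw [← ENNReal.ofReal_mul (by positivity)]
          congr 1
          field_simp
  have key : ∀ τ : ℝ, (∫⁻ ω, ENNReal.ofReal (1 / τ) *
      (∑' y : Zd d, if ‖y‖ ≤ M * τ ^ ((1 : ℝ) / d) then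
        ENNReal.ofReal (2 / Real.pi) * Jn c ω Λ x y else 0) ∂(iid d μ)) =
      ENNReal.ofReal (1 / τ) * ∑' y : Zd d, if ‖y‖ ≤ M * τ ^ ((1 : ℝ) / d) then a y else 0 := by
    intro τ
    have hm : ∀ y : Zd d, Measurable fun ω : Zd d → ℝ => (if ‖y‖ ≤ M * τ ^ ((1 : ℝ) / d) then
        ENNReal.ofReal (2 / Real.pi) * Jn c ω Λ x y else 0) := by
      intro y
      split_ifs
      · exact (jn_meas c hc Λ x y).const_mul _
      · exact measurable_const
    rw [lintegral_const_mul _ (Measurable.ennreal_tsum hm),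
      lintegral_tsum fun y => (hm y).aemeasurable]
    congr 1
    refine tsum_congr fun y => ?_
    split_ifs
    · rfl
    · exact lintegral_zero
  simp_rw [key]
  exact cesaro hd a (2 * Λ) hC hδ M

end Pool.Agent.TH369.SJ
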