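import Pool.Agent.TH369.SJ.Defs

/-!
# One subsequence for countably many sequences (team SJ of helper369, job 4649, helper570)
-/

set_option autoImplicit false

open MeasureTheory Filter Topology
open scoped InnerProductSpace ENNReal

namespace Pool.Agent.TH369.SJ

open Pool.Agent.TH369.AN Pool.Agent.TH369.MU

theorem subseq {Ω : Type} [MeasurableSpace Ω] (P : Measure Ω) [IsProbabilityMeasure P]
    (B : ℕ → ℕ → Ω → ℝ≥0∞) (hB : ∀ n i, Measurable (B n i))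
    (h : ∀ n, Tendsto (fun i => ∫⁻ ω, B n i ω ∂P) atTop (𝓝 0)) :
    ∃ s : ℕ → ℕ, StrictMono s ∧ ∀ᵐ ω ∂P, ∀ n, Tendsto (fun i => B n (s i) ω) atTop (𝓝 0) := by
  have h2 : (2 : ℝ≥0∞)⁻¹ ≤ 1 := ENNReal.inv_le_one.2 one_le_two
  have hev : ∀ i : ℕ, ∀ᶠ j in atTop, ∀ n ∈ Finset.range (i + 1),
      ∫⁻ ω, B n j ω ∂P < (2⁻¹ : ℝ≥0∞) ^ i := by
    intro i
    rw [Filter.eventually_all_finset]
    intro n _
    refine (tendsto_order.1 (h n)).2 _ ?_
    exact ENNReal.pow_pos (ENNReal.inv_pos.2 ENNReal.ofNat_ne_top) i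
  obtain ⟨s, hs, hs2⟩ := Filter.extraction_forall_of_eventually hev
  refine ⟨s, hs, ?_⟩
  rw [ae_all_iff]
  intro n
  have h1 : ∫⁻ ω, ∑' i, B n (s (i + n)) ω ∂P ≠ ⊤ := by
    rw [lintegral_tsum fun i => (hB n _).aemeasurable]
    have h3 : ∑' i, ∫⁻ ω, B n (s (i + n)) ω ∂P ≤ ∑' i : ℕ, (2⁻¹ : ℝ≥0∞) ^ i := by
      refine ENNReal.tsum_le_tsum fun i => ?_
      refine (hs2 (i + n) n (Finset.mem_range.2 (by omega))).le.trans ?_
      exact pow_le_pow_right_of_le_one' h2 (Nat.le_add_right i n)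
    refine (h3.trans_lt ?_).ne
    rw [ENNReal.tsum_geometric, ENNReal.one_sub_inv_two, inv_inv]
    exact ENNReal.ofNat_lt_top
  have h4 : ∀ᵐ ω ∂P, ∑' i, B n (s (i + n)) ω < ⊤ :=
    ae_lt_top (Measurable.ennreal_tsum fun i => hB n _) h1
  filter_upwards [h4] with ω hω
  exact (tendsto_add_atTop_iff_nat n).1 (ENNReal.tendsto_atTop_zero_of_tsum_ne_top hω.ne)

end Pool.Agent.TH369.SJ
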