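import Pool.Agent.TH369.SJ.Defs
import Pool.Agent.TH369.AN.OP
import Pool.Agent.TH369.SJ.UN

/-!
# Project SJ: the mean sojourn probability is a continuous quadratic form
-/

set_option autoImplicit false
open MeasureTheory Filter Topology
open scoped InnerProductSpace ENNReal
namespace Pool.Agent.TH369.SJ
open Pool.Agent.TH369.AN Pool.Agent.TH369.MU
variable {d : ℕ}

namespace SM

/-- the norm of `ℓ²` -/
lemma tsum_enorm (u : L2 d) : ∑' y : Zd d, ‖u y‖ₑ ^ 2 = ‖u‖ₑ ^ 2 := by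
  have h1 : ∀ z : ℂ, ‖z‖ₑ ^ 2 = ENNReal.ofReal (‖z‖ ^ 2) := fun z => by
    rw [ENNReal.ofReal_pow (norm_nonneg _), ofReal_norm]
  have h2 : ‖u‖ₑ ^ 2 = ENNReal.ofReal (‖u‖ ^ 2) := by
    rw [ENNReal.ofReal_pow (norm_nonneg _), ofReal_norm]
  rw [h2, OP.norm_sq_eq u, ENNReal.ofReal_tsum_of_nonneg (fun y => by positivity)
    (OP.summable_sq u)]
  exact tsum_congr fun y => h1 _

/-- the probability to be in the ball of radius `R` at time `t` -/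
noncomputable def pr (T : L2 d →L[ℂ] L2 d) (R : ℝ) (ψ : L2 d) (t : ℝ) : ℝ≥0∞ :=
  ∑' y : Zd d, if ‖y‖ ≤ R then ‖(Ut T t ψ) y‖ₑ ^ 2 else 0

lemma at_eq (T : L2 d →L[ℂ] L2 d) (M τ : ℝ) (ψ : L2 d) : At T M τ ψ =
    ENNReal.ofReal (1 / τ) * ∫⁻ t in Set.Ioo 0 τ, pr T (M * τ ^ ((1 : ℝ) / d)) ψ t := rfl

lemma pr_le (T : L2 d →L[ℂ] L2 d) (hT : IsSelfAdjoint T) (R : ℝ) (ψ : L2 d) (t : ℝ) :
    pr T R ψ t ≤ ‖ψ‖ₑ ^ 2 := by
  have h1 : ‖Ut T t ψ‖ₑ = ‖ψ‖ₑ := by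
    rw [← ofReal_norm, ← ofReal_norm, ut_norm T hT]
  rw [← h1, ← tsum_enorm]
  refine ENNReal.tsum_le_tsum fun y => ?_
  split_ifs
  · exact le_rfl
  · exact zero_le

lemma cont_apply (T : L2 d →L[ℂ] L2 d) (ψ : L2 d) (y : Zd d) :
    Continuous fun t : ℝ => (Ut T t ψ) y := by
  have h : (fun t : ℝ => (Ut T t ψ) y) = fun t : ℝ => ⟪dl y, Ut T t ψ⟫_ℂ := by
    funext t
    rw [inner_dl]
  rw [h]
  exact continuous_const.inner (ut_cont T ψ)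

lemma pr_meas (T : L2 d →L[ℂ] L2 d) (R : ℝ) (ψ : L2 d) : Measurable (pr T R ψ) := by
  refine Measurable.tsum fun y => ?_
  by_cases h : ‖y‖ ≤ R
  · simp only [h, if_true]
    exact ((cont_apply T ψ y).measurable.enorm).pow_const 2
  · simp only [h, if_false]
    exact measurable_const

lemma sq_le (a b : ℂ) : ‖a + b‖ₑ ^ 2 ≤ 2 * ‖a‖ₑ ^ 2 + 2 * ‖b‖ₑ ^ 2 := by
  have h1 : ∀ z : ℂ, ‖z‖ₑ ^ 2 = ENNReal.ofReal (‖z‖ ^ 2) := fun z => by
    rw [ENNReal.ofReal_pow (norm_nonneg _), ofReal_norm]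
  have h2 : (2 : ℝ≥0∞) = ENNReal.ofReal 2 := by simp
  rw [h1, h1, h1, h2, ← ENNReal.ofReal_mul (by norm_num), ← ENNReal.ofReal_mul (by norm_num),
    ← ENNReal.ofReal_add (by positivity) (by positivity)]
  refine ENNReal.ofReal_le_ofReal ?_
  have h3 : ‖a + b‖ ≤ ‖a‖ + ‖b‖ := norm_add_le _ _
  nlinarith [sq_nonneg (‖a‖ - ‖b‖), norm_nonneg (a + b), norm_nonneg a, norm_nonneg b,
    mul_le_mul h3 h3 (norm_nonneg _) (by positivity)]

lemma pr_add (T : L2 d →L[ℂ] L2 d) (R : ℝ) (φ ψ : L2 d) (t : ℝ) :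
    pr T R (φ + ψ) t ≤ 2 * pr T R φ t + 2 * pr T R ψ t := by
  unfold pr
  rw [← ENNReal.tsum_mul_left, ← ENNReal.tsum_mul_left, ← ENNReal.tsum_add]
  refine ENNReal.tsum_le_tsum fun y => ?_
  by_cases h : ‖y‖ ≤ R
  · simp only [h, if_true]
    rw [map_add]
    exact sq_le _ _
  · simp only [h, if_false]
    exact zero_le

lemma pr_smul (T : L2 d →L[ℂ] L2 d) (R : ℝ) (a : ℂ) (φ : L2 d) (t : ℝ) :
    pr T R (a • φ) t = ‖a‖ₑ ^ 2 * pr T R φ t := by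
  unfold pr
  rw [← ENNReal.tsum_mul_left]
  refine tsum_congr fun y => ?_
  by_cases h : ‖y‖ ≤ R
  · simp only [h, if_true]
    rw [map_smul]
    show ‖a * (Ut T t φ) y‖ₑ ^ 2 = _
    rw [enorm_mul, mul_pow]
  · simp only [h, if_false, mul_zero]

lemma at_add (T : L2 d →L[ℂ] L2 d) (M τ : ℝ) (φ ψ : L2 d) :
    At T M τ (φ + ψ) ≤ 2 * At T M τ φ + 2 * At T M τ ψ := by
  rw [at_eq, at_eq, at_eq]
  set R := M * τ ^ ((1 : ℝ) / d)
  calc ENNReal.ofReal (1 / τ) * ∫⁻ t in Set.Ioo 0 τ, pr T R (φ + ψ) t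
      ≤ ENNReal.ofReal (1 / τ) * ∫⁻ t in Set.Ioo 0 τ, (2 * pr T R φ t + 2 * pr T R ψ t) := by
        gcongr with t
        exact pr_add T R φ ψ t
    _ = ENNReal.ofReal (1 / τ) * (2 * ∫⁻ t in Set.Ioo 0 τ, pr T R φ t) +
        ENNReal.ofReal (1 / τ) * (2 * ∫⁻ t in Set.Ioo 0 τ, pr T R ψ t) := by
        rw [lintegral_add_left ((pr_meas T R φ).const_mul 2),
          lintegral_const_mul 2 (pr_meas T R φ), lintegral_const_mul 2 (pr_meas T R ψ), mul_add]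
    _ = _ := by ring

lemma at_smul (T : L2 d →L[ℂ] L2 d) (M τ : ℝ) (a : ℂ) (φ : L2 d) :
    At T M τ (a • φ) = ‖a‖ₑ ^ 2 * At T M τ φ := by
  rw [at_eq, at_eq]
  set R := M * τ ^ ((1 : ℝ) / d)
  have h : ∫⁻ t in Set.Ioo 0 τ, pr T R (a • φ) t =
      ‖a‖ₑ ^ 2 * ∫⁻ t in Set.Ioo 0 τ, pr T R φ t := by
    rw [← lintegral_const_mul _ (pr_meas T R φ)]
    exact lintegral_congr fun t => pr_smul T R a φ t
  rw [h]
  ring

end SM

theorem at_le (T : L2 d →L[ℂ] L2 d) (hT : IsSelfAdjoint T) (M τ : ℝ) (hτ : 0 < τ) (ψ : L2 d) :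
    At T M τ ψ ≤ ‖ψ‖ₑ ^ 2 := by
  rw [SM.at_eq]
  calc ENNReal.ofReal (1 / τ) * ∫⁻ t in Set.Ioo 0 τ, SM.pr T (M * τ ^ ((1 : ℝ) / d)) ψ t
      ≤ ENNReal.ofReal (1 / τ) * ∫⁻ _t in Set.Ioo 0 τ, ‖ψ‖ₑ ^ 2 := by
        gcongr with t
        exact SM.pr_le T hT _ ψ t
    _ = ENNReal.ofReal (1 / τ) * (‖ψ‖ₑ ^ 2 * ENNReal.ofReal τ) := by
        rw [setLIntegral_const, Real.volume_Ioo, sub_zero]
    _ = ENNReal.ofReal (1 / τ) * ENNReal.ofReal τ * ‖ψ‖ₑ ^ 2 := by ring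
    _ = ‖ψ‖ₑ ^ 2 := by
        rw [← ENNReal.ofReal_mul (by positivity), one_div_mul_cancel hτ.ne', ENNReal.ofReal_one,
          one_mul]

theorem at_small (T : L2 d →L[ℂ] L2 d) (hT : IsSelfAdjoint T) (M : ℝ) (τ : ℕ → ℝ)
    (hτ : ∀ i, 0 < τ i) {ι : Type} (g : ι → L2 d)
    (hg : ∀ j, Tendsto (fun i => At T M (τ i) (g j)) atTop (𝓝 0)) (ψ : L2 d)
    (hψ : ψ ∈ (Submodule.span ℂ (Set.range g)).topologicalClosure) :
    Tendsto (fun i => At T M (τ i) ψ) atTop (𝓝 0) := by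
  have hspan : ∀ φ ∈ Submodule.span ℂ (Set.range g),
      Tendsto (fun i => At T M (τ i) φ) atTop (𝓝 0) := by
    intro φ hφ
    induction hφ using Submodule.span_induction with
    | mem x hx =>
      obtain ⟨j, rfl⟩ := hx
      exact hg j
    | zero =>
      have h0 : ∀ i, At T M (τ i) (0 : L2 d) = 0 := fun i => by
        have h := at_le T hT M (τ i) (hτ i) 0
        simpa using h
      simp only [h0]
      exact tendsto_const_nhds
    | add x y _ _ hx hy =>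
      have h1 : Tendsto (fun i => 2 * At T M (τ i) x + 2 * At T M (τ i) y) atTop (𝓝 0) := by
        have h2 := (ENNReal.Tendsto.const_mul hx (Or.inr (by norm_num : (2 : ℝ≥0∞) ≠ ⊤))).add
          (ENNReal.Tendsto.const_mul hy (Or.inr (by norm_num : (2 : ℝ≥0∞) ≠ ⊤)))
        simpa using h2
      exact tendsto_of_tendsto_of_tendsto_of_le_of_le tendsto_const_nhds h1
        (fun i => zero_le) fun i => SM.at_add T M (τ i) x y
    | smul a x _ hx =>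
      have h1 : Tendsto (fun i => ‖a‖ₑ ^ 2 * At T M (τ i) x) atTop (𝓝 0) := by
        have h2 := ENNReal.Tendsto.const_mul hx
          (Or.inr (ENNReal.pow_ne_top enorm_ne_top : ‖a‖ₑ ^ 2 ≠ ⊤))
        simpa using h2
      simp only [SM.at_smul]
      exact h1
  rw [ENNReal.tendsto_nhds_zero]
  intro ε hε
  -- an approximation
  obtain ⟨δ, hδ0, hδ⟩ : ∃ δ : ℝ, 0 < δ ∧ 2 * ENNReal.ofReal δ ^ 2 ≤ ε / 2 := by
    have h1 : Tendsto (fun δ : ℝ => 2 * ENNReal.ofReal δ ^ 2) (𝓝[>] 0) (𝓝 0) := by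
      have h2 : Tendsto (fun δ : ℝ => ENNReal.ofReal δ ^ 2) (𝓝[>] 0) (𝓝 0) := by
        have h3 : Tendsto (fun δ : ℝ => ENNReal.ofReal (δ ^ 2)) (𝓝[>] 0) (𝓝 0) := by
          have h4 : Tendsto (fun δ : ℝ => δ ^ 2) (𝓝[>] 0) (𝓝 0) := by
            have h5 : Continuous fun δ : ℝ => δ ^ 2 := by fun_prop
            have h6 := h5.tendsto 0
            simp only [ne_eq, OfNat.ofNat_ne_zero, not_false_eq_true, zero_pow] at h6
            exact h6.mono_left nhdsWithin_le_nhds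
          have h7 := ENNReal.tendsto_ofReal h4
          simpa using h7
        refine h3.congr' ?_
        filter_upwards [self_mem_nhdsWithin] with δ hδ
        exact ENNReal.ofReal_pow (le_of_lt hδ) 2
      have h8 := ENNReal.Tendsto.const_mul h2 (Or.inr (by norm_num : (2 : ℝ≥0∞) ≠ ⊤))
      simpa using h8
    rw [ENNReal.tendsto_nhds_zero] at h1
    have h9 := h1 (ε / 2) (ENNReal.half_pos hε.ne')
    obtain ⟨δ, h10, h11⟩ := (h9.and self_mem_nhdsWithin).exists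
    exact ⟨δ, h11, h10⟩
  obtain ⟨φ, hφ, hd⟩ := Metric.mem_closure_iff.1 hψ δ hδ0
  have h1 : Tendsto (fun i => 2 * At T M (τ i) φ) atTop (𝓝 0) := by
    have h2 := ENNReal.Tendsto.const_mul (hspan φ hφ) (Or.inr (by norm_num : (2 : ℝ≥0∞) ≠ ⊤))
    simpa using h2
  rw [ENNReal.tendsto_nhds_zero] at h1
  filter_upwards [h1 (ε / 2) (ENNReal.half_pos hε.ne')] with i hi
  have h3 : At T M (τ i) (ψ - φ) ≤ ENNReal.ofReal δ ^ 2 := by
    refine (at_le T hT M (τ i) (hτ i) _).trans ?_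
    rw [← ofReal_norm, ← dist_eq_norm]
    gcongr
  calc At T M (τ i) ψ = At T M (τ i) (φ + (ψ - φ)) := by rw [add_sub_cancel]
    _ ≤ 2 * At T M (τ i) φ + 2 * At T M (τ i) (ψ - φ) := SM.at_add T M (τ i) _ _
    _ ≤ ε / 2 + 2 * ENNReal.ofReal δ ^ 2 := by gcongr
    _ ≤ ε / 2 + ε / 2 := by gcongr
    _ = ε := ENNReal.add_halves ε

end Pool.Agent.TH369.SJ
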