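import Pool.Agent.TH369.SJ.Defs
import Pool.Agent.TH369.AN.RES
import Pool.Agent.TH369.MU.SM
import Pool.Agent.TH369.SJ.UQ

/-!
# Adding a vector with null measure does not change the spectral measure on the null set
(job SJ-MN of helper369, written by helper429)
-/

set_option autoImplicit false

open MeasureTheory Filter Topology
open scoped InnerProductSpace ENNReal

namespace Pool.Agent.TH369.SJ

open Pool.Agent.TH369.AN Pool.Agent.TH369.MU

variable {X : Type} [NormedAddCommGroup X] [InnerProductSpace ℂ X] [CompleteSpace X]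

namespace MN

theorem form (A : X →L[ℂ] X) (φ ψ : X) (s : ℝ) (hs : s ≠ 0) :
    ⟪φ + ψ, A (φ + ψ)⟫_ℂ + ⟪(s : ℂ) • φ - (s : ℂ)⁻¹ • ψ, A ((s : ℂ) • φ - (s : ℂ)⁻¹ • ψ)⟫_ℂ =
      (1 + (s : ℂ) ^ 2) * ⟪φ, A φ⟫_ℂ + (1 + ((s : ℂ)⁻¹) ^ 2) * ⟪ψ, A ψ⟫_ℂ := by
  have hs' : (s : ℂ) ≠ 0 := by exact_mod_cast hs
  simp only [map_add, map_sub, map_smul, inner_add_left, inner_add_right, inner_sub_left,
    inner_sub_right, inner_smul_left, inner_smul_right, map_inv₀, Complex.conj_ofReal]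
  field_simp
  ring

theorem meas_eq (T : X →L[ℂ] X) (hT : IsSelfAdjoint T) (φ ψ : X) (s : ℝ) (hs : s ≠ 0)
    (m m' m'' n : Measure ℝ) (hm : SpM T φ m) (hm' : SpM T ψ m') (hm'' : SpM T (φ + ψ) m'')
    (hn : SpM T ((s : ℂ) • φ - (s : ℂ)⁻¹ • ψ) n) :
    m'' + n = Real.toNNReal (1 + s ^ 2) • m + Real.toNNReal (1 + s⁻¹ ^ 2) • m' := by
  haveI := hm.1
  haveI := hm'.1
  haveI := hm''.1
  haveI := hn.1
  apply ext_of_forall_integral_eq_of_IsFiniteMeasure
  intro f
  have h1 := spm_cfc T hT φ m hm f f.continuous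
  have h2 := spm_cfc T hT ψ m' hm' f f.continuous
  have h3 := spm_cfc T hT (φ + ψ) m'' hm'' f f.continuous
  have h4 := spm_cfc T hT _ n hn f f.continuous
  rw [integral_add_measure h3.1 h4.1, integral_add_measure (h1.1.smul_measure_nnreal)
    (h2.1.smul_measure_nnreal), integral_smul_nnreal_measure, integral_smul_nnreal_measure]
  rw [NNReal.smul_def, NNReal.smul_def, Real.coe_toNNReal _ (by positivity),
    Real.coe_toNNReal _ (by positivity), smul_eq_mul, smul_eq_mul]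
  apply Complex.ofReal_injective
  push_cast
  rw [h1.2, h2.2, h3.2, h4.2]
  exact form _ φ ψ s hs

theorem half (T : X →L[ℂ] X) (hT : IsSelfAdjoint T) (φ ψ : X) (m m' m'' : Measure ℝ)
    (hm : SpM T φ m) (hm' : SpM T ψ m') (hm'' : SpM T (φ + ψ) m'') (A : Set ℝ)
    (h : m' A = 0) : m'' A ≤ m A := by
  haveI := hm.1
  haveI := hm''.1
  have key : ∀ s : ℝ, 0 < s → m''.real A ≤ (1 + s ^ 2) * m.real A := by
    intro s hs
    obtain ⟨n, hn, -⟩ := spm_exists T hT ((s : ℂ) • φ - (s : ℂ)⁻¹ • ψ)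
    have h1 := meas_eq T hT φ ψ s hs.ne' m m' m'' n hm hm' hm'' hn
    have h2 : m'' A ≤ (Real.toNNReal (1 + s ^ 2) • m + Real.toNNReal (1 + s⁻¹ ^ 2) • m') A := by
      rw [← h1, Measure.add_apply]
      exact le_self_add
    rw [Measure.add_apply, Measure.smul_apply, Measure.smul_apply, h, smul_zero, add_zero] at h2
    rw [measureReal_def, measureReal_def]
    have h3 := ENNReal.toReal_mono (by
      rw [ENNReal.smul_def, smul_eq_mul]
      exact ENNReal.mul_ne_top ENNReal.coe_ne_top (measure_ne_top m A)) h2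
    rw [ENNReal.smul_def, smul_eq_mul, ENNReal.toReal_mul, ENNReal.coe_toReal,
      Real.coe_toNNReal _ (by positivity)] at h3
    exact h3
  have lim : m''.real A ≤ m.real A := by
    have h1 : Tendsto (fun s : ℝ => (1 + s ^ 2) * m.real A) (𝓝[>] 0) (𝓝 (m.real A)) := by
      have h2 : Continuous fun s : ℝ => (1 + s ^ 2) * m.real A := by fun_prop
      have h3 := (h2.tendsto 0).mono_left (nhdsWithin_le_nhds (s := Set.Ioi 0))
      simpa using h3
    refine ge_of_tendsto h1 ?_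
    filter_upwards [self_mem_nhdsWithin] with s hs
    exact key s hs
  rw [← ENNReal.toReal_le_toReal (measure_ne_top m'' A) (measure_ne_top m A)]
  exact lim

theorem spm_neg (T : X →L[ℂ] X) (ψ : X) (m : Measure ℝ) (hm : SpM T ψ m) : SpM T (-ψ) m := by
  refine ⟨hm.1, fun z hz => ?_⟩
  rw [map_neg, inner_neg_neg]
  exact hm.2 z hz

end MN

theorem null_add (T : X →L[ℂ] X) (hT : IsSelfAdjoint T) (φ ψ : X) (m m' m'' : Measure ℝ)
    (hm : SpM T φ m) (hm' : SpM T ψ m') (hm'' : SpM T (φ + ψ) m'') (A : Set ℝ)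
    (hA : MeasurableSet A) (h : m' A = 0) : m'' A = m A := by
  apply le_antisymm
  · exact MN.half T hT φ ψ m m' m'' hm hm' hm'' A h
  · have h1 : SpM T (φ + ψ + -ψ) m := by
      rw [add_neg_cancel_right]
      exact hm
    exact MN.half T hT (φ + ψ) (-ψ) m'' m' m hm'' (MN.spm_neg T ψ m' hm') h1 A h

end Pool.Agent.TH369.SJ
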