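import Pool.Agent.TH369.SJ.Defs
import Pool.Agent.TH369.AN.RES
import Pool.Agent.TH369.AN.SB
import Pool.Agent.TH369.AN.KM
import Pool.Agent.TH369.MU.QB
import Pool.Agent.TH369.MU.SM
import Pool.Agent.TH369.MU.QA
import Pool.Agent.TH369.SJ.MN

/-!
# Densities of matrix elements with an absolutely continuous vector
(job SJ-KL of helper369, written by helper921)
-/

set_option autoImplicit false

open MeasureTheory Filter Topology
open scoped InnerProductSpace ENNReal

namespace Pool.Agent.TH369.SJ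

open Pool.Agent.TH369.AN Pool.Agent.TH369.MU

variable {X : Type} [NormedAddCommGroup X] [InnerProductSpace ℂ X] [CompleteSpace X]

namespace KL

/-- the singular part is determined by the null sets -/
theorem sing_eq (m m' : Measure ℝ) [IsFiniteMeasure m] [IsFiniteMeasure m']
    (h : ∀ A : Set ℝ, MeasurableSet A → (volume : Measure ℝ) A = 0 → m A = m' A) :
    m.singularPart volume = m'.singularPart volume := by
  have h1 := Measure.mutuallySingular_singularPart m (volume : Measure ℝ)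
  have h2 := Measure.mutuallySingular_singularPart m' (volume : Measure ℝ)
  obtain ⟨N, hN, hNv, hN1, hN2⟩ : ∃ N : Set ℝ, MeasurableSet N ∧ (volume : Measure ℝ) N = 0 ∧
      m.singularPart volume Nᶜ = 0 ∧ m'.singularPart volume Nᶜ = 0 := by
    refine ⟨h1.nullSetᶜ ∪ h2.nullSetᶜ, h1.measurableSet_nullSet.compl.union
      h2.measurableSet_nullSet.compl, measure_union_null h1.measure_compl_nullSet
      h2.measure_compl_nullSet, ?_, ?_⟩
    · refine measure_mono_null ?_ h1.measure_nullSet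
      intro x hx
      simp only [Set.mem_compl_iff, Set.mem_union, not_or, not_not] at hx
      exact hx.1
    · refine measure_mono_null ?_ h2.measure_nullSet
      intro x hx
      simp only [Set.mem_compl_iff, Set.mem_union, not_or, not_not] at hx
      exact hx.2
  have key : ∀ (μ : Measure ℝ) [IsFiniteMeasure μ], μ.singularPart volume Nᶜ = 0 →
      ∀ A : Set ℝ, MeasurableSet A → μ.singularPart volume A = μ (A ∩ N) := by
    intro μ _ hμ A hA
    have e1 : μ.singularPart volume A = μ.singularPart volume (A ∩ N) := by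
      rw [← measure_inter_add_sdiff A hN]
      have : μ.singularPart volume (A \ N) = 0 := measure_mono_null (fun x hx => hx.2) hμ
      rw [this, add_zero]
    have e2 : μ (A ∩ N) = μ.singularPart volume (A ∩ N) +
        (volume : Measure ℝ).withDensity (μ.rnDeriv volume) (A ∩ N) := by
      conv_lhs => rw [μ.haveLebesgueDecomposition_add (volume : Measure ℝ)]
      rfl
    have e3 : (volume : Measure ℝ).withDensity (μ.rnDeriv volume) (A ∩ N) = 0 :=
      withDensity_absolutelyContinuous _ _ (measure_mono_null Set.inter_subset_right hNv)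
    rw [e1, e2, e3, add_zero]
  refine Measure.ext fun A hA => ?_
  rw [key m hN1 A hA, key m' hN2 A hA]
  exact h _ (hA.inter hN) (measure_mono_null Set.inter_subset_right hNv)

/-- the moments in terms of the density and the singular part -/
theorem mom (m : Measure ℝ) [IsFiniteMeasure m] (f : ℝ → ℝ) (hf : Integrable f m) :
    Integrable (fun x => f x * (m.rnDeriv volume x).toReal) ∧
      ∫ x, f x ∂m = (∫ x, f x * (m.rnDeriv volume x).toReal) +
        ∫ x, f x ∂(m.singularPart volume) := by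
  have h0 := m.haveLebesgueDecomposition_add (volume : Measure ℝ)
  have hf1 : Integrable f (m.singularPart volume) :=
    hf.mono_measure (Measure.singularPart_le m volume)
  have hf2 : Integrable f ((volume : Measure ℝ).withDensity (m.rnDeriv volume)) :=
    hf.mono_measure (Measure.withDensity_rnDeriv_le m volume)
  have hlt : ∀ᵐ x ∂(volume : Measure ℝ), m.rnDeriv volume x < ∞ := Measure.rnDeriv_lt_top m volume
  have h3 := (integrable_withDensity_iff_integrable_smul' (Measure.measurable_rnDeriv m volume)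
    hlt).mp hf2
  constructor
  · refine h3.congr (Eventually.of_forall fun x => ?_)
    simp only [smul_eq_mul]
    ring
  · conv_lhs => rw [h0]
    rw [integral_add_measure hf1 hf2, add_comm,
      integral_withDensity_eq_integral_toReal_smul (Measure.measurable_rnDeriv m volume) hlt]
    congr 1
    refine integral_congr_ae (Eventually.of_forall fun x => ?_)
    simp only [smul_eq_mul]
    ring

/-- the density vanishes where the measure does -/
theorem dens_zero (m : Measure ℝ) [IsFiniteMeasure m] (c : ℝ) (h : m {x : ℝ | c < |x|} = 0) :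
    ∀ᵐ E : ℝ, c < |E| → (m.rnDeriv volume E).toReal = 0 := by
  have hm : MeasurableSet {x : ℝ | c < |x|} := measurableSet_lt measurable_const measurable_norm
  have h1 : ∫⁻ x in {x : ℝ | c < |x|}, m.rnDeriv volume x = 0 := by
    refine le_antisymm ?_ bot_le
    rw [← h]
    exact Measure.setLIntegral_rnDeriv_le _
  rw [lintegral_eq_zero_iff (Measure.measurable_rnDeriv m volume)] at h1
  have h2 := (ae_restrict_iff' hm).mp h1
  filter_upwards [h2] with E hE hc
  have : m.rnDeriv volume E = 0 := hE hc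
  rw [this]
  rfl

/-- a function vanishing on the spectrum -/
theorem cfc_out (T : X →L[ℂ] X) : cfc (fun x : ℝ => max 0 (|x| - ‖T‖)) T = 0 := by
  rcases subsingleton_or_nontrivial X with h | h
  · exact Subsingleton.elim _ _
  · have h1 : cfc (fun x : ℝ => max 0 (|x| - ‖T‖)) T = cfc (fun _ : ℝ => (0 : ℝ)) T := by
      refine cfc_congr fun x hx => ?_
      have h2 : ‖x‖ ≤ ‖T‖ := spectrum.norm_le_norm_of_mem hx
      rw [Real.norm_eq_abs] at h2
      exact max_eq_left (by linarith)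
    rw [h1]
    exact cfc_const_zero ℝ T

/-- the spectral measure with its moments -/
theorem pack (T : X →L[ℂ] X) (hT : IsSelfAdjoint T) (φ : X) :
    ∃ m : Measure ℝ, IsFiniteMeasure m ∧ SpM T φ m ∧ (∀ n : ℕ, Integrable (fun x : ℝ => x ^ n) m) ∧
      (∀ n : ℕ, ((∫ x, x ^ n ∂m : ℝ) : ℂ) = ⟪φ, (T ^ n) φ⟫_ℂ) ∧ m {x : ℝ | ‖T‖ < |x|} = 0 := by
  obtain ⟨m, hf, hi, h0, hm, -, -⟩ := Pool.Agent.H54R3.Spec508.exists_spectral T hT φ
  refine ⟨m, hf, ⟨hf, fun z hz => spec_borel T hT φ m hm z hz⟩, hi, h0, ?_⟩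
  obtain ⟨h1, h2⟩ := hm (fun x : ℝ => max 0 (|x| - ‖T‖)) (by fun_prop)
  rw [cfc_out T] at h2
  have h3 : ∫ x, max 0 (|x| - ‖T‖) ∂m = 0 := by
    apply Complex.ofReal_injective
    rw [h2]
    simp
  have h3' := (integral_eq_zero_iff_of_nonneg (f := fun x : ℝ => max 0 (|x| - ‖T‖))
    (fun x => le_max_left _ _) h1).mp h3
  have h4 : ∀ᵐ x ∂m, ¬ ‖T‖ < |x| := by
    filter_upwards [h3'] with x hx hc
    have : max 0 (|x| - ‖T‖) = 0 := hx
    have h5 := le_max_right 0 (|x| - ‖T‖)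
    rw [this] at h5
    linarith
  rw [ae_iff] at h4
  simpa using h4

/-- the density of the spectral measure of `χ + u` -/
theorem one (T : X →L[ℂ] X) (hT : IsSelfAdjoint T) (χ u : X) (mc mu : Measure ℝ)
    [IsFiniteMeasure mc] (hc : SpM T χ mc) (hu : SpM T u mu) (hac : mu ≪ volume) :
    ∃ δ : ℝ → ℝ, Integrable δ ∧
      (∀ᵐ E : ℝ, Tendsto (fun k => qk T E k (χ + u) ^ 2) atTop (𝓝 (Real.pi * δ E))) ∧
      (∀ᵐ E : ℝ, ‖T‖ < |E| → δ E = 0) ∧
      ∀ n : ℕ, Integrable (fun E : ℝ => E ^ n * δ E) ∧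
        ⟪χ + u, (T ^ n) (χ + u)⟫_ℂ = ((∫ E : ℝ, E ^ n * δ E : ℝ) : ℂ) +
          ((∫ x, x ^ n ∂(mc.singularPart volume) : ℝ) : ℂ) := by
  obtain ⟨m, hf, hm, hi, h0, hz⟩ := pack T hT (χ + u)
  have hs : m.singularPart volume = mc.singularPart volume :=
    sing_eq m mc fun A hA hv => null_add T hT χ u mc mu m hc hu hm A hA (hac hv)
  refine ⟨fun E => (m.rnDeriv volume E).toReal, Measure.integrable_toReal_rnDeriv,
    qk_ae T hT (χ + u) m hm, dens_zero m _ hz, fun n => ?_⟩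
  obtain ⟨h1, h2⟩ := mom m (fun x => x ^ n) (hi n)
  refine ⟨h1, ?_⟩
  rw [← h0 n, h2, hs]
  push_cast
  rfl

omit [CompleteSpace X] in
/-- polarization -/
theorem pol (B : X →L[ℂ] X) (a b : X) :
    ⟪a, B b⟫_ℂ = (1 / 4) * (⟪a + (1 : ℂ) • b, B (a + (1 : ℂ) • b)⟫_ℂ -
      Complex.I * ⟪a + Complex.I • b, B (a + Complex.I • b)⟫_ℂ -
      ⟪a + (-1 : ℂ) • b, B (a + (-1 : ℂ) • b)⟫_ℂ +
      Complex.I * ⟪a + (-Complex.I) • b, B (a + (-Complex.I) • b)⟫_ℂ) := by
  have key : ∀ c : ℂ, ⟪a + c • b, B (a + c • b)⟫_ℂ = ⟪a, B a⟫_ℂ + c * ⟪a, B b⟫_ℂ +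
      (starRingEnd ℂ) c * ⟪b, B a⟫_ℂ + (starRingEnd ℂ) c * c * ⟪b, B b⟫_ℂ := by
    intro c
    rw [map_add, map_smul, inner_add_left, inner_add_right, inner_add_right, inner_smul_left,
      inner_smul_left, inner_smul_right, inner_smul_right]
    ring
  rw [key, key, key, key]
  simp only [map_one, map_neg, Complex.conj_I]
  have hI : Complex.I * Complex.I = -1 := Complex.I_mul_I
  linear_combination (-(1 / 4 : ℂ) * (- 2 * ⟪a, B b⟫_ℂ + 2 * ⟪b, B a⟫_ℂ) ) * hI

omit [CompleteSpace X] in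
/-- the spectral measure of a multiple by a complex number of modulus one -/
theorem spm_smul (T : X →L[ℂ] X) (g : X) (m : Measure ℝ) (c : ℂ) (hc : (starRingEnd ℂ) c * c = 1)
    (hg : SpM T g m) : SpM T (c • g) m := by
  refine ⟨hg.1, fun z hz => ?_⟩
  rw [← hg.2 z hz, map_smul, inner_smul_left, inner_smul_right, ← mul_assoc, hc, one_mul]

omit [CompleteSpace X] in
/-- the diagonal case -/
theorem qk_kk (T : X →L[ℂ] X) (E : ℝ) (k : ℕ) (φ : X) :
    ((qk T E k φ ^ 2 : ℝ) : ℂ) = (ep k : ℂ) * ⟪Rz T (zk E k) φ, Rz T (zk E k) φ⟫_ℂ := by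
  unfold qk
  rw [mul_pow, Real.sq_sqrt (QB.ep_pos k).le, inner_self_eq_norm_sq_to_K]
  push_cast
  rfl

omit [CompleteSpace X] in
/-- polarization of `kk` -/
theorem kk_pol (T : X →L[ℂ] X) (E : ℝ) (k : ℕ) (χ g : X) :
    kk T E k χ g = (1 / 4) * (((qk T E k (χ + (1 : ℂ) • g) ^ 2 : ℝ) : ℂ) -
      Complex.I * ((qk T E k (χ + Complex.I • g) ^ 2 : ℝ) : ℂ) -
      ((qk T E k (χ + (-1 : ℂ) • g) ^ 2 : ℝ) : ℂ) +
      Complex.I * ((qk T E k (χ + (-Complex.I) • g) ^ 2 : ℝ) : ℂ)) := by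
  rw [qk_kk, qk_kk, qk_kk, qk_kk]
  unfold kk
  have h := pol (1 : X →L[ℂ] X) (Rz T (zk E k) χ) (Rz T (zk E k) g)
  simp only [one_apply_eq_self] at h
  rw [h]
  simp only [map_add, map_smul]
  ring

end KL

theorem dens (T : X →L[ℂ] X) (hT : IsSelfAdjoint T) (χ g : X) (hg : ACv T g) :
    ∃ h : ℝ → ℂ, Integrable h ∧
      (∀ᵐ E : ℝ, Tendsto (fun k => kk T E k χ g) atTop (𝓝 ((Real.pi : ℂ) * h E))) ∧
      (∀ᵐ E : ℝ, ‖T‖ < |E| → h E = 0) ∧
      ∀ n : ℕ, ⟪χ, (T ^ n) g⟫_ℂ = ∫ E : ℝ, (E : ℂ) ^ n * h E := by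
  obtain ⟨mg, hmg, hac⟩ := hg
  obtain ⟨mc, hfc, hmc, -, -, -⟩ := KL.pack T hT χ
  have hI : (starRingEnd ℂ) Complex.I * Complex.I = 1 := by
    rw [Complex.conj_I, neg_mul, Complex.I_mul_I, neg_neg]
  obtain ⟨d0, i0, t0, z0, n0⟩ := KL.one T hT χ ((1 : ℂ) • g) mc mg hmc
    (KL.spm_smul T g mg 1 (by simp) hmg) hac
  obtain ⟨d1, i1, t1, z1, n1⟩ := KL.one T hT χ (Complex.I • g) mc mg hmc
    (KL.spm_smul T g mg _ hI hmg) hac
  obtain ⟨d2, i2, t2, z2, n2⟩ := KL.one T hT χ ((-1 : ℂ) • g) mc mg hmc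
    (KL.spm_smul T g mg _ (by simp) hmg) hac
  obtain ⟨d3, i3, t3, z3, n3⟩ := KL.one T hT χ ((-Complex.I) • g) mc mg hmc
    (KL.spm_smul T g mg _ (by rw [map_neg, neg_mul_neg, hI]) hmg) hac
  refine ⟨fun E => (1 / 4) * ((d0 E : ℂ) - Complex.I * (d1 E : ℂ) - (d2 E : ℂ) +
    Complex.I * (d3 E : ℂ)), ?_, ?_, ?_, fun n => ?_⟩
  · exact (((i0.ofReal.sub (i1.ofReal.const_mul _)).sub i2.ofReal).add
      (i3.ofReal.const_mul _)).const_mul _
  · filter_upwards [t0, t1, t2, t3] with E h0 h1 h2 h3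
    have c0 := (Complex.continuous_ofReal.tendsto _).comp h0
    have c1 := (Complex.continuous_ofReal.tendsto _).comp h1
    have c2 := (Complex.continuous_ofReal.tendsto _).comp h2
    have c3 := (Complex.continuous_ofReal.tendsto _).comp h3
    have hlim := (((c0.sub (c1.const_mul Complex.I)).sub c2).add
      (c3.const_mul Complex.I)).const_mul (1 / 4 : ℂ)
    have e1 : (Real.pi : ℂ) * ((1 / 4) * ((d0 E : ℂ) - Complex.I * (d1 E : ℂ) - (d2 E : ℂ) +
        Complex.I * (d3 E : ℂ))) = (1 / 4 : ℂ) * (((Real.pi * d0 E : ℝ) : ℂ) -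
        Complex.I * ((Real.pi * d1 E : ℝ) : ℂ) - ((Real.pi * d2 E : ℝ) : ℂ) +
        Complex.I * ((Real.pi * d3 E : ℝ) : ℂ)) := by
      push_cast
      ring
    rw [e1]
    refine hlim.congr fun k => ?_
    simp only [Function.comp_apply]
    exact (KL.kk_pol T E k χ g).symm
  · filter_upwards [z0, z1, z2, z3] with E h0 h1 h2 h3 hE
    rw [h0 hE, h1 hE, h2 hE, h3 hE]
    simp
  · obtain ⟨j0, k0⟩ := n0 n
    obtain ⟨j1, k1⟩ := n1 n
    obtain ⟨j2, k2⟩ := n2 n
    obtain ⟨j3, k3⟩ := n3 n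
    rw [KL.pol (T ^ n) χ g, k0, k1, k2, k3]
    have e1 : (fun E : ℝ => (E : ℂ) ^ n * ((1 / 4) * ((d0 E : ℂ) - Complex.I * (d1 E : ℂ) -
        (d2 E : ℂ) + Complex.I * (d3 E : ℂ)))) = fun E : ℝ =>
        (1 / 4 : ℂ) * ((((E ^ n * d0 E : ℝ) : ℂ) - Complex.I * ((E ^ n * d1 E : ℝ) : ℂ) -
          ((E ^ n * d2 E : ℝ) : ℂ)) + Complex.I * ((E ^ n * d3 E : ℝ) : ℂ)) := by
      funext E
      push_cast
      ring
    have J0 : Integrable (fun E : ℝ => ((E ^ n * d0 E : ℝ) : ℂ)) := j0.ofReal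
    have J1 : Integrable (fun E : ℝ => Complex.I * ((E ^ n * d1 E : ℝ) : ℂ)) :=
      j1.ofReal.const_mul _
    have J2 : Integrable (fun E : ℝ => ((E ^ n * d2 E : ℝ) : ℂ)) := j2.ofReal
    have J3 : Integrable (fun E : ℝ => Complex.I * ((E ^ n * d3 E : ℝ) : ℂ)) :=
      j3.ofReal.const_mul _
    have J01 : Integrable (fun E : ℝ => ((E ^ n * d0 E : ℝ) : ℂ) -
      Complex.I * ((E ^ n * d1 E : ℝ) : ℂ)) := J0.sub J1
    have J012 : Integrable (fun E : ℝ => ((E ^ n * d0 E : ℝ) : ℂ) -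
      Complex.I * ((E ^ n * d1 E : ℝ) : ℂ) - ((E ^ n * d2 E : ℝ) : ℂ)) := J01.sub J2
    rw [e1, integral_const_mul, integral_add J012 J3, integral_sub J01 J2, integral_sub J0 J1,
      integral_const_mul, integral_const_mul, integral_complex_ofReal, integral_complex_ofReal,
      integral_complex_ofReal, integral_complex_ofReal]
    ring

end Pool.Agent.TH369.SJ
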