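import Pool.Agent.TH369.SJ.Defs
import Pool.Agent.TH794.QD.Planch

/-!
# Plancherel's inequality (team SJ)
-/

set_option autoImplicit false
open MeasureTheory Filter Topology
open scoped InnerProductSpace ENNReal
namespace Pool.Agent.TH369.SJ
open Pool.Agent.TH369.AN Pool.Agent.TH369.MU

namespace PL

open FourierTransform

theorem fou (h : ℝ → ℂ) (t : ℝ) :
    ∫ E : ℝ, Complex.exp (-(Complex.I * t * E)) * h E = 𝓕 h ((2 * Real.pi)⁻¹ * t) := by
  rw [Real.fourier_eq']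
  refine integral_congr_ae (Eventually.of_forall fun E => ?_)
  simp only [smul_eq_mul]
  congr 2
  have hpi : (Real.pi : ℂ) ≠ 0 := by exact_mod_cast Real.pi_ne_zero
  simp only [RCLike.inner_apply, conj_trivial]
  push_cast
  field_simp

theorem scal (F : ℝ → ℝ≥0∞) (hF : Measurable F) :
    ∫⁻ t : ℝ, F ((2 * Real.pi)⁻¹ * t) = ENNReal.ofReal (2 * Real.pi) * ∫⁻ ξ : ℝ, F ξ := by
  have hp : (0 : ℝ) < 2 * Real.pi := by positivity
  have h0 : (2 * Real.pi)⁻¹ ≠ 0 := by positivity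
  have h1 := Real.smul_map_volume_mul_left h0
  have h2 : ∫⁻ ξ : ℝ, F ξ = ENNReal.ofReal (2 * Real.pi)⁻¹ *
      ∫⁻ t : ℝ, F ((2 * Real.pi)⁻¹ * t) := by
    conv_lhs => rw [← h1]
    rw [lintegral_smul_measure, lintegral_map hF (measurable_const_mul _), smul_eq_mul,
      abs_of_pos (by positivity)]
  rw [h2, ← mul_assoc, ← ENNReal.ofReal_mul hp.le, mul_inv_cancel₀ hp.ne']
  simp

end PL

theorem planch (h : ℝ → ℂ) (hi : Integrable h) :
    ∫⁻ t : ℝ, ‖∫ E : ℝ, Complex.exp (-(Complex.I * t * E)) * h E‖ₑ ^ 2 ≤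
      ENNReal.ofReal (2 * Real.pi) * ∫⁻ E : ℝ, ‖h E‖ₑ ^ 2 := by
  have hp : (0 : ℝ) < 2 * Real.pi := by positivity
  by_cases htop : ∫⁻ E : ℝ, ‖h E‖ₑ ^ 2 = ⊤
  · rw [htop, ENNReal.mul_top]
    · exact le_top
    · simpa using hp
  have h2 : MemLp h 2 := by
    refine ⟨hi.1, ?_⟩
    rw [eLpNorm_lt_top_iff_lintegral_rpow_enorm_lt_top (by norm_num) (by norm_num)]
    have e : ∀ x, ‖h x‖ₑ ^ (2 : ℝ≥0∞).toReal = ‖h x‖ₑ ^ 2 := by
      intro x
      rw [← ENNReal.rpow_natCast]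
      norm_num
    simp only [e]
    exact lt_top_iff_ne_top.2 htop
  have hc : Continuous (FourierTransform.fourier h : ℝ → ℂ) := by
    exact VectorFourier.fourierIntegral_continuous Real.continuous_fourierChar
      (by exact continuous_inner) hi
  simp only [PL.fou]
  rw [PL.scal (fun ξ => ‖FourierTransform.fourier h ξ‖ₑ ^ 2) (hc.measurable.enorm.pow_const 2),
    Pool.Agent.TH794.QD.plancherel h hi h2]

end Pool.Agent.TH369.SJ
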