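import Pool.Agent.TH369.SJ.Defs
import Pool.Agent.TH369.SJ.KL
import Pool.Agent.TH369.SJ.EX
import Pool.Agent.TH369.SJ.PL
set_option autoImplicit false
open MeasureTheory Filter Topology
open scoped InnerProductSpace ENNReal
namespace Pool.Agent.TH369.SJ
open Pool.Agent.TH369.AN Pool.Agent.TH369.MU
variable {X : Type} [NormedAddCommGroup X] [InnerProductSpace ℂ X] [CompleteSpace X]

theorem soj (T : X →L[ℂ] X) (hT : IsSelfAdjoint T) (χ g : X) (hg : ACv T g) :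
    ∫⁻ t : ℝ, ‖⟪χ, Ut T t g⟫_ℂ‖ₑ ^ 2 ≤
      ENNReal.ofReal (2 / Real.pi) * ∫⁻ E : ℝ, liminf (fun k => ‖kk T E k χ g‖ₑ ^ 2) atTop := by
  obtain ⟨h, hi, hlim, hs, hm⟩ := dens T hT χ g hg
  have h1 : ∀ t : ℝ, ⟪χ, Ut T t g⟫_ℂ = ∫ E : ℝ, Complex.exp (-(Complex.I * t * E)) * h E :=
    fun t => exp_dens T χ g h hi hs hm t
  have h2 : ∫⁻ E : ℝ, liminf (fun k => ‖kk T E k χ g‖ₑ ^ 2) atTop =
      ENNReal.ofReal (Real.pi ^ 2) * ∫⁻ E : ℝ, ‖h E‖ₑ ^ 2 := by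
    rw [← lintegral_const_mul' _ _ ENNReal.ofReal_ne_top]
    apply lintegral_congr_ae
    filter_upwards [hlim] with E hE
    have h3 : Tendsto (fun k => ‖kk T E k χ g‖ₑ ^ 2) atTop
        (𝓝 (‖(Real.pi : ℂ) * h E‖ₑ ^ 2)) :=
      ((ENNReal.continuous_pow 2).tendsto _).comp hE.enorm
    rw [h3.liminf_eq, enorm_mul, mul_pow]
    congr 1
    rw [ENNReal.ofReal_pow Real.pi_pos.le]
    congr 1
    rw [← ofReal_norm, Complex.norm_real, Real.norm_of_nonneg Real.pi_pos.le]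
  rw [h2, ← mul_assoc, ← ENNReal.ofReal_mul (by positivity)]
  have h4 : 2 / Real.pi * Real.pi ^ 2 = 2 * Real.pi := by
    field_simp
  rw [h4]
  simp only [h1]
  exact planch h hi

end Pool.Agent.TH369.SJ
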