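import Pool.Agent.TH369.SJ.Defs
import Pool.Agent.TH369.AN.OP
import Pool.Agent.TH369.SJ.SO
import Pool.Agent.TH369.SJ.SE
import Pool.Agent.TH369.SJ.DC
import Pool.Agent.TH369.SJ.GV
import Pool.Agent.TH369.SJ.DN
import Pool.Agent.TH369.SJ.SM
import Pool.Agent.TH369.SJ.AJ
import Pool.Agent.TH369.SJ.JM
import Pool.Agent.TH369.SJ.PB

/-! The final theorem (helper914, job 4660). -/

set_option autoImplicit false
open MeasureTheory Filter Topology
open scoped InnerProductSpace ENNReal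
namespace Pool.Agent.TH369.SJ
open Pool.Agent.TH369.AN Pool.Agent.TH369.MU
variable {d : ℕ}

theorem leave (hd : 0 < d) (c : ℝ) (hc : 0 ≤ c) (μ : Measure ℝ) [IsProbabilityMeasure μ]
    (hμ : μ (Set.Icc (-c) c)ᶜ = 0) (hnd : ∀ x : ℝ, μ {x} ≠ 1) (M : ℝ)
    (ψ : (Zd d → ℝ) → L2 d) (h1 : ∀ ω, ‖ψ ω‖ ≤ 1)
    (h2 : ∀ᵐ ω ∂(iid d μ), ACv (TT (∅ : Finset (Zd d)) c ω) (ψ ω)) :
    Tendsto (fun τ : ℝ => ∫⁻ ω, At (TT (∅ : Finset (Zd d)) c ω) M τ (ψ ω) ∂(iid d μ)) atTop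
      (𝓝 0) := by
  haveI : IsProbabilityMeasure (iid d μ) := by unfold iid; infer_instance
  refine tendsto_of_subseq_tendsto fun τ0 hτ0 => ?_
  obtain ⟨τ, hτd⟩ : ∃ τ : ℕ → ℝ, τ = fun i => max (τ0 i) 1 := ⟨_, rfl⟩
  have hτ1 : ∀ i, 0 < τ i := fun i => by
    rw [hτd]
    exact lt_of_lt_of_le one_pos (le_max_right _ _)
  have hτeq : ∀ᶠ i in atTop, τ i = τ0 i := by
    filter_upwards [hτ0.eventually_ge_atTop 1] with i hi
    rw [hτd]
    exact max_eq_left hi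
  have hτ : Tendsto τ atTop atTop := hτ0.congr' (hτeq.mono fun i hi => hi.symm)
  obtain ⟨e, he⟩ := exists_surjective_nat (Zd d × ℕ)
  obtain ⟨B, hB⟩ : ∃ B : ℕ → ℕ → (Zd d → ℝ) → ℝ≥0∞, B = fun n i ω =>
      ENNReal.ofReal (1 / τ i) * ∑' y : Zd d, if ‖y‖ ≤ M * τ i ^ ((1 : ℝ) / d) then
        ENNReal.ofReal (2 / Real.pi) * Jn c ω (e n).2 (e n).1 y else 0 := ⟨_, rfl⟩
  have hBm : ∀ n i, Measurable (B n i) := by
    intro n i
    rw [hB]
    refine Measurable.const_mul (Measurable.ennreal_tsum fun y => ?_) _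
    by_cases hy : ‖y‖ ≤ M * τ i ^ ((1 : ℝ) / d)
    · simp only [if_pos hy]
      exact (jn_meas c hc _ _ y).const_mul _
    · simp only [if_neg hy]
      exact measurable_const
  have hB0 : ∀ n, Tendsto (fun i => ∫⁻ ω, B n i ω ∂(iid d μ)) atTop (𝓝 0) := by
    intro n
    rw [hB]
    exact (jn_mean hd c hc μ hμ hnd (e n).2 (e n).1 M).comp hτ
  obtain ⟨s, hs, hae⟩ := subseq (iid d μ) B hBm hB0
  refine ⟨s, ?_⟩
  have hae2 : ∀ᵐ ω ∂(iid d μ),
      Tendsto (fun i => At (TT (∅ : Finset (Zd d)) c ω) M (τ (s i)) (ψ ω)) atTop (𝓝 0) := by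
    filter_upwards [h2, hae] with ω hac hBω
    have hT := TT_sa (∅ : Finset (Zd d)) c ω
    choose g g1 hgA hgJ hgT hg1 hgm using fun x => gvec c hc ω x
    have hsm : ∀ p : Zd d × ℕ,
        Tendsto (fun i => At (TT (∅ : Finset (Zd d)) c ω) M (τ (s i)) (g p.1 p.2)) atTop (𝓝 0) := by
      intro p
      obtain ⟨n, hn⟩ := he p
      refine tendsto_of_tendsto_of_tendsto_of_le_of_le tendsto_const_nhds (hBω n)
        (fun i => zero_le) (fun i => ?_)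
      have h3 := at_le_sum (TT (∅ : Finset (Zd d)) c ω) M (τ (s i)) (hτ1 _) (g p.1 p.2)
        (fun y => ENNReal.ofReal (2 / Real.pi) * Jn c ω p.2 p.1 y) (fun y => by
          refine (soj _ hT (dl y) (g p.1 p.2) (hgA p.1 p.2)).trans ?_
          gcongr
          exact hgJ p.1 p.2 y)
      rw [hB]
      simp only [hn]
      exact h3
    have hcl := dense_ac (TT (∅ : Finset (Zd d)) c ω) hT g g1 hgT hg1 hgm (ψ ω) hac
    exact at_small _ hT M (fun i => τ (s i)) (fun i => hτ1 _) (fun p : Zd d × ℕ => g p.1 p.2)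
      hsm (ψ ω) hcl
  have hfin := dom_zero (iid d μ)
    (fun i ω => At (TT (∅ : Finset (Zd d)) c ω) M (τ (s i)) (ψ ω)) (fun i ω => by
      refine (at_le _ (TT_sa _ c ω) M (τ (s i)) (hτ1 _) (ψ ω)).trans ?_
      have h3 : ‖ψ ω‖ₑ ≤ 1 := by
        rw [← ofReal_norm]
        exact ENNReal.ofReal_le_one.2 (h1 ω)
      calc ‖ψ ω‖ₑ ^ 2 ≤ 1 ^ 2 := by gcongr
        _ = 1 := one_pow 2) hae2
  refine hfin.congr' ?_
  filter_upwards [hs.tendsto_atTop.eventually hτeq] with i hi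
  rw [hi]

end Pool.Agent.TH369.SJ
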