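import Pool.Agent.TH369.SJ.Defs
import Pool.Agent.TH369.AN.OP
import Pool.Agent.TH369.SJ.UN
import Pool.Agent.TH369.SJ.SM
import Pool.Agent.TH369.SJ.CE
import Pool.Agent.TH369.SJ.PB

/-!
# Mean sojourn probability in a finite set of sites (project SJ, general sets)
-/

set_option autoImplicit false
open MeasureTheory Filter Topology
open scoped InnerProductSpace ENNReal
namespace Pool.Agent.TH369.SJ
open Pool.Agent.TH369.AN Pool.Agent.TH369.MU
variable {d : ℕ}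

/-- the probability to be in `S` at the time `t` -/
noncomputable def prS (T : L2 d →L[ℂ] L2 d) (S : Finset (Zd d)) (ψ : L2 d) (t : ℝ) : ℝ≥0∞ :=
  ∑ y ∈ S, ‖(Ut T t ψ) y‖ₑ ^ 2

/-- the mean probability over the times `a < t < a + τ` to be in `S` -/
noncomputable def As (T : L2 d →L[ℂ] L2 d) (S : Finset (Zd d)) (a τ : ℝ) (ψ : L2 d) : ℝ≥0∞ :=
  ENNReal.ofReal (1 / τ) * ∫⁻ t in Set.Ioo a (a + τ), prS T S ψ t

namespace GS

lemma pr_le (T : L2 d →L[ℂ] L2 d) (hT : IsSelfAdjoint T) (S : Finset (Zd d)) (ψ : L2 d) (t : ℝ) :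
    prS T S ψ t ≤ ‖ψ‖ₑ ^ 2 := by
  have h1 : ‖Ut T t ψ‖ₑ = ‖ψ‖ₑ := by
    rw [← ofReal_norm, ← ofReal_norm, ut_norm T hT]
  rw [← h1, ← SM.tsum_enorm]
  exact ENNReal.sum_le_tsum S

lemma pr_meas (T : L2 d →L[ℂ] L2 d) (S : Finset (Zd d)) (ψ : L2 d) : Measurable (prS T S ψ) := by
  unfold prS
  refine Finset.measurable_sum _ fun y _ => ?_
  exact ((SM.cont_apply T ψ y).measurable.enorm).pow_const 2

lemma pr_add (T : L2 d →L[ℂ] L2 d) (S : Finset (Zd d)) (φ ψ : L2 d) (t : ℝ) :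
    prS T S (φ + ψ) t ≤ 2 * prS T S φ t + 2 * prS T S ψ t := by
  unfold prS
  rw [Finset.mul_sum, Finset.mul_sum, ← Finset.sum_add_distrib]
  refine Finset.sum_le_sum fun y _ => ?_
  rw [map_add]
  exact SM.sq_le _ _

lemma pr_smul (T : L2 d →L[ℂ] L2 d) (S : Finset (Zd d)) (a : ℂ) (φ : L2 d) (t : ℝ) :
    prS T S (a • φ) t = ‖a‖ₑ ^ 2 * prS T S φ t := by
  unfold prS
  rw [Finset.mul_sum]
  refine Finset.sum_congr rfl fun y _ => ?_
  rw [map_smul]
  show ‖a * (Ut T t φ) y‖ₑ ^ 2 = _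
  rw [enorm_mul, mul_pow]

lemma as_add (T : L2 d →L[ℂ] L2 d) (S : Finset (Zd d)) (a τ : ℝ) (φ ψ : L2 d) :
    As T S a τ (φ + ψ) ≤ 2 * As T S a τ φ + 2 * As T S a τ ψ := by
  unfold As
  calc ENNReal.ofReal (1 / τ) * ∫⁻ t in Set.Ioo a (a + τ), prS T S (φ + ψ) t
      ≤ ENNReal.ofReal (1 / τ) * ∫⁻ t in Set.Ioo a (a + τ), (2 * prS T S φ t + 2 * prS T S ψ t) := by
        gcongr with t
        exact pr_add T S φ ψ t
    _ = ENNReal.ofReal (1 / τ) * (2 * ∫⁻ t in Set.Ioo a (a + τ), prS T S φ t) +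
        ENNReal.ofReal (1 / τ) * (2 * ∫⁻ t in Set.Ioo a (a + τ), prS T S ψ t) := by
        rw [lintegral_add_left ((pr_meas T S φ).const_mul 2),
          lintegral_const_mul 2 (pr_meas T S φ), lintegral_const_mul 2 (pr_meas T S ψ), mul_add]
    _ = _ := by ring

lemma as_smul (T : L2 d →L[ℂ] L2 d) (S : Finset (Zd d)) (a τ : ℝ) (b : ℂ) (φ : L2 d) :
    As T S a τ (b • φ) = ‖b‖ₑ ^ 2 * As T S a τ φ := by
  unfold As
  have h : ∫⁻ t in Set.Ioo a (a + τ), prS T S (b • φ) t =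
      ‖b‖ₑ ^ 2 * ∫⁻ t in Set.Ioo a (a + τ), prS T S φ t := by
    rw [← lintegral_const_mul _ (pr_meas T S φ)]
    exact lintegral_congr fun t => pr_smul T S b φ t
  rw [h]
  ring

end GS

theorem as_le (T : L2 d →L[ℂ] L2 d) (hT : IsSelfAdjoint T) (S : Finset (Zd d)) (a τ : ℝ)
    (hτ : 0 < τ) (ψ : L2 d) : As T S a τ ψ ≤ ‖ψ‖ₑ ^ 2 := by
  unfold As
  calc ENNReal.ofReal (1 / τ) * ∫⁻ t in Set.Ioo a (a + τ), prS T S ψ t
      ≤ ENNReal.ofReal (1 / τ) * ∫⁻ _t in Set.Ioo a (a + τ), ‖ψ‖ₑ ^ 2 := by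
        gcongr with t
        exact GS.pr_le T hT S ψ t
    _ = ENNReal.ofReal (1 / τ) * (‖ψ‖ₑ ^ 2 * ENNReal.ofReal τ) := by
        rw [setLIntegral_const, Real.volume_Ioo, add_sub_cancel_left]
    _ = ENNReal.ofReal (1 / τ) * ENNReal.ofReal τ * ‖ψ‖ₑ ^ 2 := by ring
    _ = ‖ψ‖ₑ ^ 2 := by
        rw [← ENNReal.ofReal_mul (by positivity), one_div_mul_cancel hτ.ne', ENNReal.ofReal_one,
          one_mul]

theorem as_small (T : L2 d →L[ℂ] L2 d) (hT : IsSelfAdjoint T) (S : ℕ → Finset (Zd d))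
    (a τ : ℕ → ℝ) (hτ : ∀ i, 0 < τ i) {ι : Type} (g : ι → L2 d)
    (hg : ∀ j, Tendsto (fun i => As T (S i) (a i) (τ i) (g j)) atTop (𝓝 0)) (ψ : L2 d)
    (hψ : ψ ∈ (Submodule.span ℂ (Set.range g)).topologicalClosure) :
    Tendsto (fun i => As T (S i) (a i) (τ i) ψ) atTop (𝓝 0) := by
  have hspan : ∀ φ ∈ Submodule.span ℂ (Set.range g),
      Tendsto (fun i => As T (S i) (a i) (τ i) φ) atTop (𝓝 0) := by
    intro φ hφ
    induction hφ using Submodule.span_induction with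
    | mem x hx =>
      obtain ⟨j, rfl⟩ := hx
      exact hg j
    | zero =>
      have h0 : ∀ i, As T (S i) (a i) (τ i) (0 : L2 d) = 0 := fun i => by
        have h := as_le T hT (S i) (a i) (τ i) (hτ i) 0
        simpa using h
      simp only [h0]
      exact tendsto_const_nhds
    | add x y _ _ hx hy =>
      have h1 : Tendsto (fun i => 2 * As T (S i) (a i) (τ i) x + 2 * As T (S i) (a i) (τ i) y) atTop
          (𝓝 0) := by
        have h2 := (ENNReal.Tendsto.const_mul hx (Or.inr (by norm_num : (2 : ℝ≥0∞) ≠ ⊤))).add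
          (ENNReal.Tendsto.const_mul hy (Or.inr (by norm_num : (2 : ℝ≥0∞) ≠ ⊤)))
        simpa using h2
      exact tendsto_of_tendsto_of_tendsto_of_le_of_le tendsto_const_nhds h1
        (fun i => zero_le) fun i => GS.as_add T (S i) (a i) (τ i) x y
    | smul b x _ hx =>
      have h1 : Tendsto (fun i => ‖b‖ₑ ^ 2 * As T (S i) (a i) (τ i) x) atTop (𝓝 0) := by
        have h2 := ENNReal.Tendsto.const_mul hx
          (Or.inr (ENNReal.pow_ne_top enorm_ne_top : ‖b‖ₑ ^ 2 ≠ ⊤))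
        simpa using h2
      simp only [GS.as_smul]
      exact h1
  rw [ENNReal.tendsto_nhds_zero]
  intro ε hε
  obtain ⟨δ, hδ0, hδ⟩ : ∃ δ : ℝ, 0 < δ ∧ 2 * ENNReal.ofReal δ ^ 2 ≤ ε / 2 := by
    have h1 : Tendsto (fun δ : ℝ => 2 * ENNReal.ofReal δ ^ 2) (𝓝[>] 0) (𝓝 0) := by
      have h2 : Tendsto (fun δ : ℝ => ENNReal.ofReal δ ^ 2) (𝓝[>] 0) (𝓝 0) := by
        have h3 : Tendsto (fun δ : ℝ => ENNReal.ofReal (δ ^ 2)) (𝓝[>] 0) (𝓝 0) := by
          have h4 : Tendsto (fun δ : ℝ => δ ^ 2) (𝓝[>] 0) (𝓝 0) := by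
            have h5 : Continuous fun δ : ℝ => δ ^ 2 := by fun_prop
            have h6 := h5.tendsto 0
            simp only [ne_eq, OfNat.ofNat_ne_zero, not_false_eq_true, zero_pow] at h6
            exact h6.mono_left nhdsWithin_le_nhds
          have h7 := ENNReal.tendsto_ofReal h4
          simpa using h7
        refine h3.congr' ?_
        filter_upwards [self_mem_nhdsWithin] with δ hδ
        exact ENNReal.ofReal_pow (le_of_lt hδ) 2
      have h8 := ENNReal.Tendsto.const_mul h2 (Or.inr (by norm_num : (2 : ℝ≥0∞) ≠ ⊤))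
      simpa using h8
    rw [ENNReal.tendsto_nhds_zero] at h1
    have h9 := h1 (ε / 2) (ENNReal.half_pos hε.ne')
    obtain ⟨δ, h10, h11⟩ := (h9.and self_mem_nhdsWithin).exists
    exact ⟨δ, h11, h10⟩
  obtain ⟨φ, hφ, hd⟩ := Metric.mem_closure_iff.1 hψ δ hδ0
  have h1 : Tendsto (fun i => 2 * As T (S i) (a i) (τ i) φ) atTop (𝓝 0) := by
    have h2 := ENNReal.Tendsto.const_mul (hspan φ hφ) (Or.inr (by norm_num : (2 : ℝ≥0∞) ≠ ⊤))
    simpa using h2
  rw [ENNReal.tendsto_nhds_zero] at h1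
  filter_upwards [h1 (ε / 2) (ENNReal.half_pos hε.ne')] with i hi
  have h3 : As T (S i) (a i) (τ i) (ψ - φ) ≤ ENNReal.ofReal δ ^ 2 := by
    refine (as_le T hT (S i) (a i) (τ i) (hτ i) _).trans ?_
    rw [← ofReal_norm, ← dist_eq_norm]
    gcongr
  calc As T (S i) (a i) (τ i) ψ = As T (S i) (a i) (τ i) (φ + (ψ - φ)) := by rw [add_sub_cancel]
    _ ≤ 2 * As T (S i) (a i) (τ i) φ + 2 * As T (S i) (a i) (τ i) (ψ - φ) := GS.as_add T (S i) (a i) (τ i) _ _
    _ ≤ ε / 2 + 2 * ENNReal.ofReal δ ^ 2 := by gcongr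
    _ ≤ ε / 2 + ε / 2 := by gcongr
    _ = ε := ENNReal.add_halves ε

theorem as_le_sum (T : L2 d →L[ℂ] L2 d) (S : Finset (Zd d)) (a τ : ℝ) (ψ : L2 d)
    (J : Zd d → ℝ≥0∞) (h : ∀ y, ∫⁻ t : ℝ, ‖⟪dl y, Ut T t ψ⟫_ℂ‖ₑ ^ 2 ≤ J y) :
    As T S a τ ψ ≤ ENNReal.ofReal (1 / τ) * ∑ y ∈ S, J y := by
  unfold As
  refine mul_le_mul_right ?_ _
  unfold prS
  rw [lintegral_finsetSum _ fun y _ => ((SM.cont_apply T ψ y).measurable.enorm).pow_const 2]
  refine Finset.sum_le_sum fun y _ => ?_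
  refine (setLIntegral_le_lintegral _ _).trans ?_
  refine le_trans (le_of_eq ?_) (h y)
  refine lintegral_congr fun t => ?_
  rw [inner_dl]

/-- means over sets of volume `O(τ)` -/
theorem cesaro_s (a : Zd d → ℝ≥0∞) (C : ℝ) (hC : ∀ y, a y ≤ ENNReal.ofReal C)
    (h : ∀ δ : ℝ, 0 < δ → ∃ B : Finset (Zd d), ∀ y : Zd d, y ∉ B → a y ≤ ENNReal.ofReal δ)
    (M : ℝ) (S : ℝ → Finset (Zd d)) (hS : ∀ᶠ τ in atTop, ((S τ).card : ℝ) ≤ M * τ) :
    Tendsto (fun τ : ℝ => ENNReal.ofReal (1 / τ) * ∑ y ∈ S τ, a y) atTop (𝓝 0) := by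
  classical
  rw [ENNReal.tendsto_nhds_zero]
  intro ε hε
  obtain ⟨e, he0, he⟩ : ∃ e : ℝ, 0 < e ∧ ENNReal.ofReal e ≤ ε := by
    rcases eq_or_ne ε ⊤ with h1 | h1
    · exact ⟨1, one_pos, by rw [h1]; exact le_top⟩
    · exact ⟨ε.toReal, ENNReal.toReal_pos hε.ne' h1, by rw [ENNReal.ofReal_toReal h1]⟩
  set K : ℝ := |M| + 1 with hK
  have hK0 : 0 < K := by positivity
  obtain ⟨B, hB⟩ := h (e / (2 * K)) (by positivity)
  set C' : ℝ := max C 0 with hC'
  have hC'0 : 0 ≤ C' := le_max_right _ _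
  have hCC : ∀ y, a y ≤ ENNReal.ofReal C' := fun y =>
    (hC y).trans (ENNReal.ofReal_le_ofReal (le_max_left _ _))
  filter_upwards [hS, eventually_ge_atTop (1 : ℝ),
    eventually_ge_atTop (2 * (B.card * C') / e)] with τ h0 h1 h2
  have hτ : 0 < τ := by linarith
  have h4 : ∑ y ∈ S τ, a y ≤ B.card * ENNReal.ofReal C' +
      (S τ).card * ENNReal.ofReal (e / (2 * K)) := by
    calc ∑ y ∈ S τ, a y ≤ ∑ y ∈ S τ, ((if y ∈ B then ENNReal.ofReal C' else 0) +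
          ENNReal.ofReal (e / (2 * K))) := by
          refine Finset.sum_le_sum fun y _ => ?_
          by_cases hyB : y ∈ B
          · rw [if_pos hyB]; exact (hCC y).trans le_self_add
          · rw [if_neg hyB, zero_add]; exact hB y hyB
      _ ≤ _ := by
          rw [Finset.sum_add_distrib, Finset.sum_const, nsmul_eq_mul, ← Finset.sum_filter,
            Finset.sum_const, nsmul_eq_mul]
          gcongr
          intro y hy
          exact (Finset.mem_filter.1 hy).2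
  have h5 : ((S τ).card : ℝ) ≤ K * τ := by
    refine h0.trans ?_
    have := le_abs_self M
    rw [hK]
    nlinarith
  calc ENNReal.ofReal (1 / τ) * ∑ y ∈ S τ, a y
      ≤ ENNReal.ofReal (1 / τ) * (B.card * ENNReal.ofReal C' +
          (S τ).card * ENNReal.ofReal (e / (2 * K))) := by
        gcongr
    _ = ENNReal.ofReal (1 / τ * (B.card * C' + (S τ).card * (e / (2 * K)))) := by
        rw [ENNReal.ofReal_mul (by positivity), ENNReal.ofReal_add (by positivity) (by positivity),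
          ENNReal.ofReal_mul (by positivity), ENNReal.ofReal_mul (by positivity),
          ENNReal.ofReal_natCast, ENNReal.ofReal_natCast]
    _ ≤ ENNReal.ofReal e := by
        apply ENNReal.ofReal_le_ofReal
        have h8 : (B.card * C' : ℝ) ≤ τ * (e / 2) := by
          rw [div_le_iff₀ he0] at h2
          linarith
        have h9 : ((S τ).card : ℝ) * (e / (2 * K)) ≤ τ * (e / 2) := by
          calc ((S τ).card : ℝ) * (e / (2 * K)) ≤ (K * τ) * (e / (2 * K)) := by gcongr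
            _ = τ * (e / 2) := by field_simp
        rw [one_div, inv_mul_le_iff₀ hτ]
        linarith
    _ ≤ ε := he

theorem jn_mean_s (c : ℝ) (hc : 0 ≤ c) (μ : Measure ℝ) [IsProbabilityMeasure μ]
    (hμ : μ (Set.Icc (-c) c)ᶜ = 0) (hnd : ∀ x : ℝ, μ {x} ≠ 1) (Λ : ℕ) (x : Zd d) (M : ℝ)
    (S : ℝ → Finset (Zd d)) (hS : ∀ᶠ τ in atTop, ((S τ).card : ℝ) ≤ M * τ) :
    Tendsto (fun τ : ℝ => ∫⁻ ω, ENNReal.ofReal (1 / τ) *
      (∑ y ∈ S τ, ENNReal.ofReal (2 / Real.pi) * Jn c ω Λ x y) ∂(iid d μ)) atTop (𝓝 0) := by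
  classical
  have hpi := Real.pi_pos
  set a : Zd d → ℝ≥0∞ := fun y => ∫⁻ ω, ENNReal.ofReal (2 / Real.pi) * Jn c ω Λ x y ∂(iid d μ)
    with ha
  have ha' : ∀ y, a y = ENNReal.ofReal (2 / Real.pi) * ∫⁻ ω, Jn c ω Λ x y ∂(iid d μ) := by
    intro y
    simp only [ha]
    rw [lintegral_const_mul _ (jn_meas c hc Λ x y)]
  have hC : ∀ y, a y ≤ ENNReal.ofReal (2 * Λ) := by
    intro y
    have h1 : ∫⁻ ω, Jn c ω Λ x y ∂(iid d μ) ≤ ENNReal.ofReal (Real.pi * Λ) := by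
      calc ∫⁻ ω, Jn c ω Λ x y ∂(iid d μ)
          ≤ ∫⁻ _ω, ENNReal.ofReal (Real.pi * Λ) ∂(iid d μ) :=
            lintegral_mono fun ω => jn_le c hc ω Λ x y
        _ = ENNReal.ofReal (Real.pi * Λ) := by
            rw [lintegral_const, measure_univ, mul_one]
    rw [ha' y]
    calc ENNReal.ofReal (2 / Real.pi) * ∫⁻ ω, Jn c ω Λ x y ∂(iid d μ)
        ≤ ENNReal.ofReal (2 / Real.pi) * ENNReal.ofReal (Real.pi * Λ) := by gcongr
      _ = ENNReal.ofReal (2 * Λ) := by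
          rw [← ENNReal.ofReal_mul (by positivity)]
          congr 1
          field_simp
  have hδ : ∀ δ : ℝ, 0 < δ → ∃ B : Finset (Zd d), ∀ y : Zd d, y ∉ B →
      a y ≤ ENNReal.ofReal δ := by
    intro δ hδ
    obtain ⟨B, hB⟩ := jn_zero (d := d) c hc μ hμ hnd Λ (δ * Real.pi / 2) (by positivity)
    refine ⟨B.image fun z => z + x, fun y hy => ?_⟩
    have hy' : y - x ∉ B := by
      intro h
      exact hy (Finset.mem_image.2 ⟨y - x, h, sub_add_cancel y x⟩)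
    rw [ha' y, PB.mean_shift c hc μ Λ x y]
    calc ENNReal.ofReal (2 / Real.pi) * ∫⁻ ω, Jn c ω Λ 0 (y - x) ∂(iid d μ)
        ≤ ENNReal.ofReal (2 / Real.pi) * ENNReal.ofReal (δ * Real.pi / 2) := by
          gcongr
          exact hB _ hy'
      _ = ENNReal.ofReal δ := by
          rw [← ENNReal.ofReal_mul (by positivity)]
          congr 1
          field_simp
  have key : ∀ τ : ℝ, (∫⁻ ω, ENNReal.ofReal (1 / τ) *
      (∑ y ∈ S τ, ENNReal.ofReal (2 / Real.pi) * Jn c ω Λ x y) ∂(iid d μ)) =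
      ENNReal.ofReal (1 / τ) * ∑ y ∈ S τ, a y := by
    intro τ
    have hm : ∀ y : Zd d, Measurable fun ω : Zd d → ℝ =>
        ENNReal.ofReal (2 / Real.pi) * Jn c ω Λ x y := fun y =>
      (jn_meas c hc Λ x y).const_mul _
    rw [lintegral_const_mul _ (Finset.measurable_sum _ fun y _ => hm y),
      lintegral_finsetSum _ fun y _ => hm y]
  simp_rw [key]
  exact cesaro_s a (2 * Λ) hC hδ M S hS

end Pool.Agent.TH369.SJ
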