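import Pool.Agent.TH369.SJ.GS1
import Pool.Agent.TH369.SJ.SO
import Pool.Agent.TH369.SJ.GV
import Pool.Agent.TH369.SJ.DN
import Pool.Agent.TH369.SJ.SE
import Pool.Agent.TH369.SJ.DC

/-!
# Absolutely continuous states leave every set of volume `O(τ)` (project SJ, general sets)
-/

set_option autoImplicit false
open MeasureTheory Filter Topology
open scoped InnerProductSpace ENNReal
namespace Pool.Agent.TH369.SJ
open Pool.Agent.TH369.AN Pool.Agent.TH369.MU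
variable {d : ℕ}

theorem leave_s (c : ℝ) (hc : 0 ≤ c) (μ : Measure ℝ) [IsProbabilityMeasure μ]
    (hμ : μ (Set.Icc (-c) c)ᶜ = 0) (hnd : ∀ x : ℝ, μ {x} ≠ 1) (M : ℝ)
    (S : ℝ → Finset (Zd d)) (hS : ∀ᶠ τ in atTop, ((S τ).card : ℝ) ≤ M * τ)
    (a : ℝ → (Zd d → ℝ) → ℝ)
    (ψ : (Zd d → ℝ) → L2 d) (h1 : ∀ ω, ‖ψ ω‖ ≤ 1)
    (h2 : ∀ᵐ ω ∂(iid d μ), ACv (TT (∅ : Finset (Zd d)) c ω) (ψ ω)) :
    Tendsto (fun τ : ℝ => ∫⁻ ω, As (TT (∅ : Finset (Zd d)) c ω) (S τ) (a τ ω) τ (ψ ω) ∂(iid d μ))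
      atTop (𝓝 0) := by
  classical
  have hT : ∀ ω, IsSelfAdjoint (TT (∅ : Finset (Zd d)) c ω) := fun ω => TT_sa ∅ c ω
  -- the bounds
  obtain ⟨e, he⟩ : ∃ e : ℕ → Zd d × ℕ, Function.Surjective e := exists_surjective_nat _
  set B : ℝ → ℕ → (Zd d → ℝ) → ℝ≥0∞ := fun τ n ω => ENNReal.ofReal (1 / τ) *
    (∑ y ∈ S τ, ENNReal.ofReal (2 / Real.pi) * Jn c ω (e n).2 (e n).1 y) with hB
  have hBm : ∀ τ n, Measurable (B τ n) := fun τ n =>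
    (Finset.measurable_sum _ fun y _ => (jn_meas c hc (e n).2 (e n).1 y).const_mul _).const_mul _
  have hB0 : ∀ n, Tendsto (fun τ => ∫⁻ ω, B τ n ω ∂(iid d μ)) atTop (𝓝 0) := fun n =>
    jn_mean_s c hc μ hμ hnd (e n).2 (e n).1 M S hS
  -- pointwise
  have hpt : ∀ ω, ∀ τ : ℕ → ℝ, (∀ i, 0 < τ i) →
      (∀ n, Tendsto (fun i => B (τ i) n ω) atTop (𝓝 0)) →
      ACv (TT (∅ : Finset (Zd d)) c ω) (ψ ω) →
      Tendsto (fun i => As (TT (∅ : Finset (Zd d)) c ω) (S (τ i)) (a (τ i) ω) (τ i) (ψ ω)) atTop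
        (𝓝 0) := by
    intro ω τ hτ hb hac
    choose g g1 hg1 hg2 hg3 hg4 hg5 using fun x => gvec c hc ω x
    have hcl := dense_ac (TT (∅ : Finset (Zd d)) c ω) (hT ω) g g1 hg3 hg4 hg5 (ψ ω) hac
    refine as_small _ (hT ω) (fun i => S (τ i)) (fun i => a (τ i) ω) τ hτ (fun p : Zd d × ℕ => g p.1 p.2) ?_ _ hcl
    intro p
    obtain ⟨n, hn⟩ := he p
    have h3 : ∀ i, As (TT (∅ : Finset (Zd d)) c ω) (S (τ i)) (a (τ i) ω) (τ i) (g p.1 p.2) ≤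
        B (τ i) n ω := by
      intro i
      have h4 := as_le_sum (TT (∅ : Finset (Zd d)) c ω) (S (τ i)) (a (τ i) ω) (τ i) (g p.1 p.2)
        (fun y => ENNReal.ofReal (2 / Real.pi) * Jn c ω p.2 p.1 y) (fun y => by
          refine (soj _ (hT ω) (dl y) (g p.1 p.2) (hg1 p.1 p.2)).trans ?_
          gcongr
          exact hg2 p.1 p.2 y)
      refine h4.trans (le_of_eq ?_)
      simp only [hB, hn]
    exact tendsto_of_tendsto_of_tendsto_of_le_of_le tendsto_const_nhds (hb n)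
      (fun i => zero_le) h3
  -- sequences
  refine tendsto_of_seq_tendsto fun τ hτ => ?_
  refine tendsto_of_subseq_tendsto fun ns hns => ?_
  have hτ' : Tendsto (fun i => τ (ns i)) atTop atTop := hτ.comp hns
  obtain ⟨N, hN⟩ : ∃ N, ∀ i, N ≤ i → 0 < τ (ns i) :=
    (Filter.eventually_atTop.1 (hτ'.eventually_gt_atTop 0))
  obtain ⟨s, hs, hs2⟩ := subseq (iid d μ) (fun n i => B (τ (ns (i + N))) n)
    (fun n i => hBm _ n) (fun n => (hB0 n).comp (hτ'.comp (tendsto_add_atTop_nat N)))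
  refine ⟨fun i => s i + N, ?_⟩
  refine dom_zero (iid d μ) _ (fun i ω => ?_) ?_
  · have hpos : 0 < τ (ns (s i + N)) := hN _ (by omega)
    refine (as_le _ (hT ω) _ _ _ hpos _).trans ?_
    have h5 : ‖ψ ω‖ₑ ≤ 1 := by
      rw [← ofReal_norm, ← ENNReal.ofReal_one]
      exact ENNReal.ofReal_le_ofReal (h1 ω)
    calc ‖ψ ω‖ₑ ^ 2 ≤ 1 ^ 2 := by gcongr
      _ = 1 := one_pow 2
  · filter_upwards [h2, hs2] with ω hω1 hω2
    exact hpt ω (fun i => τ (ns (s i + N))) (fun i => hN _ (by omega)) hω2 hω1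

/-- the supremum over all the time windows of length `τ` of the mean probability to be in `S` -/
noncomputable def Su (T : L2 d →L[ℂ] L2 d) (S : Finset (Zd d)) (τ : ℝ) (ψ : L2 d) : ℝ≥0∞ :=
  ⨆ a : ℝ, As T S a τ ψ

/-- **Absolutely continuous states leave every set of volume `O(τ)`.** -/
theorem leave_sup (c : ℝ) (hc : 0 ≤ c) (μ : Measure ℝ) [IsProbabilityMeasure μ]
    (hμ : μ (Set.Icc (-c) c)ᶜ = 0) (hnd : ∀ x : ℝ, μ {x} ≠ 1) (M : ℝ)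
    (S : ℝ → Finset (Zd d)) (hS : ∀ᶠ τ in atTop, ((S τ).card : ℝ) ≤ M * τ)
    (ψ : (Zd d → ℝ) → L2 d) (h1 : ∀ ω, ‖ψ ω‖ ≤ 1)
    (h2 : ∀ᵐ ω ∂(iid d μ), ACv (TT (∅ : Finset (Zd d)) c ω) (ψ ω)) :
    Tendsto (fun τ : ℝ => ∫⁻ ω, Su (TT (∅ : Finset (Zd d)) c ω) (S τ) τ (ψ ω) ∂(iid d μ))
      atTop (𝓝 0) := by
  have hch : ∀ (τ : ℝ) (ω : Zd d → ℝ), ∃ a : ℝ, 0 < τ →
      Su (TT (∅ : Finset (Zd d)) c ω) (S τ) τ (ψ ω) ≤
        2 * As (TT (∅ : Finset (Zd d)) c ω) (S τ) a τ (ψ ω) := by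
    intro τ ω
    by_cases hτ : 0 < τ
    · by_cases h0 : Su (TT (∅ : Finset (Zd d)) c ω) (S τ) τ (ψ ω) = 0
      · exact ⟨0, fun _ => by rw [h0]; exact zero_le⟩
      · have h3 : Su (TT (∅ : Finset (Zd d)) c ω) (S τ) τ (ψ ω) ≤ ‖ψ ω‖ₑ ^ 2 :=
          iSup_le fun a => as_le _ (TT_sa ∅ c ω) _ a τ hτ _
        have h4 : Su (TT (∅ : Finset (Zd d)) c ω) (S τ) τ (ψ ω) ≠ ⊤ :=
          ne_top_of_le_ne_top (ENNReal.pow_ne_top enorm_ne_top) h3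
        have h5 := ENNReal.half_lt_self h0 h4
        obtain ⟨a, ha⟩ := lt_iSup_iff.1 (show Su (TT (∅ : Finset (Zd d)) c ω) (S τ) τ (ψ ω) / 2 <
          ⨆ a : ℝ, As (TT (∅ : Finset (Zd d)) c ω) (S τ) a τ (ψ ω) from h5)
        refine ⟨a, fun _ => ?_⟩
        have h6 := (ENNReal.div_le_iff_le_mul (Or.inl two_ne_zero)
          (Or.inl ENNReal.ofNat_ne_top)).1 ha.le
        rwa [mul_comm] at h6
    · exact ⟨0, fun h => absurd h hτ⟩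
  choose a ha using hch
  have h3 := leave_s c hc μ hμ hnd M S hS a ψ h1 h2
  have h4 : Tendsto (fun τ : ℝ => 2 * ∫⁻ ω, As (TT (∅ : Finset (Zd d)) c ω) (S τ) (a τ ω) τ (ψ ω)
      ∂(iid d μ)) atTop (𝓝 0) := by
    have h5 := ENNReal.Tendsto.const_mul h3 (Or.inr (by norm_num : (2 : ℝ≥0∞) ≠ ⊤))
    simpa using h5
  refine tendsto_of_tendsto_of_tendsto_of_le_of_le' tendsto_const_nhds h4
    (Eventually.of_forall fun τ => zero_le) ?_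
  filter_upwards [eventually_gt_atTop (0 : ℝ)] with τ hτ
  rw [← lintegral_const_mul' _ _ (by norm_num : (2 : ℝ≥0∞) ≠ ⊤)]
  exact lintegral_mono fun ω => ha τ ω hτ

end Pool.Agent.TH369.SJ
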