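import Pool.Agent.TH369.SJ.GS2
import Pool.Agent.TH369.SJ.EX
import Pool.Agent.TH369.AN.MEAS

/-!
# Moments (project SJ): the means over the times `0 < t < τ` of the moments of order `p` of the
position grow faster than `τ ^ (p / d)`
-/

set_option autoImplicit false
open MeasureTheory Filter Topology
open scoped InnerProductSpace ENNReal
namespace Pool.Agent.TH369.SJ
open Pool.Agent.TH369.AN Pool.Agent.TH369.MU
variable {d : ℕ}

/-- the mean over the times `a < t < a + τ` of the moment of order `p` of the position -/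
noncomputable def Mo (T : L2 d →L[ℂ] L2 d) (p a τ : ℝ) (ψ : L2 d) : ℝ≥0∞ :=
  ENNReal.ofReal (1 / τ) * ∫⁻ t in Set.Ioo a (a + τ),
    ∑' y : Zd d, ENNReal.ofReal (‖y‖ ^ p) * ‖(Ut T t ψ) y‖ₑ ^ 2

namespace GS

lemma meas_pow' (c : ℝ) (ψ : (Zd d → ℝ) → L2 d)
    (hψ : ∀ x, Measurable fun ω => (ψ ω : Zd d → ℂ) x) (k : ℕ) :
    ∀ x, Measurable fun ω : Zd d → ℝ => (((TT (∅ : Finset (Zd d)) c ω) ^ k) (ψ ω) : Zd d → ℂ) x := by
  induction k with
  | zero =>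
    intro x
    simp only [pow_zero]
    exact hψ x
  | succ k ih =>
    intro x
    have h := MEAS.meas_act ∅ c (fun ω => ((TT (∅ : Finset (Zd d)) c ω) ^ k) (ψ ω)) ih x
    have e : (fun ω : Zd d → ℝ => (((TT (∅ : Finset (Zd d)) c ω) ^ (k + 1)) (ψ ω) : Zd d → ℂ) x) =
        fun ω => (TT (∅ : Finset (Zd d)) c ω
          (((TT (∅ : Finset (Zd d)) c ω) ^ k) (ψ ω)) : Zd d → ℂ) x := by
      funext ω
      rw [pow_succ']
      rfl
    rw [e]
    exact h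

lemma meas_ut (c : ℝ) (ψ : (Zd d → ℝ) → L2 d)
    (hψ : ∀ x, Measurable fun ω => (ψ ω : Zd d → ℂ) x) (y : Zd d) :
    Measurable fun p : (Zd d → ℝ) × ℝ =>
      (Ut (TT (∅ : Finset (Zd d)) c p.1) p.2 (ψ p.1) : Zd d → ℂ) y := by
  refine measurable_of_tendsto_metrizable (f := fun (N : ℕ) (p : (Zd d → ℝ) × ℝ) =>
    ∑ n ∈ Finset.range N, (((n.factorial : ℂ)⁻¹ * (-(Complex.I * (p.2 : ℂ))) ^ n) *
      (((TT (∅ : Finset (Zd d)) c p.1) ^ n) (ψ p.1) : Zd d → ℂ) y)) (fun N => ?_) ?_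
  · refine Finset.measurable_sum _ fun n _ => ?_
    refine Measurable.mul ?_ ((meas_pow' c ψ hψ n y).comp measurable_fst)
    have h1 : Continuous fun t : ℝ => ((n.factorial : ℂ)⁻¹ * (-(Complex.I * (t : ℂ))) ^ n) := by
      fun_prop
    exact h1.measurable.comp measurable_snd
  · rw [tendsto_pi_nhds]
    intro p
    have h := (EX.ut_sum (TT (∅ : Finset (Zd d)) c p.1) (dl y) (ψ p.1) p.2).tendsto_sum_nat
    simpa only [inner_dl] using h

lemma meas_as (c : ℝ) (ψ : (Zd d → ℝ) → L2 d)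
    (hψ : ∀ x, Measurable fun ω => (ψ ω : Zd d → ℂ) x) (S : Finset (Zd d)) (a τ : ℝ) :
    Measurable fun ω : Zd d → ℝ => As (TT (∅ : Finset (Zd d)) c ω) S a τ (ψ ω) := by
  unfold As
  refine Measurable.const_mul ?_ _
  have h1 : Measurable fun p : (Zd d → ℝ) × ℝ =>
      prS (TT (∅ : Finset (Zd d)) c p.1) S (ψ p.1) p.2 := by
    unfold prS
    exact Finset.measurable_sum _ fun y _ => (meas_ut c ψ hψ y).enorm.pow_const 2
  exact h1.lintegral_prod_right'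

/-- the window integrals are lower semicontinuous -/
lemma win_le (f : ℝ → ℝ≥0∞) (hf : Measurable f) (τ a : ℝ) :
    ∫⁻ t in Set.Ioo a (a + τ), f t ≤ ⨆ q : ℚ, ∫⁻ t in Set.Ioo (q : ℝ) (q + τ), f t := by
  have hex : ∀ n : ℕ, ∃ q : ℚ, a < q ∧ (q : ℝ) < a + 1 / ((n : ℝ) + 1) := fun n =>
    exists_rat_btwn (by
      have : (0 : ℝ) < 1 / ((n : ℝ) + 1) := by positivity
      linarith)
  choose q hq1 hq2 using hex
  have hlim : Tendsto (fun n => (q n : ℝ)) atTop (𝓝 a) := by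
    have h1 : Tendsto (fun n : ℕ => a + 1 / ((n : ℝ) + 1)) atTop (𝓝 (a + 0)) :=
      tendsto_const_nhds.add tendsto_one_div_add_atTop_nhds_zero_nat
    rw [add_zero] at h1
    exact tendsto_of_tendsto_of_tendsto_of_le_of_le tendsto_const_nhds h1
      (fun n => (hq1 n).le) (fun n => (hq2 n).le)
  have h1 : ∀ b : ℝ, ∫⁻ t in Set.Ioo b (b + τ), f t =
      ∫⁻ t, (Set.Ioo b (b + τ)).indicator f t := fun b =>
    (lintegral_indicator measurableSet_Ioo f).symm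
  have h2 : ∀ t, (Set.Ioo a (a + τ)).indicator f t ≤
      liminf (fun n => (Set.Ioo (q n : ℝ) (q n + τ)).indicator f t) atTop := by
    intro t
    by_cases ht : t ∈ Set.Ioo a (a + τ)
    · rw [Set.indicator_of_mem ht]
      have h3 : ∀ᶠ n in atTop, (Set.Ioo (q n : ℝ) (q n + τ)).indicator f t = f t := by
        filter_upwards [hlim.eventually_lt_const ht.1] with n hn
        have h4 : t ∈ Set.Ioo (q n : ℝ) (q n + τ) :=
          ⟨hn, lt_of_lt_of_le ht.2 (by linarith [hq1 n])⟩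
        exact Set.indicator_of_mem h4 _
      rw [liminf_congr h3, liminf_const]
    · rw [Set.indicator_of_notMem ht]
      exact zero_le
  calc ∫⁻ t in Set.Ioo a (a + τ), f t
      = ∫⁻ t, (Set.Ioo a (a + τ)).indicator f t := h1 a
    _ ≤ ∫⁻ t, liminf (fun n => (Set.Ioo (q n : ℝ) (q n + τ)).indicator f t) atTop :=
        lintegral_mono h2
    _ ≤ liminf (fun n => ∫⁻ t, (Set.Ioo (q n : ℝ) (q n + τ)).indicator f t) atTop :=
        lintegral_liminf_le fun n => hf.indicator measurableSet_Ioo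
    _ ≤ _ := by
        refine liminf_le_of_le (by isBoundedDefault) fun b hb => ?_
        obtain ⟨n, hn⟩ := hb.exists
        refine hn.trans ?_
        rw [← h1]
        exact le_iSup (fun q : ℚ => ∫⁻ t in Set.Ioo (q : ℝ) (q + τ), f t) (q n)

/-- rational windows are enough -/
lemma su_eq (T : L2 d →L[ℂ] L2 d) (S : Finset (Zd d)) (τ : ℝ) (ψ : L2 d) :
    Su T S τ ψ = ⨆ q : ℚ, As T S (q : ℝ) τ ψ := by
  refine le_antisymm (iSup_le fun a => ?_)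
    (iSup_le fun q => le_iSup (fun a : ℝ => As T S a τ ψ) (q : ℝ))
  unfold As
  rw [← ENNReal.mul_iSup]
  gcongr
  exact win_le _ (pr_meas T S ψ) τ a

lemma meas_su (c : ℝ) (ψ : (Zd d → ℝ) → L2 d)
    (hψ : ∀ x, Measurable fun ω => (ψ ω : Zd d → ℂ) x) (S : Finset (Zd d)) (τ : ℝ) :
    Measurable fun ω : Zd d → ℝ => Su (TT (∅ : Finset (Zd d)) c ω) S τ (ψ ω) := by
  simp only [su_eq]
  exact Measurable.iSup fun q => meas_as c ψ hψ S q τ

lemma aemeas_su (c : ℝ) (P : Measure (Zd d → ℝ)) (ψ : (Zd d → ℝ) → L2 d)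
    (hψ : AEStronglyMeasurable ψ P) (S : Finset (Zd d)) (τ : ℝ) :
    AEMeasurable (fun ω : Zd d → ℝ => Su (TT (∅ : Finset (Zd d)) c ω) S τ (ψ ω)) P := by
  obtain ⟨ψ', h1, h2⟩ := hψ
  have h3 : ∀ x, Measurable fun ω => (ψ' ω : Zd d → ℂ) x := by
    intro x
    have h4 : (fun ω => (ψ' ω : Zd d → ℂ) x) = fun ω => ⟪dl x, ψ' ω⟫_ℂ := by
      funext ω
      rw [inner_dl]
    rw [h4]
    exact ((innerSL ℂ (dl x)).continuous.comp_stronglyMeasurable h1).measurable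
  refine ⟨fun ω => Su (TT (∅ : Finset (Zd d)) c ω) S τ (ψ' ω), meas_su c ψ' h3 S τ, ?_⟩
  filter_upwards [h2] with ω hω
  rw [hω]

lemma aemeas_as (c : ℝ) (P : Measure (Zd d → ℝ)) (ψ : (Zd d → ℝ) → L2 d)
    (hψ : AEStronglyMeasurable ψ P) (S : Finset (Zd d)) (a τ : ℝ) :
    AEMeasurable (fun ω : Zd d → ℝ => As (TT (∅ : Finset (Zd d)) c ω) S a τ (ψ ω)) P := by
  obtain ⟨ψ', h1, h2⟩ := hψ
  have h3 : ∀ x, Measurable fun ω => (ψ' ω : Zd d → ℂ) x := by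
    intro x
    have h4 : (fun ω => (ψ' ω : Zd d → ℂ) x) = fun ω => ⟪dl x, ψ' ω⟫_ℂ := by
      funext ω
      rw [inner_dl]
    rw [h4]
    exact ((innerSL ℂ (dl x)).continuous.comp_stronglyMeasurable h1).measurable
  refine ⟨fun ω => As (TT (∅ : Finset (Zd d)) c ω) S a τ (ψ' ω), meas_as c ψ' h3 S a τ, ?_⟩
  filter_upwards [h2] with ω hω
  rw [hω]

/-- outside of the box of radius `R` the moment is large -/
lemma mo_lower (T : L2 d →L[ℂ] L2 d) (hT : IsSelfAdjoint T) (p a τ R : ℝ) (hp : 0 < p)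
    (hτ : 0 < τ) (hR : 0 ≤ R) (ψ : L2 d) :
    ENNReal.ofReal (R ^ p) * ‖ψ‖ₑ ^ 2 ≤
      Mo T p a τ ψ + ENNReal.ofReal (R ^ p) * As T (CE.box d R) a τ ψ := by
  classical
  have h1 : ∀ t : ℝ, ENNReal.ofReal (R ^ p) * ‖ψ‖ₑ ^ 2 ≤
      (∑' y : Zd d, ENNReal.ofReal (‖y‖ ^ p) * ‖(Ut T t ψ) y‖ₑ ^ 2) +
        ENNReal.ofReal (R ^ p) * prS T (CE.box d R) ψ t := by
    intro t
    have h2 : ‖Ut T t ψ‖ₑ = ‖ψ‖ₑ := by
      rw [← ofReal_norm, ← ofReal_norm, ut_norm T hT]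
    have h3 : prS T (CE.box d R) ψ t =
        ∑' y : Zd d, if y ∈ CE.box d R then ‖(Ut T t ψ) y‖ₑ ^ 2 else 0 := by
      unfold prS
      rw [tsum_eq_sum (s := CE.box d R) (fun y hy => if_neg hy)]
      exact Finset.sum_congr rfl fun y hy => (if_pos hy).symm
    rw [← h2, ← SM.tsum_enorm, h3, ← ENNReal.tsum_mul_left, ← ENNReal.tsum_mul_left,
      ← ENNReal.tsum_add]
    refine ENNReal.tsum_le_tsum fun y => ?_
    by_cases hy : y ∈ CE.box d R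
    · rw [if_pos hy]
      exact le_add_self
    · rw [if_neg hy, mul_zero, add_zero]
      have h4 : R ≤ ‖y‖ := by
        by_contra hcon
        exact hy (CE.mem_box hR (not_le.1 hcon).le)
      gcongr
  have h5 : ENNReal.ofReal (1 / τ) * ENNReal.ofReal τ = 1 := by
    rw [← ENNReal.ofReal_mul (by positivity), one_div_mul_cancel hτ.ne', ENNReal.ofReal_one]
  calc ENNReal.ofReal (R ^ p) * ‖ψ‖ₑ ^ 2
      = ENNReal.ofReal (1 / τ) * ∫⁻ _t in Set.Ioo a (a + τ), ENNReal.ofReal (R ^ p) * ‖ψ‖ₑ ^ 2 := by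
        rw [setLIntegral_const, Real.volume_Ioo, add_sub_cancel_left]
        calc ENNReal.ofReal (R ^ p) * ‖ψ‖ₑ ^ 2
            = (ENNReal.ofReal (1 / τ) * ENNReal.ofReal τ) *
              (ENNReal.ofReal (R ^ p) * ‖ψ‖ₑ ^ 2) := by rw [h5, one_mul]
          _ = _ := by ring
    _ ≤ ENNReal.ofReal (1 / τ) * ∫⁻ t in Set.Ioo a (a + τ),
        ((∑' y : Zd d, ENNReal.ofReal (‖y‖ ^ p) * ‖(Ut T t ψ) y‖ₑ ^ 2) +
        ENNReal.ofReal (R ^ p) * prS T (CE.box d R) ψ t) := by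
        gcongr with t
        exact h1 t
    _ = Mo T p a τ ψ + ENNReal.ofReal (R ^ p) * As T (CE.box d R) a τ ψ := by
        rw [lintegral_add_right _ ((pr_meas T _ ψ).const_mul _),
          lintegral_const_mul _ (pr_meas T _ ψ)]
        unfold Mo As
        ring

end GS

/-- the infimum over all the time windows of length `τ` of the mean moment of order `p` -/
noncomputable def Mi (T : L2 d →L[ℂ] L2 d) (p τ : ℝ) (ψ : L2 d) : ℝ≥0∞ := ⨅ a : ℝ, Mo T p a τ ψ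

lemma GS.mi_lower (T : L2 d →L[ℂ] L2 d) (hT : IsSelfAdjoint T) (p τ R : ℝ) (hp : 0 < p)
    (hτ : 0 < τ) (hR : 0 ≤ R) (ψ : L2 d) :
    ENNReal.ofReal (R ^ p) * ‖ψ‖ₑ ^ 2 ≤
      Mi T p τ ψ + ENNReal.ofReal (R ^ p) * Su T (CE.box d R) τ ψ := by
  unfold Mi
  rw [ENNReal.iInf_add]
  refine le_iInf fun a => (GS.mo_lower T hT p a τ R hp hτ hR ψ).trans ?_
  gcongr
  exact le_iSup (fun a : ℝ => As T (CE.box d R) a τ ψ) a

/-- **Moments.** -/
theorem moments (hd : 0 < d) (c : ℝ) (hc : 0 ≤ c) (μ : Measure ℝ) [IsProbabilityMeasure μ]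
    (hμ : μ (Set.Icc (-c) c)ᶜ = 0) (hnd : ∀ x : ℝ, μ {x} ≠ 1) (p : ℝ) (hp : 0 < p)
    (ψ : (Zd d → ℝ) → L2 d) (hψ : AEStronglyMeasurable ψ (iid d μ)) (h1 : ∀ ω, ‖ψ ω‖ ≤ 1)
    (h2 : ∀ᵐ ω ∂(iid d μ), ACv (TT (∅ : Finset (Zd d)) c ω) (ψ ω))
    (h3 : ¬ ∀ᵐ ω ∂(iid d μ), ψ ω = 0) :
    Tendsto (fun τ : ℝ => (∫⁻ ω, Mi (TT (∅ : Finset (Zd d)) c ω) p τ (ψ ω) ∂(iid d μ)) /
      ENNReal.ofReal (τ ^ (p / d))) atTop (𝓝 ⊤) := by
  have hT : ∀ ω, IsSelfAdjoint (TT (∅ : Finset (Zd d)) c ω) := fun ω => TT_sa ∅ c ω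
  set q : ℝ≥0∞ := ∫⁻ ω, ‖ψ ω‖ₑ ^ 2 ∂(iid d μ) with hq
  have hnm : AEMeasurable (fun ω => ‖ψ ω‖ₑ ^ 2) (iid d μ) := hψ.enorm.pow_const 2
  have hq0 : q ≠ 0 := by
    intro h0
    rw [hq, lintegral_eq_zero_iff' hnm] at h0
    apply h3
    filter_upwards [h0] with ω hω
    simpa using hω
  have hq1 : q ≤ 1 := by
    calc q ≤ ∫⁻ _ω, 1 ∂(iid d μ) := by
          refine lintegral_mono fun ω => ?_
          have h5 : ‖ψ ω‖ₑ ≤ 1 := by
            rw [← ofReal_norm, ← ENNReal.ofReal_one]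
            exact ENNReal.ofReal_le_ofReal (h1 ω)
          calc ‖ψ ω‖ₑ ^ 2 ≤ 1 ^ 2 := by gcongr
            _ = 1 := one_pow 2
      _ = 1 := by simp
  have hqt : q ≠ ⊤ := ne_top_of_le_ne_top ENNReal.one_ne_top hq1
  rw [ENNReal.tendsto_nhds_top_iff_nnreal]
  intro N
  -- the radius
  set r : ℝ := q.toReal with hr
  have hr0 : 0 < r := ENNReal.toReal_pos hq0 hqt
  obtain ⟨M, hM0, hM⟩ : ∃ M : ℝ, 0 < M ∧ (N : ℝ) + 1 ≤ M ^ p * (r / 2) := by
    refine ⟨(((N : ℝ) + 1) * 2 / r) ^ (1 / p), by positivity, ?_⟩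
    rw [← Real.rpow_mul (by positivity), one_div_mul_cancel hp.ne', Real.rpow_one]
    apply le_of_eq
    field_simp
  have hd' : (d : ℝ) ≠ 0 := by exact_mod_cast hd.ne'
  have hS : ∀ᶠ τ in atTop, ((CE.box d (M * τ ^ ((1 : ℝ) / d))).card : ℝ) ≤
      (2 * M + 1) ^ d * τ := by
    filter_upwards [eventually_ge_atTop (1 : ℝ)] with τ hτ1
    have hτ : 0 < τ := by linarith
    have hpow : 1 ≤ τ ^ ((1 : ℝ) / d) := Real.one_le_rpow hτ1 (by positivity)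
    refine (CE.card_box (by positivity)).trans ?_
    have h6 : 2 * (M * τ ^ ((1 : ℝ) / d)) + 1 ≤ (2 * M + 1) * τ ^ ((1 : ℝ) / d) := by
      nlinarith
    refine (pow_le_pow_left₀ (by positivity) h6 d).trans ?_
    rw [mul_pow]
    have h7 : (τ ^ ((1 : ℝ) / d)) ^ d = τ := by
      rw [← Real.rpow_natCast, ← Real.rpow_mul hτ.le, one_div_mul_cancel hd', Real.rpow_one]
    rw [h7]
  have hlv := leave_sup c hc μ hμ hnd ((2 * M + 1) ^ d)
    (fun τ => CE.box d (M * τ ^ ((1 : ℝ) / d))) hS ψ h1 h2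
  rw [ENNReal.tendsto_nhds_zero] at hlv
  have hq2 : 0 < q / 2 := ENNReal.half_pos hq0
  filter_upwards [hlv (q / 2) hq2, eventually_ge_atTop (1 : ℝ)] with τ h4 hτ1
  have hτ : 0 < τ := by linarith
  set R : ℝ := M * τ ^ ((1 : ℝ) / d) with hR
  have hR0 : 0 < R := by positivity
  have hRp : R ^ p = M ^ p * τ ^ (p / d) := by
    rw [hR, Real.mul_rpow hM0.le (by positivity), ← Real.rpow_mul hτ.le]
    congr 2
    field_simp
  -- integrate
  have h5 : ENNReal.ofReal (R ^ p) * q ≤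
      (∫⁻ ω, Mi (TT (∅ : Finset (Zd d)) c ω) p τ (ψ ω) ∂(iid d μ)) +
        ENNReal.ofReal (R ^ p) * (q / 2) := by
    calc ENNReal.ofReal (R ^ p) * q
        = ∫⁻ ω, ENNReal.ofReal (R ^ p) * ‖ψ ω‖ₑ ^ 2 ∂(iid d μ) := by
          rw [lintegral_const_mul'' _ hnm]
      _ ≤ ∫⁻ ω, (Mi (TT (∅ : Finset (Zd d)) c ω) p τ (ψ ω) + ENNReal.ofReal (R ^ p) *
          Su (TT (∅ : Finset (Zd d)) c ω) (CE.box d R) τ (ψ ω)) ∂(iid d μ) :=
          lintegral_mono fun ω => GS.mi_lower _ (hT ω) p τ R hp hτ hR0.le (ψ ω)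
      _ = (∫⁻ ω, Mi (TT (∅ : Finset (Zd d)) c ω) p τ (ψ ω) ∂(iid d μ)) +
          ENNReal.ofReal (R ^ p) * ∫⁻ ω,
            Su (TT (∅ : Finset (Zd d)) c ω) (CE.box d R) τ (ψ ω) ∂(iid d μ) := by
          rw [lintegral_add_right' _ ((GS.aemeas_su c (iid d μ) ψ hψ _ τ).const_mul _),
            lintegral_const_mul'' _ (GS.aemeas_su c (iid d μ) ψ hψ _ τ)]
      _ ≤ _ := by gcongr
  have h6 : ENNReal.ofReal (R ^ p) * (q / 2) ≤
      ∫⁻ ω, Mi (TT (∅ : Finset (Zd d)) c ω) p τ (ψ ω) ∂(iid d μ) := by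
    have h7 : ENNReal.ofReal (R ^ p) * q =
        ENNReal.ofReal (R ^ p) * (q / 2) + ENNReal.ofReal (R ^ p) * (q / 2) := by
      rw [← mul_add, ENNReal.add_halves]
    rw [h7] at h5
    have h8 : ENNReal.ofReal (R ^ p) * (q / 2) ≠ ⊤ :=
      ENNReal.mul_ne_top ENNReal.ofReal_ne_top (ENNReal.div_ne_top hqt two_ne_zero)
    exact (ENNReal.add_le_add_iff_right h8).1 h5
  have hτp : 0 < τ ^ (p / d) := by positivity
  rw [ENNReal.lt_div_iff_mul_lt (Or.inl (by simpa using hτp)) (Or.inl ENNReal.ofReal_ne_top)]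
  refine lt_of_lt_of_le ?_ h6
  have h9 : q / 2 = ENNReal.ofReal (r / 2) := by
    rw [ENNReal.ofReal_div_of_pos (by norm_num), hr, ENNReal.ofReal_toReal hqt]
    simp
  rw [h9, ← ENNReal.ofReal_mul (by positivity), hRp]
  have h10 : (N : ℝ≥0∞) = ENNReal.ofReal (N : ℝ) := (ENNReal.ofReal_coe_nnreal).symm
  rw [h10, ← ENNReal.ofReal_mul (by positivity)]
  rw [ENNReal.ofReal_lt_ofReal_iff (by positivity)]
  have h11 : ((N : ℝ) + 1) * τ ^ (p / d) ≤ (M ^ p * (r / 2)) * τ ^ (p / d) := by gcongr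
  nlinarith

end Pool.Agent.TH369.SJ
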