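import Pool.Agent.TH369.SJ.GS3

/-!
# Quenched form (project SJ): almost surely all absolutely continuous states at once
-/

set_option autoImplicit false
open MeasureTheory Filter Topology
open scoped InnerProductSpace ENNReal
namespace Pool.Agent.TH369.SJ
open Pool.Agent.TH369.AN Pool.Agent.TH369.MU
variable {d : ℕ}

namespace GS

lemma exists_window (T : L2 d →L[ℂ] L2 d) (hT : IsSelfAdjoint T) (S : Finset (Zd d)) (τ : ℝ)
    (hτ : 0 < τ) (ψ : L2 d) : ∃ a : ℝ, Su T S τ ψ ≤ 2 * As T S a τ ψ := by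
  by_cases h0 : Su T S τ ψ = 0
  · exact ⟨0, by rw [h0]; exact zero_le⟩
  · have h3 : Su T S τ ψ ≤ ‖ψ‖ₑ ^ 2 := iSup_le fun a => as_le _ hT _ a τ hτ _
    have h4 : Su T S τ ψ ≠ ⊤ := ne_top_of_le_ne_top (ENNReal.pow_ne_top enorm_ne_top) h3
    have h5 := ENNReal.half_lt_self h0 h4
    obtain ⟨a, ha⟩ := lt_iSup_iff.1 (show Su T S τ ψ / 2 < ⨆ a : ℝ, As T S a τ ψ from h5)
    refine ⟨a, ?_⟩
    have h6 := (ENNReal.div_le_iff_le_mul (Or.inl two_ne_zero)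
      (Or.inl ENNReal.ofNat_ne_top)).1 ha.le
    rwa [mul_comm] at h6

lemma su_of_as (T : L2 d →L[ℂ] L2 d) (hT : IsSelfAdjoint T) (S : ℕ → Finset (Zd d))
    (τ : ℕ → ℝ) (hτ : ∀ i, 0 < τ i) (ψ : L2 d)
    (h : ∀ a : ℕ → ℝ, Tendsto (fun i => As T (S i) (a i) (τ i) ψ) atTop (𝓝 0)) :
    Tendsto (fun i => Su T (S i) (τ i) ψ) atTop (𝓝 0) := by
  choose a ha using fun i => exists_window T hT (S i) (τ i) (hτ i) ψ
  have h5 := ENNReal.Tendsto.const_mul (h a) (Or.inr (by norm_num : (2 : ℝ≥0∞) ≠ ⊤))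
  rw [mul_zero] at h5
  exact tendsto_of_tendsto_of_tendsto_of_le_of_le tendsto_const_nhds h5 (fun i => zero_le) ha

/-- pointwise form -/
lemma point (c : ℝ) (hc : 0 ≤ c) (ω : Zd d → ℝ) (S : ℕ → Finset (Zd d)) (τ : ℕ → ℝ)
    (hτ : ∀ i, 0 < τ i)
    (hb : ∀ (x : Zd d) (Λ : ℕ), Tendsto (fun i => ENNReal.ofReal (1 / τ i) *
      (∑ y ∈ S i, ENNReal.ofReal (2 / Real.pi) * Jn c ω Λ x y)) atTop (𝓝 0)) (ψ : L2 d)
    (hac : ACv (TT (∅ : Finset (Zd d)) c ω) ψ) :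
    Tendsto (fun i => Su (TT (∅ : Finset (Zd d)) c ω) (S i) (τ i) ψ) atTop (𝓝 0) := by
  have hT : IsSelfAdjoint (TT (∅ : Finset (Zd d)) c ω) := TT_sa ∅ c ω
  refine su_of_as _ hT S τ hτ ψ fun a => ?_
  choose g g1 hg1 hg2 hg3 hg4 hg5 using fun x => gvec c hc ω x
  have hcl := dense_ac (TT (∅ : Finset (Zd d)) c ω) hT g g1 hg3 hg4 hg5 ψ hac
  refine as_small _ hT S a τ hτ (fun p : Zd d × ℕ => g p.1 p.2) ?_ _ hcl
  intro p
  have h3 : ∀ i, As (TT (∅ : Finset (Zd d)) c ω) (S i) (a i) (τ i) (g p.1 p.2) ≤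
      ENNReal.ofReal (1 / τ i) *
        (∑ y ∈ S i, ENNReal.ofReal (2 / Real.pi) * Jn c ω p.2 p.1 y) := by
    intro i
    exact as_le_sum (TT (∅ : Finset (Zd d)) c ω) (S i) (a i) (τ i) (g p.1 p.2)
      (fun y => ENNReal.ofReal (2 / Real.pi) * Jn c ω p.2 p.1 y) (fun y => by
        refine (soj _ hT (dl y) (g p.1 p.2) (hg1 p.1 p.2)).trans ?_
        gcongr
        exact hg2 p.1 p.2 y)
  exact tendsto_of_tendsto_of_tendsto_of_le_of_le tendsto_const_nhds (hb p.1 p.2)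
    (fun i => zero_le) h3

/-- the moments along a sequence -/
lemma mi_tendsto (hd : 0 < d) (T : L2 d →L[ℂ] L2 d) (hT : IsSelfAdjoint T) (τ : ℕ → ℝ)
    (hτ : ∀ i, 1 ≤ τ i) (p : ℝ) (hp : 0 < p) (ψ : L2 d) (hψ : ψ ≠ 0)
    (h : ∀ m : ℕ, Tendsto (fun i => Su T (CE.box d (m * τ i ^ ((1 : ℝ) / d))) (τ i) ψ) atTop
      (𝓝 0)) :
    Tendsto (fun i => Mi T p (τ i) ψ / ENNReal.ofReal (τ i ^ (p / d))) atTop (𝓝 ⊤) := by
  set q : ℝ≥0∞ := ‖ψ‖ₑ ^ 2 with hq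
  have hq0 : q ≠ 0 := by
    rw [hq]
    simpa using hψ
  have hqt : q ≠ ⊤ := ENNReal.pow_ne_top enorm_ne_top
  have hd' : (d : ℝ) ≠ 0 := by exact_mod_cast hd.ne'
  rw [ENNReal.tendsto_nhds_top_iff_nnreal]
  intro N
  set r : ℝ := q.toReal with hr
  have hr0 : 0 < r := ENNReal.toReal_pos hq0 hqt
  obtain ⟨m, hm⟩ : ∃ m : ℕ, (((N : ℝ) + 1) * 2 / r) ^ (1 / p) ≤ m := exists_nat_ge _
  have hm0 : (0 : ℝ) < m := lt_of_lt_of_le (by positivity) hm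
  have hM : (N : ℝ) + 1 ≤ (m : ℝ) ^ p * (r / 2) := by
    have h1 : ((((N : ℝ) + 1) * 2 / r) ^ (1 / p)) ^ p ≤ (m : ℝ) ^ p := by gcongr
    rw [← Real.rpow_mul (by positivity), one_div_mul_cancel hp.ne', Real.rpow_one,
      div_le_iff₀ hr0] at h1
    linarith
  have hlv := h m
  rw [ENNReal.tendsto_nhds_zero] at hlv
  have hq2 : 0 < q / 2 := ENNReal.half_pos hq0
  filter_upwards [hlv (q / 2) hq2] with i h4
  have hτ0 : 0 < τ i := lt_of_lt_of_le one_pos (hτ i)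
  set R : ℝ := m * τ i ^ ((1 : ℝ) / d) with hR
  have hR0 : 0 < R := by positivity
  have hRp : R ^ p = (m : ℝ) ^ p * τ i ^ (p / d) := by
    rw [hR, Real.mul_rpow hm0.le (by positivity), ← Real.rpow_mul hτ0.le]
    congr 2
    field_simp
  have h5 : ENNReal.ofReal (R ^ p) * q ≤ Mi T p (τ i) ψ + ENNReal.ofReal (R ^ p) * (q / 2) := by
    refine (GS.mi_lower T hT p (τ i) R hp hτ0 hR0.le ψ).trans ?_
    gcongr
  have h6 : ENNReal.ofReal (R ^ p) * (q / 2) ≤ Mi T p (τ i) ψ := by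
    have h7 : ENNReal.ofReal (R ^ p) * q =
        ENNReal.ofReal (R ^ p) * (q / 2) + ENNReal.ofReal (R ^ p) * (q / 2) := by
      rw [← mul_add, ENNReal.add_halves]
    rw [h7] at h5
    have h8 : ENNReal.ofReal (R ^ p) * (q / 2) ≠ ⊤ :=
      ENNReal.mul_ne_top ENNReal.ofReal_ne_top (ENNReal.div_ne_top hqt two_ne_zero)
    exact (ENNReal.add_le_add_iff_right h8).1 h5
  have hτp : 0 < τ i ^ (p / d) := by positivity
  rw [ENNReal.lt_div_iff_mul_lt (Or.inl (by simpa using hτp)) (Or.inl ENNReal.ofReal_ne_top)]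
  refine lt_of_lt_of_le ?_ h6
  have h9 : q / 2 = ENNReal.ofReal (r / 2) := by
    rw [ENNReal.ofReal_div_of_pos (by norm_num), hr, ENNReal.ofReal_toReal hqt]
    simp
  rw [h9, ← ENNReal.ofReal_mul (by positivity), hRp]
  have h10 : (N : ℝ≥0∞) = ENNReal.ofReal (N : ℝ) := (ENNReal.ofReal_coe_nnreal).symm
  rw [h10, ← ENNReal.ofReal_mul (by positivity)]
  rw [ENNReal.ofReal_lt_ofReal_iff (by positivity)]
  have h11 : ((N : ℝ) + 1) * τ i ^ (p / d) ≤ ((m : ℝ) ^ p * (r / 2)) * τ i ^ (p / d) := by gcongr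
  nlinarith

lemma card_ball (hd : 0 < d) (M : ℝ) (hM : 0 ≤ M) : ∀ᶠ τ in atTop,
    ((CE.box d (M * τ ^ ((1 : ℝ) / d))).card : ℝ) ≤ (2 * M + 1) ^ d * τ := by
  have hd' : (d : ℝ) ≠ 0 := by exact_mod_cast hd.ne'
  filter_upwards [eventually_ge_atTop (1 : ℝ)] with τ hτ1
  have hτ : 0 < τ := by linarith
  have hpow : 1 ≤ τ ^ ((1 : ℝ) / d) := Real.one_le_rpow hτ1 (by positivity)
  refine (CE.card_box (by positivity)).trans ?_
  have h6 : 2 * (M * τ ^ ((1 : ℝ) / d)) + 1 ≤ (2 * M + 1) * τ ^ ((1 : ℝ) / d) := by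
    nlinarith
  refine (pow_le_pow_left₀ (by positivity) h6 d).trans ?_
  rw [mul_pow]
  have h7 : (τ ^ ((1 : ℝ) / d)) ^ d = τ := by
    rw [← Real.rpow_natCast, ← Real.rpow_mul hτ.le, one_div_mul_cancel hd', Real.rpow_one]
  rw [h7]

end GS

/-- **Quenched form.** -/
theorem quenched (hd : 0 < d) (c : ℝ) (hc : 0 ≤ c) (μ : Measure ℝ) [IsProbabilityMeasure μ]
    (hμ : μ (Set.Icc (-c) c)ᶜ = 0) (hnd : ∀ x : ℝ, μ {x} ≠ 1) (M : ℝ)
    (S : ℝ → Finset (Zd d)) (hS : ∀ᶠ τ in atTop, ((S τ).card : ℝ) ≤ M * τ) (τ : ℕ → ℝ)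
    (hτ : Tendsto τ atTop atTop) :
    ∃ s : ℕ → ℕ, StrictMono s ∧ ∀ᵐ ω ∂(iid d μ), ∀ ψ : L2 d,
      ACv (TT (∅ : Finset (Zd d)) c ω) ψ →
      Tendsto (fun i => Su (TT (∅ : Finset (Zd d)) c ω) (S (τ (s i))) (τ (s i)) ψ) atTop (𝓝 0) ∧
      (ψ ≠ 0 → ∀ p : ℝ, 0 < p → Tendsto (fun i => Mi (TT (∅ : Finset (Zd d)) c ω) p (τ (s i)) ψ /
        ENNReal.ofReal (τ (s i) ^ (p / d))) atTop (𝓝 ⊤)) := by
  classical
  -- a countable family of sets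
  set S' : ℕ → ℝ → Finset (Zd d) := fun m τ =>
    if m = 0 then S τ else CE.box d (((m - 1 : ℕ) : ℝ) * τ ^ ((1 : ℝ) / d)) with hS'
  set M' : ℕ → ℝ := fun m => if m = 0 then M else (2 * ((m - 1 : ℕ) : ℝ) + 1) ^ d with hM'
  have hSM : ∀ m, ∀ᶠ τ in atTop, ((S' m τ).card : ℝ) ≤ M' m * τ := by
    intro m
    by_cases hm : m = 0
    · simpa only [hS', hM', hm, if_true] using hS
    · simp only [hS', hM', hm, if_false]
      exact GS.card_ball hd _ (by positivity)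
  obtain ⟨e, he⟩ : ∃ e : ℕ → ℕ × (Zd d × ℕ), Function.Surjective e := exists_surjective_nat _
  set B : ℝ → ℕ → (Zd d → ℝ) → ℝ≥0∞ := fun τ n ω => ENNReal.ofReal (1 / τ) *
    (∑ y ∈ S' (e n).1 τ, ENNReal.ofReal (2 / Real.pi) * Jn c ω (e n).2.2 (e n).2.1 y) with hB
  have hBm : ∀ τ n, Measurable (B τ n) := fun τ n =>
    (Finset.measurable_sum _ fun y _ =>
      (jn_meas c hc (e n).2.2 (e n).2.1 y).const_mul _).const_mul _
  have hB0 : ∀ n, Tendsto (fun τ => ∫⁻ ω, B τ n ω ∂(iid d μ)) atTop (𝓝 0) := fun n =>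
    jn_mean_s c hc μ hμ hnd (e n).2.2 (e n).2.1 (M' (e n).1) (S' (e n).1) (hSM _)
  obtain ⟨N, hN⟩ : ∃ N, ∀ i, N ≤ i → 1 ≤ τ i :=
    (Filter.eventually_atTop.1 (hτ.eventually_ge_atTop 1))
  obtain ⟨s, hs, hs2⟩ := subseq (iid d μ) (fun n i => B (τ (i + N)) n)
    (fun n i => hBm _ n) (fun n => (hB0 n).comp (hτ.comp (tendsto_add_atTop_nat N)))
  refine ⟨fun i => s i + N, fun i j hij => Nat.add_lt_add_right (hs hij) N, ?_⟩
  filter_upwards [hs2] with ω hω ψ hψ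
  have h1 : ∀ i, 1 ≤ τ (s i + N) := fun i => hN _ (by omega)
  have h0 : ∀ i, 0 < τ (s i + N) := fun i => lt_of_lt_of_le one_pos (h1 i)
  have h2 : ∀ m, Tendsto (fun i => Su (TT (∅ : Finset (Zd d)) c ω) (S' m (τ (s i + N)))
      (τ (s i + N)) ψ) atTop (𝓝 0) := by
    intro m
    refine GS.point c hc ω (fun i => S' m (τ (s i + N))) (fun i => τ (s i + N)) h0
      (fun x Λ => ?_) ψ hψ
    obtain ⟨n, hn⟩ := he (m, (x, Λ))
    have h3 := hω n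
    simpa only [hB, hn] using h3
  refine ⟨?_, fun hψ0 p hp => ?_⟩
  · have h3 := h2 0
    simpa only [hS', if_true] using h3
  · refine GS.mi_tendsto hd _ (TT_sa ∅ c ω) (fun i => τ (s i + N)) h1 p hp ψ hψ0 fun m => ?_
    have h3 := h2 (m + 1)
    simpa only [hS', Nat.succ_ne_zero, if_false, Nat.add_sub_cancel] using h3

end Pool.Agent.TH369.SJ
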