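import Pool.Agent.TH369.SJ.KUDefs
import Pool.Agent.TH369.AN.RES
import Pool.Agent.TH369.SJ.UN
import Pool.Agent.TH369.SJ.PL

/-!
# `L²` norm in the energy of the resolvent by the time evolution
(job KU-KU1 of helper369, written by helper324)
-/

set_option autoImplicit false
open MeasureTheory Filter Topology
open scoped InnerProductSpace ENNReal
namespace Pool.Agent.TH369.SJ
open Pool.Agent.TH369.AN Pool.Agent.TH369.MU
variable {X : Type} [NormedAddCommGroup X] [InnerProductSpace ℂ X] [CompleteSpace X]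

namespace KU1

theorem comm (T : X →L[ℂ] X) (t : ℝ) (v : X) : T (Ut T t v) = Ut T t (T v) := by
  have h : Commute T (Ut T t) := by
    unfold Ut
    exact ((Commute.refl T).smul_right _).exp_right
  have h2 := congrArg (fun A : X →L[ℂ] X => A v) h.eq
  simpa using h2

omit [CompleteSpace X] in
theorem ut_zero (T : X →L[ℂ] X) (v : X) : Ut T 0 v = v := by
  simp [Ut]

theorem ep_pos (k : ℕ) : 0 < ep k := by
  unfold ep
  positivity

theorem der (T : X →L[ℂ] X) (hT : IsSelfAdjoint T) (χ g : X) (k : ℕ) (E t : ℝ) :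
    HasDerivAt (fun s : ℝ => Complex.exp (Complex.I * zk E k * (s : ℂ)) *
        ⟪χ, Ut T s (Rz T (zk E k) g)⟫_ℂ)
      (-(Complex.I * (Complex.exp (Complex.I * zk E k * (t : ℂ)) * ⟪χ, Ut T t g⟫_ℂ))) t := by
  have hz : (zk E k).im ≠ 0 := by
    have h := (ep_pos k).ne'
    simpa [zk] using h
  have h1 : HasDerivAt (fun s : ℝ => Complex.exp (Complex.I * zk E k * (s : ℂ)))
      (Complex.exp (Complex.I * zk E k * (t : ℂ)) * (Complex.I * zk E k)) t := by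
    have h0 : HasDerivAt (fun s : ℝ => Complex.I * zk E k * (s : ℂ)) (Complex.I * zk E k) t := by
      simpa using (Complex.ofRealCLM.hasDerivAt (x := t)).const_mul (Complex.I * zk E k)
    exact h0.cexp
  have h2 : HasDerivAt (fun s : ℝ => ⟪χ, Ut T s (Rz T (zk E k) g)⟫_ℂ)
      ⟪χ, -(Complex.I • T (Ut T t (Rz T (zk E k) g)))⟫_ℂ t := by
    have h := ((innerSL ℂ χ).restrictScalars ℝ).hasFDerivAt.comp_hasDerivAt t
      (ut_deriv T (Rz T (zk E k) g) t)
    exact h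
  refine (h1.mul h2).congr_deriv ?_
  have h3 := rz_eq T hT (zk E k) hz g
  have h4 : Ut T t g = T (Ut T t (Rz T (zk E k) g)) - zk E k • Ut T t (Rz T (zk E k) g) := by
    rw [comm, ← map_smul, ← map_sub, h3]
  rw [h4, inner_sub_right, inner_smul_right, inner_neg_right, inner_smul_right]
  ring

theorem nexp (k : ℕ) (E t : ℝ) :
    ‖Complex.exp (Complex.I * zk E k * (t : ℂ))‖ = Real.exp (-ep k * t) := by
  rw [Complex.norm_exp]
  congr 1
  simp [zk]

theorem bnd (T : X →L[ℂ] X) (hT : IsSelfAdjoint T) (χ g : X) (t : ℝ) :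
    ‖⟪χ, Ut T t g⟫_ℂ‖ ≤ ‖χ‖ * ‖g‖ := by
  have h := norm_inner_le_norm (𝕜 := ℂ) χ (Ut T t g)
  rwa [ut_norm T hT] at h

theorem cnt (T : X →L[ℂ] X) (χ g : X) : Continuous fun t : ℝ => ⟪χ, Ut T t g⟫_ℂ :=
  continuous_const.inner (ut_cont T g)

theorem intg (T : X →L[ℂ] X) (hT : IsSelfAdjoint T) (χ g : X) (k : ℕ) (E : ℝ) :
    IntegrableOn (fun t : ℝ => Complex.exp (Complex.I * zk E k * (t : ℂ)) * ⟪χ, Ut T t g⟫_ℂ)
      (Set.Ioi 0) := by
  have h1 : IntegrableOn (fun t : ℝ => Real.exp (-ep k * t) * (‖χ‖ * ‖g‖)) (Set.Ioi 0) :=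
    (exp_neg_integrableOn_Ioi 0 (ep_pos k)).mul_const _
  refine Integrable.mono' h1 ?_ (Eventually.of_forall fun t => ?_)
  · refine Continuous.aestronglyMeasurable ?_
    exact (Complex.continuous_exp.comp (continuous_const.mul Complex.continuous_ofReal)).mul
      (cnt T χ g)
  · rw [norm_mul, nexp]
    exact mul_le_mul_of_nonneg_left (bnd T hT χ g t) (Real.exp_pos _).le

theorem lap (T : X →L[ℂ] X) (hT : IsSelfAdjoint T) (χ g : X) (k : ℕ) (E : ℝ) :
    ⟪χ, Rz T (zk E k) g⟫_ℂ = Complex.I * ∫ t in Set.Ioi (0 : ℝ),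
      Complex.exp (Complex.I * zk E k * (t : ℂ)) * ⟪χ, Ut T t g⟫_ℂ := by
  have hlim : Tendsto (fun s : ℝ => Complex.exp (Complex.I * zk E k * (s : ℂ)) *
        ⟪χ, Ut T s (Rz T (zk E k) g)⟫_ℂ) atTop (𝓝 0) := by
    have h0 : Tendsto (fun s : ℝ => Real.exp (-ep k * s) * (‖χ‖ * ‖Rz T (zk E k) g‖)) atTop
        (𝓝 0) := by
      have h1 : Tendsto (fun s : ℝ => Real.exp (-ep k * s)) atTop (𝓝 0) := by
        refine Real.tendsto_exp_atBot.comp ?_
        exact tendsto_id.const_mul_atTop_of_neg (by have := ep_pos k; linarith)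
      simpa using h1.mul_const (‖χ‖ * ‖Rz T (zk E k) g‖)
    refine squeeze_zero_norm (fun s => ?_) h0
    rw [norm_mul, nexp]
    exact mul_le_mul_of_nonneg_left (bnd T hT χ _ s) (Real.exp_pos _).le
  have h1 := integral_Ioi_of_hasDerivAt_of_tendsto' (a := (0 : ℝ)) (m := (0 : ℂ))
    (fun t _ => der T hT χ g k E t) (((intg T hT χ g k E).const_mul Complex.I).neg) hlim
  rw [integral_neg, integral_const_mul] at h1
  simp only [Complex.ofReal_zero, mul_zero, Complex.exp_zero, one_mul, ut_zero, zero_sub,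
    neg_inj] at h1
  exact h1.symm

end KU1

theorem res_l2 (T : X →L[ℂ] X) (hT : IsSelfAdjoint T) (χ g : X) (k : ℕ) :
    ∫⁻ E : ℝ, ‖⟪χ, Rz T (zk E k) g⟫_ℂ‖ₑ ^ 2 ≤
      ENNReal.ofReal (2 * Real.pi) * ∫⁻ t : ℝ, ‖⟪χ, Ut T t g⟫_ℂ‖ₑ ^ 2 := by
  have hp := KU1.ep_pos k
  obtain ⟨h, hh⟩ : ∃ h : ℝ → ℂ, h = (Set.Ioi (0 : ℝ)).indicator
      (fun t : ℝ => Complex.exp (Complex.I * zk 0 k * (t : ℂ)) * ⟪χ, Ut T t g⟫_ℂ) := ⟨_, rfl⟩
  have hi : Integrable h := by
    rw [hh, integrable_indicator_iff measurableSet_Ioi]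
    exact KU1.intg T hT χ g k 0
  have e1 : ∀ E : ℝ, ‖⟪χ, Rz T (zk E k) g⟫_ℂ‖ₑ =
      ‖∫ t : ℝ, Complex.exp (-(Complex.I * ((-E : ℝ) : ℂ) * (t : ℂ))) * h t‖ₑ := by
    intro E
    have e2 : ∫ t : ℝ, Complex.exp (-(Complex.I * ((-E : ℝ) : ℂ) * (t : ℂ))) * h t =
        ∫ t in Set.Ioi (0 : ℝ), Complex.exp (Complex.I * zk E k * (t : ℂ)) * ⟪χ, Ut T t g⟫_ℂ := by
      rw [← integral_indicator measurableSet_Ioi]
      refine integral_congr_ae (Eventually.of_forall fun t => ?_)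
      simp only [hh]
      by_cases ht : t ∈ Set.Ioi (0 : ℝ)
      · rw [Set.indicator_of_mem ht, Set.indicator_of_mem ht, ← mul_assoc, ← Complex.exp_add]
        congr 2
        simp only [zk]
        push_cast
        ring
      · rw [Set.indicator_of_notMem ht, Set.indicator_of_notMem ht, mul_zero]
    have e3 : ‖Complex.I‖ₑ = 1 := by
      rw [← ofReal_norm, Complex.norm_I, ENNReal.ofReal_one]
    rw [e2, KU1.lap T hT χ g k E, enorm_mul, e3, one_mul]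
  calc ∫⁻ E : ℝ, ‖⟪χ, Rz T (zk E k) g⟫_ℂ‖ₑ ^ 2
      = ∫⁻ E : ℝ, (fun s : ℝ =>
          ‖∫ t : ℝ, Complex.exp (-(Complex.I * (s : ℂ) * (t : ℂ))) * h t‖ₑ ^ 2) (-E) := by
        simp only [e1]
    _ = ∫⁻ s : ℝ, ‖∫ t : ℝ, Complex.exp (-(Complex.I * (s : ℂ) * (t : ℂ))) * h t‖ₑ ^ 2 :=
        lintegral_neg_eq_self (fun s : ℝ =>
          ‖∫ t : ℝ, Complex.exp (-(Complex.I * (s : ℂ) * (t : ℂ))) * h t‖ₑ ^ 2)
    _ ≤ ENNReal.ofReal (2 * Real.pi) * ∫⁻ t : ℝ, ‖h t‖ₑ ^ 2 := planch h hi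
    _ ≤ _ := by
        gcongr with t
        rw [hh]
        by_cases ht : t ∈ Set.Ioi (0 : ℝ)
        · rw [Set.indicator_of_mem ht, enorm_mul]
          have h1 : ‖Complex.exp (Complex.I * zk 0 k * (t : ℂ))‖ₑ ≤ 1 := by
            rw [← ofReal_norm, KU1.nexp]
            refine ENNReal.ofReal_le_one.2 (Real.exp_le_one_iff.2 ?_)
            have ht0 : (0 : ℝ) < t := ht
            nlinarith
          calc _ ≤ 1 * ‖⟪χ, Ut T t g⟫_ℂ‖ₑ := by gcongr
            _ = _ := one_mul _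
        · rw [Set.indicator_of_notMem ht]
          simp

end Pool.Agent.TH369.SJ
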