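import Pool.Agent.TH369.SJ.KU8

/-!
# The density vanishes where the conductivity has a finite upper limit (project KU)
-/

set_option autoImplicit false
open MeasureTheory Filter Topology
open scoped InnerProductSpace ENNReal
namespace Pool.Agent.TH369.SJ
open Pool.Agent.TH369.AN Pool.Agent.TH369.MU
variable {d : ℕ}

theorem kap_zero_pt (hd : 0 < d) (c : ℝ) (hc : 0 ≤ c) (μ : Measure ℝ) [IsProbabilityMeasure μ]
    (hμ : μ (Set.Icc (-c) c)ᶜ = 0) (hnd : ∀ x : ℝ, μ {x} ≠ 1) (p : ℝ) (hp : 0 < p) (A : Set ℝ)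
    (hA : MeasurableSet A)
    (h : ∀ᵐ E : ℝ, E ∈ A → limsup (fun k => ∫⁻ ω, Zp p c ω E k ∂(iid d μ)) atTop ≠ ⊤) :
    ∀ᵐ ω ∂(iid d μ), ∀ᵐ E : ℝ, E ∈ A → kap c E 0 ω = 0 := by
  set V : ℕ → ℝ → ℝ≥0∞ := fun k E => ∫⁻ ω, Zp p c ω E k ∂(iid d μ) with hV
  have hVm : ∀ k, Measurable (V k) := fun k => (KU8.zp_meas p c hc k).lintegral_prod_left
  set B : ℕ → Set ℝ := fun n => (A ∩ Set.Icc (-(n : ℝ)) n) ∩ ⋂ k : ℕ, {E | n ≤ k → V k E ≤ n}
    with hB
  have hBm : ∀ n, MeasurableSet (B n) := by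
    intro n
    refine (hA.inter measurableSet_Icc).inter (MeasurableSet.iInter fun k => ?_)
    by_cases hk : n ≤ k
    · simp only [hk, true_imp_iff]
      exact measurableSet_le (hVm k) measurable_const
    · simp only [hk, false_imp_iff]
      exact MeasurableSet.univ
  have hBz : ∀ n, ∀ᵐ ω ∂(iid d μ), ∀ᵐ E : ℝ, E ∈ B n → kap c E 0 ω = 0 := by
    intro n
    refine kap_zero_int hd c hc μ hμ hnd p hp (B n) (hBm n) ?_
    have h1 : liminf (fun k => ∫⁻ E in B n, V k E) atTop ≤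
        (n : ℝ≥0∞) * volume (Set.Icc (-(n : ℝ)) n) := by
      refine liminf_le_of_frequently_le ?_ (by isBoundedDefault)
      refine (eventually_ge_atTop n).frequently.mono fun k hk => ?_
      calc ∫⁻ E in B n, V k E ≤ ∫⁻ _E in B n, (n : ℝ≥0∞) := by
            refine setLIntegral_mono measurable_const fun E hE => ?_
            exact (Set.mem_iInter.1 hE.2 k) hk
        _ = (n : ℝ≥0∞) * volume (B n) := setLIntegral_const _ _
        _ ≤ _ := by
            gcongr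
            exact fun E hE => hE.1.2
    refine ne_top_of_le_ne_top ?_ h1
    rw [Real.volume_Icc]
    exact ENNReal.mul_ne_top (ENNReal.natCast_ne_top n) ENNReal.ofReal_ne_top
  have hall : ∀ᵐ ω ∂(iid d μ), ∀ n, ∀ᵐ E : ℝ, E ∈ B n → kap c E 0 ω = 0 := ae_all_iff.2 hBz
  filter_upwards [hall] with ω hω
  filter_upwards [ae_all_iff.2 hω, h] with E h1 h2 hEA
  have h3 := h2 hEA
  obtain ⟨n, hn⟩ := ENNReal.exists_nat_gt h3
  have h4 : ∀ᶠ k in atTop, V k E < n := eventually_lt_of_limsup_lt hn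
  obtain ⟨K, hK⟩ := eventually_atTop.1 h4
  obtain ⟨m, hm⟩ := exists_nat_ge |E|
  refine h1 (max (max n m) K) ⟨⟨hEA, ?_⟩, Set.mem_iInter.2 fun k hk => ?_⟩
  · have h5 : |E| ≤ ((max (max n m) K : ℕ) : ℝ) := by
      refine hm.trans ?_
      exact_mod_cast (le_max_right n m).trans (le_max_left _ _)
    exact abs_le.1 h5
  · have h6 := (hK k ((le_max_right _ _).trans hk)).le
    refine h6.trans ?_
    exact_mod_cast (le_max_left n m).trans (le_max_left _ _)

end Pool.Agent.TH369.SJ
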