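import Pool.Agent.TH369.SJ.KU8

/-!
# The spread of the resolvent diverges in probability where the density is positive (project KU)
-/

set_option autoImplicit false
open MeasureTheory Filter Topology
open scoped InnerProductSpace ENNReal
namespace Pool.Agent.TH369.SJ
open Pool.Agent.TH369.AN Pool.Agent.TH369.MU
variable {d : ℕ}

namespace KU11

lemma xs_meas (c : ℝ) (hc : 0 ≤ c) (k : ℕ) (S : Finset (Zd d)) :
    Measurable fun q : (Zd d → ℝ) × ℝ => Xs c q.1 q.2 k S 0 := by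
  unfold Xs
  refine Measurable.const_mul ?_ _
  refine Finset.measurable_sum _ fun y _ => ?_
  exact (gk_meas2 c hc k y 0).enorm.pow_const 2

/-- the density is finite almost everywhere -/
lemma kap_fin (c : ℝ) (ω : Zd d → ℝ) : ∀ᵐ E : ℝ, kap c E 0 ω < ⊤ := by
  obtain ⟨m, hm, -⟩ := spm_exists (TT (∅ : Finset (Zd d)) c ω) (TT_sa ∅ c ω) (dl 0)
  have h1 := (kap_ae c ω 0 m hm).1
  have hf : IsFiniteMeasure m := hm.1
  filter_upwards [h1, m.rnDeriv_lt_top volume] with E h2 h3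
  rw [h2]
  exact ENNReal.mul_lt_top ENNReal.ofReal_lt_top h3

lemma step (hd : 0 < d) (c : ℝ) (hc : 0 ≤ c) (μ : Measure ℝ) [IsProbabilityMeasure μ]
    (hμ : μ (Set.Icc (-c) c)ᶜ = 0) (hnd : ∀ x : ℝ, μ {x} ≠ 1) (p : ℝ) (hp : 0 < p) (A : Set ℝ)
    (hA : MeasurableSet A) (hA2 : volume A ≠ ⊤) (M : ℝ≥0∞) (hM : M ≠ ⊤) (n : ℕ) :
    Tendsto (fun k => ((iid d μ).prod (volume.restrict A))
      {q | (2 * ENNReal.ofReal (ep n) < kap c q.2 0 q.1 ∧ kap c q.2 0 q.1 ≤ (n : ℝ≥0∞)) ∧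
        Zp p c q.1 q.2 k ≤ M}) atTop (𝓝 0) := by
  have hP : IsProbabilityMeasure (iid d μ) := KU8.iid_prob μ
  have hfinA : IsFiniteMeasure (volume.restrict A) := ⟨by
    rw [Measure.restrict_apply_univ]; exact hA2.lt_top⟩
  set Q := (iid d μ).prod (volume.restrict A) with hQ
  have hep : 0 < ep n := SE.ep_pos n
  have hep1 : ep n ≤ 1 := by
    unfold ep
    rw [div_le_one (by positivity)]
    linarith [Nat.cast_nonneg (α := ℝ) n]
  set δ : ℝ≥0∞ := ENNReal.ofReal (ep n) with hδ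
  have hδ0 : δ ≠ 0 := (ENNReal.ofReal_pos.2 hep).ne'
  have hδt : δ ≠ ⊤ := ENNReal.ofReal_ne_top
  have hδ1 : δ ≤ 1 := by
    rw [hδ]
    exact ENNReal.ofReal_le_one.2 hep1
  -- choice of `N`
  obtain ⟨N, hN0, hN⟩ : ∃ N : ℕ, 0 < N ∧ ENNReal.ofReal ((N : ℝ) ^ (-p)) * M ≤ δ / 2 := by
    have h1 : Tendsto (fun N : ℕ => (N : ℝ) ^ (-p)) atTop (𝓝 0) :=
      (tendsto_rpow_neg_atTop hp).comp tendsto_natCast_atTop_atTop
    have h2 := ENNReal.tendsto_ofReal h1
    rw [ENNReal.ofReal_zero] at h2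
    have h3 := ENNReal.Tendsto.mul_const (b := M) h2 (Or.inr hM)
    rw [zero_mul, ENNReal.tendsto_nhds_zero] at h3
    have h4 := h3 (δ / 2) (ENNReal.div_pos hδ0 ENNReal.ofNat_ne_top)
    obtain ⟨N, hN⟩ := (h4.and (eventually_gt_atTop 0)).exists
    exact ⟨N, hN.2, hN.1⟩
  set S : ℕ → Finset (Zd d) := fun k =>
    CE.box d ((N : ℝ) * ((k : ℝ) + 1) ^ ((1 : ℝ) / d)) with hS
  have hx := xs_mean (d := d) c hc μ hμ hnd n A hA hA2 ((2 * (N : ℝ) + 1) ^ d) S
    (fun k => KU8.card_le hd N k)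
  have hkm : Measurable fun q : (Zd d → ℝ) × ℝ => kap c q.2 0 q.1 := GA.meas_kap c hc 0
  have hgm : ∀ k, Measurable fun q : (Zd d → ℝ) × ℝ => ENNReal.ofReal (Gk c q.1 q.2 k 0 0).im :=
    fun k => (GA.meas_im c hc k 0).ennreal_ofReal
  set F : ℕ → (Zd d → ℝ) × ℝ → ℝ≥0∞ := fun k q =>
    if kap c q.2 0 q.1 ≤ (n : ℝ≥0∞) then min (Xs c q.1 q.2 k (S k) 0) 1 else 0 with hF
  have hFm : ∀ k, Measurable (F k) := fun k =>
    Measurable.ite (measurableSet_le hkm measurable_const)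
      ((xs_meas c hc k (S k)).min measurable_const) measurable_const
  have hF0 : Tendsto (fun k => ∫⁻ q, F k q ∂Q) atTop (𝓝 0) := by
    refine hx.congr fun k => ?_
    rw [hQ, lintegral_prod _ (hFm k).aemeasurable]
  -- the first bad set
  set B1 : ℕ → Set ((Zd d → ℝ) × ℝ) := fun k =>
    {q | 2 * δ < kap c q.2 0 q.1 ∧ ENNReal.ofReal (Gk c q.1 q.2 k 0 0).im ≤ δ} with hB1
  have hB1m : ∀ k, MeasurableSet (B1 k) := fun k =>
    (measurableSet_lt measurable_const hkm).inter (measurableSet_le (hgm k) measurable_const)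
  have h1 : Tendsto (fun k => Q (B1 k)) atTop (𝓝 0) := by
    have h2 := tendsto_measure_of_ae_tendsto_indicator_of_isFiniteMeasure (L := atTop) (μ := Q)
      (A := (∅ : Set ((Zd d → ℝ) × ℝ))) (As := B1) MeasurableSet.empty hB1m (by
        refine Eventually.of_forall fun q => ?_
        by_cases hq : 2 * δ < kap c q.2 0 q.1
        · have h3 : δ < kap c q.2 0 q.1 := by
            refine lt_of_le_of_lt ?_ hq
            rw [two_mul]
            exact le_self_add
          have h4 : ∀ᶠ k in atTop, δ < ENNReal.ofReal (Gk c q.1 q.2 k 0 0).im :=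
            eventually_lt_of_lt_liminf h3
          filter_upwards [h4] with k hk
          simp only [Set.mem_empty_iff_false, iff_false]
          intro hcon
          exact absurd hcon.2 (not_le.2 hk)
        · filter_upwards with k
          simp only [Set.mem_empty_iff_false, iff_false]
          intro hcon
          exact hq hcon.1)
    rwa [measure_empty] at h2
  -- the second bad set
  have h2 : Tendsto (fun k => Q {q | δ / 2 ≤ F k q}) atTop (𝓝 0) := by
    have h3 : ∀ k, Q {q | δ / 2 ≤ F k q} ≤ (∫⁻ q, F k q ∂Q) / (δ / 2) := fun k =>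
      meas_ge_le_lintegral_div (hFm k).aemeasurable
        (ENNReal.div_pos hδ0 ENNReal.ofNat_ne_top).ne'
        (ENNReal.div_lt_top hδt two_ne_zero).ne
    have h4 : Tendsto (fun k => (∫⁻ q, F k q ∂Q) / (δ / 2)) atTop (𝓝 0) := by
      have h5 := ENNReal.Tendsto.div_const (b := δ / 2) hF0
        (Or.inr (ENNReal.div_pos hδ0 ENNReal.ofNat_ne_top).ne')
      simpa using h5
    exact tendsto_of_tendsto_of_tendsto_of_le_of_le tendsto_const_nhds h4 (fun _ => bot_le) h3
  have h3 : Tendsto (fun k => Q (B1 k) + Q {q | δ / 2 ≤ F k q}) atTop (𝓝 0) := by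
    simpa using h1.add h2
  refine tendsto_of_tendsto_of_tendsto_of_le_of_le tendsto_const_nhds h3 (fun _ => bot_le) ?_
  intro k
  refine (measure_mono ?_).trans (measure_union_le _ _)
  rintro q ⟨⟨hq1, hq2⟩, hq3⟩
  by_cases hg : ENNReal.ofReal (Gk c q.1 q.2 k 0 0).im ≤ δ
  · exact Or.inl ⟨hq1, hg⟩
  · right
    have hg' := not_le.1 hg
    have h4 := mass hd p hp c q.1 q.2 k N hN0
    have h5 : ENNReal.ofReal ((N : ℝ) ^ (-p)) * Zp p c q.1 q.2 k ≤ δ / 2 :=
      (mul_le_mul_right hq3 _).trans hN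
    show δ / 2 ≤ F k q
    simp only [hF, hq2, if_true]
    refine le_min ?_ ?_
    · by_contra hcon
      have hcon' := not_le.1 hcon
      have h6 : ENNReal.ofReal (Gk c q.1 q.2 k 0 0).im < δ := by
        calc ENNReal.ofReal (Gk c q.1 q.2 k 0 0).im ≤ _ := h4
          _ < δ / 2 + δ / 2 := ENNReal.add_lt_add_of_lt_of_le
              (ne_top_of_le_ne_top (ENNReal.div_lt_top hδt two_ne_zero).ne h5) hcon' h5
          _ = δ := ENNReal.add_halves δ
      exact absurd hg' (not_lt.2 h6.le)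
    · exact ENNReal.half_le_self.trans hδ1

end KU11

/-- the spread of the resolvent diverges in probability where the density is positive -/
theorem zp_prob (hd : 0 < d) (c : ℝ) (hc : 0 ≤ c) (μ : Measure ℝ) [IsProbabilityMeasure μ]
    (hμ : μ (Set.Icc (-c) c)ᶜ = 0) (hnd : ∀ x : ℝ, μ {x} ≠ 1) (p : ℝ) (hp : 0 < p) (A : Set ℝ)
    (hA : MeasurableSet A) (hA2 : volume A ≠ ⊤) (M : ℝ≥0∞) (hM : M ≠ ⊤) :
    Tendsto (fun k => ((iid d μ).prod (volume.restrict A))
      {q | 0 < kap c q.2 0 q.1 ∧ Zp p c q.1 q.2 k ≤ M}) atTop (𝓝 0) := by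
  have hP : IsProbabilityMeasure (iid d μ) := KU8.iid_prob μ
  have hfinA : IsFiniteMeasure (volume.restrict A) := ⟨by
    rw [Measure.restrict_apply_univ]; exact hA2.lt_top⟩
  set Q := (iid d μ).prod (volume.restrict A) with hQ
  have hkm : Measurable fun q : (Zd d → ℝ) × ℝ => kap c q.2 0 q.1 := GA.meas_kap c hc 0
  set D : ℕ → Set ((Zd d → ℝ) × ℝ) := fun n => {q | 0 < kap c q.2 0 q.1 ∧
    ¬ (2 * ENNReal.ofReal (ep n) < kap c q.2 0 q.1 ∧ kap c q.2 0 q.1 ≤ (n : ℝ≥0∞))} with hD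
  have hDm : ∀ n, MeasurableSet (D n) := fun n =>
    (measurableSet_lt measurable_const hkm).inter
      ((measurableSet_lt measurable_const hkm).inter
        (measurableSet_le hkm measurable_const)).compl
  have hfin : ∀ᵐ q ∂Q, kap c q.2 0 q.1 < ⊤ := by
    rw [hQ]
    refine (Measure.ae_prod_iff_ae_ae (measurableSet_lt hkm measurable_const)).2 ?_
    refine Eventually.of_forall fun ω => ?_
    exact ae_restrict_of_ae (KU11.kap_fin c ω)
  have hep0 : Tendsto (fun n : ℕ => 2 * ENNReal.ofReal (ep n)) atTop (𝓝 0) := by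
    have h1 : Tendsto (fun n : ℕ => ep n) atTop (𝓝 0) := tendsto_one_div_add_atTop_nhds_zero_nat
    have h2 := ENNReal.tendsto_ofReal h1
    rw [ENNReal.ofReal_zero] at h2
    have h3 := ENNReal.Tendsto.const_mul (a := 2) h2 (Or.inr ENNReal.ofNat_ne_top)
    simpa using h3
  have hD0 : Tendsto (fun n => Q (D n)) atTop (𝓝 0) := by
    have h2 := tendsto_measure_of_ae_tendsto_indicator_of_isFiniteMeasure (L := atTop) (μ := Q)
      (A := (∅ : Set ((Zd d → ℝ) × ℝ))) (As := D) MeasurableSet.empty hDm (by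
        filter_upwards [hfin] with q hq
        by_cases h0 : 0 < kap c q.2 0 q.1
        · have h3 : ∀ᶠ n : ℕ in atTop, 2 * ENNReal.ofReal (ep n) < kap c q.2 0 q.1 :=
            hep0.eventually (gt_mem_nhds h0)
          obtain ⟨m, hm⟩ := ENNReal.exists_nat_gt hq.ne
          filter_upwards [h3, eventually_ge_atTop m] with n hn1 hn2
          simp only [Set.mem_empty_iff_false, iff_false]
          intro hcon
          refine hcon.2 ⟨hn1, hm.le.trans ?_⟩
          exact_mod_cast hn2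
        · filter_upwards with n
          simp only [Set.mem_empty_iff_false, iff_false]
          intro hcon
          exact h0 hcon.1)
    rwa [measure_empty] at h2
  rw [ENNReal.tendsto_nhds_zero] at hD0 ⊢
  intro ε hε
  obtain ⟨n, hn⟩ := (hD0 (ε / 2) (ENNReal.half_pos hε.ne')).exists
  have h1 := KU11.step hd c hc μ hμ hnd p hp A hA hA2 M hM n
  rw [ENNReal.tendsto_nhds_zero] at h1
  filter_upwards [h1 (ε / 2) (ENNReal.half_pos hε.ne')] with k hk
  calc Q {q | 0 < kap c q.2 0 q.1 ∧ Zp p c q.1 q.2 k ≤ M}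
      ≤ Q (D n ∪ {q | (2 * ENNReal.ofReal (ep n) < kap c q.2 0 q.1 ∧
          kap c q.2 0 q.1 ≤ (n : ℝ≥0∞)) ∧ Zp p c q.1 q.2 k ≤ M}) := by
        refine measure_mono fun q hq => ?_
        by_cases h2 : 2 * ENNReal.ofReal (ep n) < kap c q.2 0 q.1 ∧ kap c q.2 0 q.1 ≤ (n : ℝ≥0∞)
        · exact Or.inr ⟨h2, hq.2⟩
        · exact Or.inl ⟨hq.1, h2⟩
    _ ≤ _ := measure_union_le _ _
    _ ≤ ε / 2 + ε / 2 := add_le_add hn hk
    _ = ε := ENNReal.add_halves ε

end Pool.Agent.TH369.SJ
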