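import Pool.Agent.TH369.SJ.KU11

/-!
# Positivity of the density on the absolutely continuous spectrum (project KU)
-/

set_option autoImplicit false
open MeasureTheory Filter Topology
open scoped InnerProductSpace ENNReal
namespace Pool.Agent.TH369.SJ
open Pool.Agent.TH369.AN Pool.Agent.TH369.MU
variable {d : ℕ}

namespace KU12

lemma kap_m1 (c : ℝ) (hc : 0 ≤ c) (ω : Zd d → ℝ) : Measurable fun E : ℝ => kap c E 0 ω := by
  have h : Measurable (Function.uncurry fun (ω : Zd d → ℝ) (E : ℝ) => kap c E 0 ω) :=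
    GA.meas_kap c hc 0
  exact h.of_uncurry_left

lemma abs1 (m : Measure ℝ) [IsFiniteMeasure m] (k : ℝ → ℝ≥0∞) (hk : Measurable k)
    (h1 : ∀ᵐ E : ℝ, k E = ENNReal.ofReal Real.pi * m.rnDeriv volume E) (S : Set ℝ)
    (h : ∀ B : Set ℝ, MeasurableSet B → volume (B ∩ S) ≠ 0 →
      ¬ (m.restrict B) ⟂ₘ (volume : Measure ℝ)) :
    ∀ᵐ E : ℝ, E ∈ S → 0 < k E := by
  have hB : MeasurableSet {E : ℝ | k E = 0} := hk (measurableSet_singleton 0)
  have h0 : volume ({E : ℝ | k E = 0} ∩ S) = 0 := by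
    by_contra hcon
    refine h _ hB hcon ?_
    rw [← Measure.rnDeriv_eq_zero]
    have h2 := Measure.rnDeriv_restrict m (volume : Measure ℝ) hB
    filter_upwards [h1, h2] with E e1 e2
    rw [e2]
    by_cases hE : k E = 0
    · rw [Set.indicator_of_mem (by exact hE)]
      rw [hE] at e1
      rcases mul_eq_zero.1 e1.symm with h4 | h4
      · exact absurd (ENNReal.ofReal_eq_zero.1 h4) (not_le.2 Real.pi_pos)
      · exact h4
    · rw [Set.indicator_of_notMem (by exact hE)]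
      rfl
  have h5 : ∀ᵐ E : ℝ, ¬ (E ∈ {E : ℝ | k E = 0} ∩ S) := by
    rw [ae_iff]
    simp only [not_not]
    exact h0
  filter_upwards [h5] with E hE hES
  exact pos_iff_ne_zero.2 fun h6 => hE ⟨h6, hES⟩

end KU12

theorem kap_pos (c : ℝ) (hc : 0 ≤ c) (ω : Zd d → ℝ) (S : Set ℝ)
    (h : ∀ B : Set ℝ, MeasurableSet B → volume (B ∩ S) ≠ 0 → ∀ m : Measure ℝ,
      SpM (TT (∅ : Finset (Zd d)) c ω) (dl 0) m → ¬ (m.restrict B) ⟂ₘ (volume : Measure ℝ)) :
    ∀ᵐ E : ℝ, E ∈ S → 0 < kap c E 0 ω := by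
  obtain ⟨m, hm, -⟩ := spm_exists (TT (∅ : Finset (Zd d)) c ω) (TT_sa ∅ c ω) (dl 0)
  have hf : IsFiniteMeasure m := hm.1
  exact KU12.abs1 m (fun E => kap c E 0 ω) (KU12.kap_m1 c hc ω) (kap_ae c ω 0 m hm).1 S
    fun B hB hB0 => h B hB hB0 m hm

/-- the spread of the resolvent diverges in probability on the absolutely continuous spectrum -/
theorem zp_prob_S (hd : 0 < d) (c : ℝ) (hc : 0 ≤ c) (μ : Measure ℝ) [IsProbabilityMeasure μ]
    (hμ : μ (Set.Icc (-c) c)ᶜ = 0) (hnd : ∀ x : ℝ, μ {x} ≠ 1) (p : ℝ) (hp : 0 < p) (S : Set ℝ)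
    (hS : MeasurableSet S) (hpos : ∀ᵐ ω ∂(iid d μ), ∀ᵐ E : ℝ, E ∈ S → 0 < kap c E 0 ω)
    (R : ℝ) (M : ℝ≥0∞) (hM : M ≠ ⊤) :
    Tendsto (fun k => ∫⁻ E in S ∩ Set.Icc (-R) R, (iid d μ) {ω | Zp p c ω E k ≤ M})
      atTop (𝓝 0) := by
  have hPr : IsProbabilityMeasure (iid d μ) := KU8.iid_prob μ
  have hA : MeasurableSet (S ∩ Set.Icc (-R) R) := hS.inter measurableSet_Icc
  have hA2 : volume (S ∩ Set.Icc (-R) R) ≠ ⊤ := by
    refine ne_top_of_le_ne_top ?_ (measure_mono Set.inter_subset_right)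
    rw [Real.volume_Icc]
    exact ENNReal.ofReal_ne_top
  have hmain2 := zp_prob (d := d) hd c hc μ hμ hnd p hp (S ∩ Set.Icc (-R) R) hA hA2 M hM
  refine hmain2.congr fun n => ?_
  have hzm : MeasurableSet {q : (Zd d → ℝ) × ℝ | Zp p c q.1 q.2 n ≤ M} :=
    measurableSet_le (KU8.zp_meas p c hc n) measurable_const
  have e1 : ((iid d μ).prod (volume.restrict (S ∩ Set.Icc (-R) R)))
      {q | 0 < kap c q.2 0 q.1 ∧ Zp p c q.1 q.2 n ≤ M} =
      ((iid d μ).prod (volume.restrict (S ∩ Set.Icc (-R) R))) {q | Zp p c q.1 q.2 n ≤ M} := by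
    refine measure_congr ?_
    have hae : ∀ᵐ q ∂((iid d μ).prod (volume.restrict (S ∩ Set.Icc (-R) R))),
        0 < kap c q.2 0 q.1 := by
      refine (Measure.ae_prod_iff_ae_ae (measurableSet_lt measurable_const
        (GA.meas_kap c hc 0))).2 ?_
      filter_upwards [hpos] with ω h1
      rw [ae_restrict_iff' hA]
      filter_upwards [h1] with E h2 h3
      exact h2 h3.1
    filter_upwards [hae] with q hq
    exact propext ⟨fun h => h.2, fun h => ⟨hq, h⟩⟩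
  refine e1.trans ?_
  rw [Measure.prod_apply_symm hzm]
  rfl

end Pool.Agent.TH369.SJ
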