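import Pool.Agent.TH369.SJ.KUDefs
import Pool.Agent.TH369.AN.RES
import Pool.Agent.TH369.AN.OP
import Pool.Agent.TH369.MU.QB
import Pool.Agent.TH369.MU.SM
import Pool.Agent.TH369.MU.QA
import Pool.Agent.TH369.MU.SN
import Pool.Agent.TH369.MU.MJ
import Pool.Agent.TH369.SJ.UQ
import Pool.Agent.TH369.SJ.BF
import Pool.Agent.TH369.SJ.KG
import Pool.Agent.TH369.SJ.GV

/-!
# KU-KU2: truncated vector close to the site at the energies where the density is at most `Λ`
-/

set_option autoImplicit false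

open MeasureTheory Filter Topology
open scoped InnerProductSpace ENNReal

namespace Pool.Agent.TH369.SJ

open Pool.Agent.TH369.AN Pool.Agent.TH369.MU

variable {d : ℕ}

theorem gdec (c : ℝ) (hc : 0 ≤ c) (ω : Zd d → ℝ) (x : Zd d) (Λ : ℕ) :
    ∃ g : L2 d, ACv (TT (∅ : Finset (Zd d)) c ω) g ∧
      (∀ y : Zd d, ∫⁻ E : ℝ, liminf (fun k =>
        ‖kk (TT (∅ : Finset (Zd d)) c ω) E k (dl y) g‖ₑ ^ 2) atTop ≤ Jn c ω Λ x y) ∧
      ∀ᵐ E : ℝ, kap c E x ω ≤ (Λ : ℝ≥0∞) →
        Tendsto (fun k => qk (TT (∅ : Finset (Zd d)) c ω) E k (dl x - g)) atTop (𝓝 0) := by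
  obtain ⟨T, hTd⟩ : ∃ T : L2 d →L[ℂ] L2 d, T = TT (∅ : Finset (Zd d)) c ω := ⟨_, rfl⟩
  have hT : IsSelfAdjoint T := by rw [hTd]; exact TT_sa ∅ c ω
  obtain ⟨m, hm, -⟩ := spm_exists T hT (dl x)
  have hfin : IsFiniteMeasure m := hm.1
  -- the null set
  obtain ⟨s, hs, hs1, hs2⟩ := Measure.mutuallySingular_singularPart m (volume : Measure ℝ)
  have hac : m.restrict s ≪ (volume : Measure ℝ) := by
    rw [m.haveLebesgueDecomposition_add (volume : Measure ℝ), Measure.restrict_add,
      Measure.restrict_eq_zero.2 hs1, zero_add]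
    exact (Measure.absolutelyContinuous_of_le Measure.restrict_le_self).trans
      (withDensity_absolutelyContinuous _ _)
  have hkm : Measurable fun E : ℝ => kap c E x ω := by
    unfold kap
    refine Measurable.liminf fun k => ?_
    exact (Complex.measurable_im.comp (MJ.gk_cont c ω k x x).measurable).ennreal_ofReal
  obtain ⟨S, hSd⟩ : ∃ S : Set ℝ, S = s ∩ {E | kap c E x ω ≤ (Λ : ℝ≥0∞)} := ⟨_, rfl⟩
  have hS : MeasurableSet S := by
    rw [hSd]
    exact hs.inter (measurableSet_le hkm measurable_const)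
  obtain ⟨P, hP1, hP2⟩ := restr T hT (dl x) m hm
  have hacS : m.restrict S ≪ (volume : Measure ℝ) := by
    refine (Measure.absolutelyContinuous_of_le ?_).trans hac
    apply Measure.restrict_mono _ le_rfl
    rw [hSd]
    exact Set.inter_subset_left
  rw [← hTd]
  refine ⟨P S, ⟨_, (hP1 _ hS).1, hacS⟩, ?_, ?_⟩
  · -- the sojourn bound
    intro y
    unfold Jn
    apply lintegral_mono_ae
    obtain ⟨my, hmy, -⟩ := spm_exists T hT (dl y)
    have hfy : IsFiniteMeasure my := hmy.1
    have h1 := qk_ae T hT (dl y) my hmy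
    have h2 := qk_ae T hT (P S) _ (hP1 _ hS).1
    have h3 := qk_ae T hT (dl x - P S) _ (hP1 _ hS).2
    have hx := qk_ae T hT (dl x) m hm
    have h4 := Measure.rnDeriv_restrict m (volume : Measure ℝ) hS
    have h5 := Measure.rnDeriv_restrict m (volume : Measure ℝ) hS.compl
    have h6 : ∀ᵐ E : ℝ, E ∈ s := by
      rw [ae_iff]
      exact hs2
    filter_upwards [h1, h2, h3, hx, h4, h5, h6] with E e1 e2 e3 ex e4 e5 e6
    -- boundedness
    obtain ⟨C, hC⟩ := e1.bddAbove_range
    have hqy : ∀ k, qk T E k (dl y) ≤ Real.sqrt C := by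
      intro k
      apply Real.le_sqrt_of_sq_le
      exact hC ⟨k, rfl⟩
    obtain ⟨Cx, hCx⟩ := ex.bddAbove_range
    have hqx : ∀ k, qk T E k (dl x) ≤ Real.sqrt Cx := by
      intro k
      apply Real.le_sqrt_of_sq_le
      exact hCx ⟨k, rfl⟩
    have hzero : ∀ v : L2 d, Tendsto (fun k => qk T E k v) atTop (𝓝 0) →
        Tendsto (fun k => kk T E k (dl y) v) atTop (𝓝 0) := by
      intro v hv
      have h7 : Tendsto (fun k => Real.sqrt C * qk T E k v) atTop (𝓝 0) := by
        simpa using hv.const_mul (Real.sqrt C)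
      refine squeeze_zero_norm (fun k => ?_) h7
      refine (GV.kk_le T E k (dl y) v).trans ?_
      exact mul_le_mul_of_nonneg_right (hqy k) (qk_nonneg T E k v)
    by_cases hE : E ∈ S
    · have hk : kap c E x ω ≤ (Λ : ℝ≥0∞) := by
        rw [hSd] at hE
        exact hE.2
      rw [if_pos hk]
      have h8 : Tendsto (fun k => qk T E k (dl x - P S)) atTop (𝓝 0) := by
        rw [SN.sq_zero _ (fun k => qk_nonneg T E k _)]
        rw [e5, Set.indicator_of_notMem (by simpa using hE)] at e3
        simpa using e3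
      have h9 := hzero _ h8
      have h10 : liminf (fun k => ‖kk T E k (dl y) (P S)‖ₑ ^ 2) atTop ≤
          liminf (fun k => ‖kk T E k (dl y) (dl x)‖ₑ ^ 2) atTop := by
        apply GV.liminf_le_of_sub (Real.sqrt C * Real.sqrt Cx)
        · intro k
          refine (GV.kk_le T E k (dl y) (dl x)).trans ?_
          exact mul_le_mul (hqy k) (hqx k) (qk_nonneg T E k _) (Real.sqrt_nonneg _)
        · have h11 := h9.neg
          rw [neg_zero] at h11
          refine h11.congr fun k => ?_
          rw [GV.kk_sub]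
          ring
      refine h10.trans (le_of_eq ?_)
      congr 1
      funext k
      have h12 : ‖kk T E k (dl y) (dl x)‖ₑ = ‖(Gk c ω E k x y).im‖ₑ := by
        rw [hTd, kk_dl, ← ofReal_norm, ← ofReal_norm, Complex.norm_real]
      rw [h12]
    · have h8 : Tendsto (fun k => qk T E k (P S)) atTop (𝓝 0) := by
        rw [SN.sq_zero _ (fun k => qk_nonneg T E k _)]
        rw [e4, Set.indicator_of_notMem hE] at e2
        simpa using e2
      have h9 : Tendsto (fun k => ‖kk T E k (dl y) (P S)‖ₑ ^ 2) atTop (𝓝 0) := by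
        have h10 := (hzero _ h8).enorm
        rw [enorm_zero] at h10
        have h11 := ENNReal.Tendsto.pow (n := 2) h10
        simpa using h11
      rw [h9.liminf_eq]
      exact bot_le
  · have h3 := qk_ae T hT (dl x - P S) _ (hP1 _ hS).2
    have h5 := Measure.rnDeriv_restrict m (volume : Measure ℝ) hS.compl
    have h6 : ∀ᵐ E : ℝ, E ∈ s := by
      rw [ae_iff]
      exact hs2
    filter_upwards [h3, h5, h6] with E e3 e5 e6 hk
    have hE : E ∈ S := by
      rw [hSd]
      exact ⟨e6, hk⟩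
    rw [SN.sq_zero _ (fun k => qk_nonneg T E k _)]
    rw [e5, Set.indicator_of_notMem (by simpa using hE)] at e3
    simpa using e3

end Pool.Agent.TH369.SJ
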