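import Pool.Agent.TH369.SJ.KUDefs
import Pool.Agent.TH369.AN.OP
import Pool.Agent.TH369.AN.RES
import Pool.Agent.TH369.MU.QB
import Pool.Agent.TH369.MU.MJ
import Pool.Agent.TH369.SJ.SM
import Pool.Agent.TH369.SJ.SO
import Pool.Agent.TH369.SJ.DC
import Pool.Agent.TH369.SJ.KU1
import Pool.Agent.TH369.SJ.KU2

/-!
# For a fixed potential the resolvent mass in small sets tends to zero (project KU)
-/

set_option autoImplicit false
open MeasureTheory Filter Topology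
open scoped InnerProductSpace ENNReal
namespace Pool.Agent.TH369.SJ
open Pool.Agent.TH369.AN Pool.Agent.TH369.MU
variable {d : ℕ}

namespace KU3

lemma min_add_le (a b : ℝ≥0∞) : min (a + b) 1 ≤ a + min b 1 := by
  rcases le_total b 1 with h | h
  · rw [min_eq_left h]
    exact min_le_left _ _
  · rw [min_eq_right h]
    exact (min_le_right _ _).trans le_add_self

lemma ent_cont (T : L2 d →L[ℂ] L2 d) (hT : IsSelfAdjoint T) (χ g : L2 d) (k : ℕ) :
    Continuous fun E : ℝ => ⟪χ, Rz T (zk E k) g⟫_ℂ := by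
  rw [continuous_iff_continuousAt]
  intro E
  have h := (rz_diff T hT χ g (zk E k) (MJ.zk_im_ne E k)).continuousAt
  have h2 : ContinuousAt (fun E : ℝ => zk E k) E := by
    unfold zk
    fun_prop
  exact ContinuousAt.comp (f := fun E : ℝ => zk E k) h h2

lemma sum_le (T : L2 d →L[ℂ] L2 d) (E : ℝ) (k : ℕ) (S : Finset (Zd d)) (v : L2 d) :
    ENNReal.ofReal (ep k) * ∑ y ∈ S, ‖⟪dl y, Rz T (zk E k) v⟫_ℂ‖ₑ ^ 2 ≤ ‖qk T E k v‖ₑ ^ 2 := by
  have h1 : ∑ y ∈ S, ‖⟪dl y, Rz T (zk E k) v⟫_ℂ‖ₑ ^ 2 ≤ ‖Rz T (zk E k) v‖ₑ ^ 2 := by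
    rw [← SM.tsum_enorm]
    simp only [inner_dl]
    exact ENNReal.sum_le_tsum S
  have h2 : ‖qk T E k v‖ₑ ^ 2 = ENNReal.ofReal (ep k) * ‖Rz T (zk E k) v‖ₑ ^ 2 := by
    have he : 0 ≤ ep k := (MJ.ep_pos k).le
    unfold qk
    rw [enorm_mul, mul_pow]
    congr 1
    · rw [← ofReal_norm, Real.norm_of_nonneg (Real.sqrt_nonneg _), ← ENNReal.ofReal_pow
        (Real.sqrt_nonneg _), Real.sq_sqrt he]
    · rw [enorm_norm]
  rw [h2]
  gcongr

lemma xs_le (c : ℝ) (ω : Zd d → ℝ) (E : ℝ) (k : ℕ) (S : Finset (Zd d)) (g : L2 d) :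
    Xs c ω E k S 0 ≤
      2 * (ENNReal.ofReal (ep k) *
        ∑ y ∈ S, ‖⟪dl y, Rz (TT (∅ : Finset (Zd d)) c ω) (zk E k) g⟫_ℂ‖ₑ ^ 2) +
      2 * ‖qk (TT (∅ : Finset (Zd d)) c ω) E k (dl 0 - g)‖ₑ ^ 2 := by
  set T := TT (∅ : Finset (Zd d)) c ω with hTd
  have h1 : Xs c ω E k S 0 ≤ ENNReal.ofReal (ep k) * ∑ y ∈ S,
      (2 * ‖⟪dl y, Rz T (zk E k) g⟫_ℂ‖ₑ ^ 2 + 2 * ‖⟪dl y, Rz T (zk E k) (dl 0 - g)⟫_ℂ‖ₑ ^ 2) := by
    unfold Xs
    gcongr with y hy
    have h2 : Gk c ω E k y 0 = ⟪dl y, Rz T (zk E k) g⟫_ℂ +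
        ⟪dl y, Rz T (zk E k) (dl 0 - g)⟫_ℂ := by
      unfold Gk
      rw [← inner_add_right, ← map_add, add_sub_cancel]
    rw [h2]
    exact SM.sq_le _ _
  refine h1.trans ?_
  rw [Finset.sum_add_distrib, ← Finset.mul_sum, ← Finset.mul_sum, mul_add]
  have h3 := sum_le T E k S (dl 0 - g)
  calc ENNReal.ofReal (ep k) * (2 * ∑ y ∈ S, ‖⟪dl y, Rz T (zk E k) g⟫_ℂ‖ₑ ^ 2) +
        ENNReal.ofReal (ep k) * (2 * ∑ y ∈ S, ‖⟪dl y, Rz T (zk E k) (dl 0 - g)⟫_ℂ‖ₑ ^ 2)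
      = 2 * (ENNReal.ofReal (ep k) * ∑ y ∈ S, ‖⟪dl y, Rz T (zk E k) g⟫_ℂ‖ₑ ^ 2) +
        2 * (ENNReal.ofReal (ep k) * ∑ y ∈ S, ‖⟪dl y, Rz T (zk E k) (dl 0 - g)⟫_ℂ‖ₑ ^ 2) := by
        ring
    _ ≤ _ := by gcongr

end KU3

theorem xs_point (c : ℝ) (hc : 0 ≤ c) (ω : Zd d → ℝ) (Λ : ℕ) (A : Set ℝ) (hA : MeasurableSet A)
    (hA2 : volume A ≠ ⊤) (S : ℕ → Finset (Zd d)) (s : ℕ → ℕ) (hs : StrictMono s)
    (hb : Tendsto (fun i => ENNReal.ofReal (ep (s i)) * ∑ y ∈ S (s i), Jn c ω Λ 0 y) atTop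
      (𝓝 0)) :
    Tendsto (fun i => ∫⁻ E in A, if kap c E 0 ω ≤ (Λ : ℝ≥0∞) then
      min (Xs c ω E (s i) (S (s i)) 0) 1 else 0) atTop (𝓝 0) := by
  have hT : IsSelfAdjoint (TT (∅ : Finset (Zd d)) c ω) := TT_sa ∅ c ω
  obtain ⟨g, hg1, hg2, hg3⟩ := gdec c hc ω 0 Λ
  set T := TT (∅ : Finset (Zd d)) c ω with hTd
  set a : ℕ → ℝ → ℝ≥0∞ := fun k E => 2 * (ENNReal.ofReal (ep k) *
    ∑ y ∈ S k, ‖⟪dl y, Rz T (zk E k) g⟫_ℂ‖ₑ ^ 2) with ha
  have ham : ∀ k, Measurable (a k) := fun k =>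
    ((Finset.measurable_sum _ fun y _ =>
      ((KU3.ent_cont T hT (dl y) g k).measurable.enorm.pow_const 2)).const_mul _).const_mul _
  set b : ℕ → ℝ → ℝ≥0∞ := fun k E => if kap c E 0 ω ≤ (Λ : ℝ≥0∞) then
    min (2 * ‖qk T E k (dl 0 - g)‖ₑ ^ 2) 1 else 0 with hbd
  -- the first part
  have h1 : ∀ k, ∫⁻ E in A, a k E ≤
      8 * (ENNReal.ofReal (ep k) * ∑ y ∈ S k, Jn c ω Λ 0 y) := by
    intro k
    have h2 : ∀ y, ∫⁻ E : ℝ, ‖⟪dl y, Rz T (zk E k) g⟫_ℂ‖ₑ ^ 2 ≤ 4 * Jn c ω Λ 0 y := by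
      intro y
      have hpi := Real.pi_pos
      calc ∫⁻ E : ℝ, ‖⟪dl y, Rz T (zk E k) g⟫_ℂ‖ₑ ^ 2
          ≤ ENNReal.ofReal (2 * Real.pi) * ∫⁻ t : ℝ, ‖⟪dl y, Ut T t g⟫_ℂ‖ₑ ^ 2 :=
            res_l2 T hT (dl y) g k
        _ ≤ ENNReal.ofReal (2 * Real.pi) * (ENNReal.ofReal (2 / Real.pi) * Jn c ω Λ 0 y) := by
            gcongr
            refine (soj T hT (dl y) g hg1).trans ?_
            gcongr
            exact hg2 y
        _ = 4 * Jn c ω Λ 0 y := by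
            rw [← mul_assoc, ← ENNReal.ofReal_mul (by positivity)]
            congr 1
            have : 2 * Real.pi * (2 / Real.pi) = 4 := by
              field_simp
              norm_num
            rw [this]
            simp
    calc ∫⁻ E in A, a k E ≤ ∫⁻ E : ℝ, a k E := setLIntegral_le_lintegral _ _
      _ = 2 * (ENNReal.ofReal (ep k) * ∑ y ∈ S k, ∫⁻ E : ℝ, ‖⟪dl y, Rz T (zk E k) g⟫_ℂ‖ₑ ^ 2) := by
          have hm : ∀ y ∈ S k, Measurable fun E : ℝ => ‖⟪dl y, Rz T (zk E k) g⟫_ℂ‖ₑ ^ 2 :=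
            fun y _ => (KU3.ent_cont T hT (dl y) g k).measurable.enorm.pow_const 2
          simp only [ha]
          rw [lintegral_const_mul _ ((Finset.measurable_sum _ hm).const_mul _),
            lintegral_const_mul _ (Finset.measurable_sum _ hm), lintegral_finsetSum _ hm]
      _ ≤ 2 * (ENNReal.ofReal (ep k) * ∑ y ∈ S k, 4 * Jn c ω Λ 0 y) := by
          gcongr with y hy
          exact h2 y
      _ = _ := by
          rw [← Finset.mul_sum]
          ring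
  have h1' : Tendsto (fun i => ∫⁻ E in A, a (s i) E) atTop (𝓝 0) := by
    have h2 := ENNReal.Tendsto.const_mul hb (Or.inr (by norm_num : (8 : ℝ≥0∞) ≠ ⊤))
    rw [mul_zero] at h2
    exact tendsto_of_tendsto_of_tendsto_of_le_of_le tendsto_const_nhds h2 (fun i => bot_le)
      (fun i => h1 (s i))
  -- the second part
  have h3 : Tendsto (fun i => ∫⁻ E in A, b (s i) E) atTop (𝓝 0) := by
    have hae : ∀ᵐ E ∂(volume.restrict A), Tendsto (fun i => b (s i) E) atTop (𝓝 0) := by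
      refine ae_restrict_of_ae ?_
      filter_upwards [hg3] with E hE
      by_cases hk : kap c E 0 ω ≤ (Λ : ℝ≥0∞)
      · simp only [hbd, hk, if_true]
        have h4 := ((hE hk).comp hs.tendsto_atTop).enorm
        rw [enorm_zero] at h4
        have h5 := ENNReal.Tendsto.const_mul (ENNReal.Tendsto.pow (n := 2) h4)
          (Or.inr (by norm_num : (2 : ℝ≥0∞) ≠ ⊤))
        have h6 : (2 : ℝ≥0∞) * 0 ^ 2 = 0 := by simp
        rw [h6] at h5
        exact tendsto_of_tendsto_of_tendsto_of_le_of_le tendsto_const_nhds h5 (fun i => bot_le)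
          (fun i => min_le_left _ _)
      · simp only [hbd, hk, if_false]
        exact tendsto_const_nhds
    choose u hum huf hu using fun i => exists_measurable_le_lintegral_eq (volume.restrict A)
      (b (s i))
    have key : Tendsto (fun i => ∫⁻ E in A, u i E) atTop (𝓝 (∫⁻ _E in A, (0 : ℝ≥0∞))) := by
      refine tendsto_lintegral_of_dominated_convergence (fun _ => 1) hum
        (fun i => Filter.Eventually.of_forall fun E => (huf i E).trans ?_) ?_ ?_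
      · simp only [hbd]
        split_ifs
        · exact min_le_right _ _
        · exact zero_le
      · rw [setLIntegral_const, one_mul]
        exact hA2
      · filter_upwards [hae] with E hE
        exact tendsto_of_tendsto_of_tendsto_of_le_of_le tendsto_const_nhds hE
          (fun i => bot_le) (fun i => huf i E)
    simp only [lintegral_zero] at key
    exact key.congr fun i => (hu i).symm
  -- together
  have h7 := h1'.add h3
  rw [add_zero] at h7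
  refine tendsto_of_tendsto_of_tendsto_of_le_of_le tendsto_const_nhds h7 (fun i => bot_le)
    fun i => ?_
  rw [← lintegral_add_left (ham (s i))]
  refine lintegral_mono fun E => ?_
  simp only [hbd]
  by_cases hk : kap c E 0 ω ≤ (Λ : ℝ≥0∞)
  · simp only [hk, if_true]
    exact (min_le_min_right 1 (KU3.xs_le c ω E (s i) (S (s i)) g)).trans (KU3.min_add_le _ _)
  · simp only [hk, if_false]
    exact bot_le

end Pool.Agent.TH369.SJ
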