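import Pool.Agent.TH369.SJ.KUDefs
import Pool.Agent.TH369.SJ.GS1
import Pool.Agent.TH369.SJ.JM
import Pool.Agent.TH369.SJ.P1
import Pool.Agent.TH369.SJ.SE
import Pool.Agent.TH369.SJ.DC
import Pool.Agent.TH369.SJ.KU3

/-!
# The truncated local masses vanish in the mean (project KU, piece KU3B, helper329)
-/

set_option autoImplicit false
open MeasureTheory Filter Topology
open scoped InnerProductSpace ENNReal
namespace Pool.Agent.TH369.SJ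
open Pool.Agent.TH369.AN Pool.Agent.TH369.MU
variable {d : ℕ}

namespace KU3B

/-- the bound tends to zero in the mean -/
theorem mean_zero (c : ℝ) (hc : 0 ≤ c) (μ : Measure ℝ) [IsProbabilityMeasure μ]
    (hμ : μ (Set.Icc (-c) c)ᶜ = 0) (hnd : ∀ x : ℝ, μ {x} ≠ 1) (Λ : ℕ) (M : ℝ)
    (S : ℕ → Finset (Zd d)) (hS : ∀ k, ((S k).card : ℝ) ≤ M * ((k : ℝ) + 1)) :
    Tendsto (fun k => ∫⁻ ω, (ENNReal.ofReal (ep k) * ∑ y ∈ S k, Jn c ω Λ 0 y) ∂(iid d μ))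
      atTop (𝓝 0) := by
  have : IsProbabilityMeasure (iid d μ) := DE.iid_prob μ
  have hM : 0 ≤ M := by
    have h1 := hS 0
    have h2 : (0 : ℝ) ≤ ((S 0).card : ℝ) := Nat.cast_nonneg _
    simp only [CharP.cast_eq_zero, zero_add, mul_one] at h1
    linarith
  have h1 : ∀ k, ∫⁻ ω, (ENNReal.ofReal (ep k) * ∑ y ∈ S k, Jn c ω Λ 0 y) ∂(iid d μ) =
      ENNReal.ofReal (ep k) * ∑ y ∈ S k, ∫⁻ ω, Jn c ω Λ 0 y ∂(iid d μ) := by
    intro k
    rw [lintegral_const_mul' _ _ ENNReal.ofReal_ne_top,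
      lintegral_finsetSum _ fun y _ => jn_meas c hc Λ 0 y]
  simp only [h1]
  have h2 := cesaro_s (fun y : Zd d => ∫⁻ ω, Jn c ω Λ 0 y ∂(iid d μ)) (Real.pi * Λ)
    (fun y => by
      calc ∫⁻ ω, Jn c ω Λ 0 y ∂(iid d μ) ≤ ∫⁻ _ω, ENNReal.ofReal (Real.pi * Λ) ∂(iid d μ) :=
            lintegral_mono fun ω => jn_le c hc ω Λ 0 y
        _ = ENNReal.ofReal (Real.pi * Λ) := by simp)
    (fun δ hδ => jn_zero c hc μ hμ hnd Λ δ hδ) M (fun τ => S (⌊τ⌋₊ - 1)) (by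
      filter_upwards [eventually_ge_atTop (1 : ℝ)] with τ hτ
      refine (hS _).trans ?_
      refine mul_le_mul_of_nonneg_left ?_ hM
      have h3 : 1 ≤ ⌊τ⌋₊ := (Nat.one_le_floor_iff τ).2 hτ
      have h4 : ((⌊τ⌋₊ - 1 : ℕ) : ℝ) + 1 = (⌊τ⌋₊ : ℝ) := by
        have : (⌊τ⌋₊ - 1) + 1 = ⌊τ⌋₊ := by omega
        exact_mod_cast congrArg (Nat.cast : ℕ → ℝ) this
      rw [h4]
      exact Nat.floor_le (by linarith))
  have h5 : Tendsto (fun k : ℕ => (k : ℝ) + 1) atTop atTop :=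
    tendsto_atTop_add_const_right _ _ tendsto_natCast_atTop_atTop
  refine (h2.comp h5).congr fun k => ?_
  have h6 : ⌊(k : ℝ) + 1⌋₊ - 1 = k := by
    have : ⌊((k + 1 : ℕ) : ℝ)⌋₊ = k + 1 := Nat.floor_natCast _
    push_cast at this
    omega
  simp only [Function.comp, h6]
  rfl

end KU3B

theorem xs_mean (c : ℝ) (hc : 0 ≤ c) (μ : Measure ℝ) [IsProbabilityMeasure μ]
    (hμ : μ (Set.Icc (-c) c)ᶜ = 0) (hnd : ∀ x : ℝ, μ {x} ≠ 1) (Λ : ℕ) (A : Set ℝ)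
    (hA : MeasurableSet A) (hA2 : volume A ≠ ⊤) (M : ℝ) (S : ℕ → Finset (Zd d))
    (hS : ∀ k, ((S k).card : ℝ) ≤ M * ((k : ℝ) + 1)) :
    Tendsto (fun k => ∫⁻ ω, (∫⁻ E in A, if kap c E 0 ω ≤ (Λ : ℝ≥0∞) then
      min (Xs c ω E k (S k) 0) 1 else 0) ∂(iid d μ)) atTop (𝓝 0) := by
  have hP : IsProbabilityMeasure (iid d μ) := DE.iid_prob μ
  set f : ℕ → (Zd d → ℝ) → ℝ≥0∞ := fun k ω => ∫⁻ E in A, if kap c E 0 ω ≤ (Λ : ℝ≥0∞) then
      min (Xs c ω E k (S k) 0) 1 else 0 with hf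
  set V : ℝ≥0∞ := volume A + 1 with hV
  have hV0 : V ≠ 0 := by rw [hV]; simp
  have hVt : V ≠ ⊤ := by rw [hV]; exact ENNReal.add_ne_top.2 ⟨hA2, ENNReal.one_ne_top⟩
  have hfV : ∀ k ω, f k ω ≤ V := by
    intro k ω
    calc f k ω ≤ ∫⁻ _E in A, 1 := by
          refine lintegral_mono fun E => ?_
          show (if kap c E 0 ω ≤ (Λ : ℝ≥0∞) then min (Xs c ω E k (S k) 0) 1 else 0) ≤ 1
          split_ifs
          · exact min_le_right _ _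
          · exact zero_le_one
      _ = volume A := by simp
      _ ≤ V := le_self_add
  refine tendsto_of_subseq_tendsto fun ns hns => ?_
  obtain ⟨φ, hφ, hφ2⟩ := strictMono_subseq_of_tendsto_atTop hns
  obtain ⟨s, hs, hs2⟩ := subseq (iid d μ)
    (fun _ i ω => ENNReal.ofReal (ep (ns (φ i))) * ∑ y ∈ S (ns (φ i)), Jn c ω Λ 0 y)
    (fun _ i => (Finset.measurable_fun_sum _ fun y _ => jn_meas c hc Λ 0 y).const_mul _)
    (fun _ => (KU3B.mean_zero c hc μ hμ hnd Λ M S hS).comp hφ2.tendsto_atTop)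
  refine ⟨fun i => φ (s i), ?_⟩
  have h1 : ∀ᵐ ω ∂(iid d μ), Tendsto (fun i => f (ns (φ (s i))) ω) atTop (𝓝 0) := by
    filter_upwards [hs2] with ω hω
    exact xs_point c hc ω Λ A hA hA2 S (fun i => ns (φ (s i))) (hφ2.comp hs) (hω 0)
  have h2 : Tendsto (fun i => ∫⁻ ω, V⁻¹ * f (ns (φ (s i))) ω ∂(iid d μ)) atTop (𝓝 0) := by
    refine dom_zero (iid d μ) (fun i ω => V⁻¹ * f (ns (φ (s i))) ω) (fun i ω => ?_) ?_
    · calc V⁻¹ * f (ns (φ (s i))) ω ≤ V⁻¹ * V := by gcongr; exact hfV _ _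
        _ = 1 := ENNReal.inv_mul_cancel hV0 hVt
    · filter_upwards [h1] with ω hω
      have h3 := ENNReal.Tendsto.const_mul (a := V⁻¹) hω (Or.inr (ENNReal.inv_ne_top.2 hV0))
      rwa [mul_zero] at h3
  have h4 := ENNReal.Tendsto.const_mul (a := V) h2 (Or.inr hVt)
  rw [mul_zero] at h4
  refine h4.congr fun i => ?_
  rw [lintegral_const_mul' _ _ (ENNReal.inv_ne_top.2 hV0), ← mul_assoc,
    ENNReal.mul_inv_cancel hV0 hVt, one_mul]

end Pool.Agent.TH369.SJ
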