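import Pool.Agent.TH369.SJ.KUDefs
import Pool.Agent.TH369.AN.OP
import Pool.Agent.TH369.MU.SY
import Pool.Agent.TH369.SJ.SM
import Pool.Agent.TH369.SJ.KG
import Pool.Agent.TH369.SJ.CE
set_option autoImplicit false
open MeasureTheory Filter Topology
open scoped InnerProductSpace ENNReal
namespace Pool.Agent.TH369.SJ
open Pool.Agent.TH369.AN Pool.Agent.TH369.MU
variable {d : ℕ}

namespace KU4

/-- the mass at the site `0` -/
lemma mass_eq (c : ℝ) (ω : Zd d → ℝ) (E : ℝ) (k : ℕ) :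
    ENNReal.ofReal (Gk c ω E k 0 0).im =
      ENNReal.ofReal (ep k) * ∑' y : Zd d, ‖Gk c ω E k y 0‖ₑ ^ 2 := by
  have hep : 0 ≤ ep k := by unfold ep; positivity
  rw [KG.gk_norm, ENNReal.ofReal_mul hep]
  congr 1
  have h1 := SM.tsum_enorm (Rz (TT (∅ : Finset (Zd d)) c ω) (zk E k) (dl (0 : Zd d)))
  rw [ENNReal.ofReal_pow (norm_nonneg _), ofReal_norm, ← h1]
  refine tsum_congr fun y => ?_
  unfold Gk
  rw [inner_dl]

lemma split (a w : Zd d → ℝ≥0∞) (S : Finset (Zd d)) (t : ℝ≥0∞)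
    (h : ∀ y, y ∉ S → 1 ≤ t * w y) : ∑' y, a y ≤ ∑ y ∈ S, a y + t * ∑' y, w y * a y := by
  classical
  have h1 : ∀ y, a y ≤ (if y ∈ S then a y else 0) + t * (w y * a y) := by
    intro y
    by_cases hy : y ∈ S
    · rw [if_pos hy]
      exact le_self_add
    · rw [if_neg hy, zero_add, ← mul_assoc]
      calc a y = 1 * a y := (one_mul _).symm
        _ ≤ t * w y * a y := mul_le_mul_left (h y hy) _
  refine (ENNReal.tsum_le_tsum h1).trans ?_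
  rw [ENNReal.tsum_add, ENNReal.tsum_mul_left]
  refine add_le_add ?_ le_rfl
  rw [tsum_eq_sum (s := S) (fun y hy => if_neg hy), Finset.sum_congr rfl (fun y hy => if_pos hy)]

lemma ep_rpow (p : ℝ) (k N : ℕ) (hN : 0 < N) :
    ep k * ((N : ℝ) * ((k : ℝ) + 1) ^ ((1 : ℝ) / d)) ^ (-p) =
      (N : ℝ) ^ (-p) * ep k ^ (1 + p / d) := by
  have ha : (0 : ℝ) < (k : ℝ) + 1 := by positivity
  obtain ⟨a, haa⟩ : ∃ a : ℝ, a = (k : ℝ) + 1 := ⟨_, rfl⟩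
  have hN0 : (0 : ℝ) ≤ (N : ℝ) := Nat.cast_nonneg N
  unfold ep
  rw [← haa] at ha ⊢
  have h1 : 1 / a = a ^ (-1 : ℝ) := by rw [Real.rpow_neg_one, one_div]
  rw [h1, Real.mul_rpow hN0 (Real.rpow_nonneg ha.le _), ← Real.rpow_mul ha.le, ← Real.rpow_mul ha.le]
  have h2 : a ^ (-1 * (1 + p / d)) = a ^ (-1 : ℝ) * a ^ ((1 : ℝ) / d * -p) := by
    rw [← Real.rpow_add ha]
    congr 1
    ring
  rw [h2]
  ring

end KU4

theorem mass (hd : 0 < d) (p : ℝ) (hp : 0 < p) (c : ℝ) (ω : Zd d → ℝ) (E : ℝ) (k N : ℕ)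
    (hN : 0 < N) :
    ENNReal.ofReal (Gk c ω E k 0 0).im ≤
      Xs c ω E k (CE.box d ((N : ℝ) * ((k : ℝ) + 1) ^ ((1 : ℝ) / d))) 0 +
        ENNReal.ofReal ((N : ℝ) ^ (-p)) * Zp p c ω E k := by
  obtain ⟨R, hR⟩ : ∃ R : ℝ, R = (N : ℝ) * ((k : ℝ) + 1) ^ ((1 : ℝ) / d) := ⟨_, rfl⟩
  have hN0 : (0 : ℝ) < N := by exact_mod_cast hN
  have hR0 : 0 < R := by
    rw [hR]
    exact mul_pos hN0 (Real.rpow_pos_of_pos (by positivity) _)
  have hep : 0 ≤ ep k := by unfold ep; positivity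
  have h1 := KU4.split (fun y => ‖Gk c ω E k y 0‖ₑ ^ 2) (fun y => ENNReal.ofReal (‖y‖ ^ p))
    (CE.box d R) (ENNReal.ofReal (R ^ (-p))) (by
      intro y hy
      have h2 : R < ‖y‖ := by
        by_contra hcon
        exact hy (CE.mem_box hR0.le (not_lt.1 hcon))
      rw [← ENNReal.ofReal_mul (Real.rpow_nonneg hR0.le _)]
      rw [ENNReal.one_le_ofReal, Real.rpow_neg hR0.le, ← div_eq_inv_mul,
        one_le_div (Real.rpow_pos_of_pos hR0 _)]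
      exact Real.rpow_le_rpow hR0.le h2.le hp.le)
  rw [KU4.mass_eq, ← hR]
  unfold Xs Zp
  have h3 := KU4.ep_rpow (d := d) p k N hN
  rw [← hR] at h3
  calc ENNReal.ofReal (ep k) * ∑' y : Zd d, ‖Gk c ω E k y 0‖ₑ ^ 2
      ≤ ENNReal.ofReal (ep k) * (∑ y ∈ CE.box d R, ‖Gk c ω E k y 0‖ₑ ^ 2 +
        ENNReal.ofReal (R ^ (-p)) *
          ∑' y : Zd d, ENNReal.ofReal (‖y‖ ^ p) * ‖Gk c ω E k y 0‖ₑ ^ 2) :=
        mul_le_mul_right h1 _
    _ = ENNReal.ofReal (ep k) * ∑ y ∈ CE.box d R, ‖Gk c ω E k y 0‖ₑ ^ 2 +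
        ENNReal.ofReal ((N : ℝ) ^ (-p)) * (ENNReal.ofReal (ep k ^ (1 + p / d)) *
          ∑' y : Zd d, ENNReal.ofReal (‖y‖ ^ p) * ‖Gk c ω E k y 0‖ₑ ^ 2) := by
        rw [mul_add, ← mul_assoc, ← mul_assoc, ← ENNReal.ofReal_mul hep, h3,
          ENNReal.ofReal_mul (Real.rpow_nonneg hN0.le _)]

end Pool.Agent.TH369.SJ
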