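import Pool.Agent.TH369.SJ.KUDefs
import Pool.Agent.TH369.MU.SM
import Pool.Agent.TH369.MU.MJ
import Pool.Agent.TH369.MU.GA
import Pool.Agent.TH369.MU.SE
import Pool.Agent.TH369.SJ.KG
import Pool.Agent.TH369.SJ.CE
import Pool.Agent.TH369.SJ.KU3B
import Pool.Agent.TH369.SJ.KU4

/-!
# The density vanishes where the conductivity is finite
-/

set_option autoImplicit false
open MeasureTheory Filter Topology
open scoped InnerProductSpace ENNReal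
namespace Pool.Agent.TH369.SJ

namespace KU5

theorem core1 {Ω : Type} [MeasurableSpace Ω] (P : Measure Ω) [IsProbabilityMeasure P]
    (G Z : ℕ → Ω × ℝ → ℝ≥0∞) (X : ℕ → ℕ → Ω × ℝ → ℝ≥0∞) (C : ℕ → ℝ≥0∞)
    (hG : ∀ k, Measurable (G k)) (hZ : ∀ k, Measurable (Z k))
    (hC : Tendsto C atTop (𝓝 0))
    (mass : ∀ N k z, G k z ≤ X N k z + C N * Z k z)
    (xs : ∀ (N Λ : ℕ) (B : Set ℝ), MeasurableSet B → volume B ≠ ⊤ →
      Tendsto (fun k => ∫⁻ ω, (∫⁻ E in B, if liminf (fun k => G k (ω, E)) atTop ≤ (Λ : ℝ≥0∞) then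
        min (X N k (ω, E)) 1 else 0) ∂P) atTop (𝓝 0))
    (n : ℕ) (D : ℝ≥0∞) (hD : D ≠ ⊤) (B : Set ℝ) (hB : MeasurableSet B) (hB2 : volume B ≠ ⊤)
    (hDB : ∀ E ∈ B, ∀ k, n ≤ k → ∫⁻ ω, Z k (ω, E) ∂P ≤ D) (Λ : ℕ) :
    ∫⁻ z, (if liminf (fun k => G k z) atTop ≤ (Λ : ℝ≥0∞) then
      min (liminf (fun k => G k z) atTop) 1 else 0) ∂(P.prod (volume.restrict B)) = 0 := by
  obtain ⟨κ, hκd⟩ : ∃ κ : Ω × ℝ → ℝ≥0∞, κ = fun z => liminf (fun k => G k z) atTop := ⟨_, rfl⟩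
  have hκ : Measurable κ := by
    rw [hκd]
    exact Measurable.liminf hG
  have hκz : ∀ z, liminf (fun k => G k z) atTop = κ z := fun z => by rw [hκd]
  simp only [hκz] at xs ⊢
  obtain ⟨f, hf⟩ : ∃ f : ℕ → Ω × ℝ → ℝ≥0∞,
      f = fun k z => if κ z ≤ (Λ : ℝ≥0∞) then min (G k z) 1 else 0 := ⟨_, rfl⟩
  have hfm : ∀ k, Measurable (f k) := by
    intro k
    rw [hf]
    exact Measurable.ite (measurableSet_le hκ measurable_const)
      ((hG k).min measurable_const) measurable_const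
  have hlim : ∀ z, (if κ z ≤ (Λ : ℝ≥0∞) then min (κ z) 1 else 0) =
      liminf (fun k => f k z) atTop := by
    intro z
    rw [hf]
    by_cases hz : κ z ≤ (Λ : ℝ≥0∞)
    · simp only [hz, if_true]
      have hmono : Monotone (fun x : ℝ≥0∞ => min x 1) := fun a b hab => min_le_min_right 1 hab
      have h1 := hmono.map_liminf_of_continuousAt (F := atTop) (fun k => G k z)
        (by fun_prop)
      rw [hκz z] at h1
      exact h1
    · simp only [hz, if_false]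
      exact (liminf_const (0 : ℝ≥0∞)).symm
  simp only [hlim]
  have hKt : D * volume B ≠ ⊤ := ENNReal.mul_ne_top hD hB2
  have hbound : ∀ N : ℕ, ∫⁻ z, liminf (fun k => f k z) atTop ∂(P.prod (volume.restrict B)) ≤
      C N * (D * volume B) := by
    intro N
    refine (lintegral_liminf_le hfm).trans ?_
    have h1 : ∀ᶠ k in atTop, ∫⁻ z, f k z ∂(P.prod (volume.restrict B)) ≤
        (∫⁻ ω, (∫⁻ E in B, if κ (ω, E) ≤ (Λ : ℝ≥0∞) then
          min (X N k (ω, E)) 1 else 0) ∂P) + C N * (D * volume B) := by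
      filter_upwards [eventually_ge_atTop n] with k hk
      rw [lintegral_prod _ (hfm k).aemeasurable]
      have h2 : ∀ ω, ∫⁻ E in B, f k (ω, E) ≤
          (∫⁻ E in B, if κ (ω, E) ≤ (Λ : ℝ≥0∞) then min (X N k (ω, E)) 1 else 0) +
            ∫⁻ E in B, C N * Z k (ω, E) := by
        intro ω
        have hmz : Measurable fun E : ℝ => C N * Z k (ω, E) :=
          ((hZ k).comp measurable_prodMk_left).const_mul (C N)
        rw [← lintegral_add_right _ hmz]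
        apply lintegral_mono
        intro E
        rw [hf]
        show (if κ (ω, E) ≤ (Λ : ℝ≥0∞) then min (G k (ω, E)) 1 else 0) ≤
          (if κ (ω, E) ≤ (Λ : ℝ≥0∞) then min (X N k (ω, E)) 1 else 0) + C N * Z k (ω, E)
        split_ifs with hz
        · have h3 := mass N k (ω, E)
          rcases le_total (X N k (ω, E)) 1 with h4 | h4
          · rw [min_eq_left h4]
            exact (min_le_left _ _).trans h3
          · rw [min_eq_right h4]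
            exact (min_le_right _ _).trans le_self_add
        · exact bot_le
      refine (lintegral_mono h2).trans ?_
      have hm2 : Measurable fun z : Ω × ℝ => C N * Z k z := (hZ k).const_mul (C N)
      have hm3 : Measurable fun ω => ∫⁻ E in B, C N * Z k (ω, E) :=
        hm2.lintegral_prod_right'
      rw [lintegral_add_right _ hm3]
      apply add_le_add le_rfl
      have h5 : ∫⁻ ω, (∫⁻ E in B, C N * Z k (ω, E)) ∂P =
          ∫⁻ E in B, (∫⁻ ω, C N * Z k (ω, E) ∂P) :=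
        lintegral_lintegral_swap hm2.aemeasurable
      have h6 : ∀ E, ∫⁻ ω, C N * Z k (ω, E) ∂P = C N * ∫⁻ ω, Z k (ω, E) ∂P := by
        intro E
        exact lintegral_const_mul _ ((hZ k).comp measurable_prodMk_right)
      rw [h5]
      simp only [h6]
      rw [lintegral_const_mul _ ((hZ k).lintegral_prod_left')]
      apply mul_le_mul_right
      calc ∫⁻ E in B, (∫⁻ ω, Z k (ω, E) ∂P) ≤ ∫⁻ _ in B, D :=
            setLIntegral_mono' hB (fun E hE => hDB E hE k hk)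
        _ = D * volume B := by rw [setLIntegral_const]
    refine (liminf_le_liminf h1).trans ?_
    have h2 := (xs N Λ B hB hB2).add_const (C N * (D * volume B))
    rw [zero_add] at h2
    exact h2.liminf_eq.le
  have h3 : Tendsto (fun N => C N * (D * volume B)) atTop (𝓝 (0 * (D * volume B))) :=
    ENNReal.Tendsto.mul_const hC (Or.inr hKt)
  rw [zero_mul] at h3
  exact le_antisymm (ge_of_tendsto' h3 hbound) bot_le

theorem core {Ω : Type} [MeasurableSpace Ω] (P : Measure Ω) [IsProbabilityMeasure P]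
    (G Z : ℕ → Ω × ℝ → ℝ≥0∞) (X : ℕ → ℕ → Ω × ℝ → ℝ≥0∞) (C : ℕ → ℝ≥0∞) (A : Set ℝ)
    (hG : ∀ k, Measurable (G k)) (hZ : ∀ k, Measurable (Z k)) (hA : MeasurableSet A)
    (hC : Tendsto C atTop (𝓝 0))
    (mass : ∀ N k z, G k z ≤ X N k z + C N * Z k z)
    (xs : ∀ (N Λ : ℕ) (B : Set ℝ), MeasurableSet B → volume B ≠ ⊤ →
      Tendsto (fun k => ∫⁻ ω, (∫⁻ E in B, if liminf (fun k => G k (ω, E)) atTop ≤ (Λ : ℝ≥0∞) then
        min (X N k (ω, E)) 1 else 0) ∂P) atTop (𝓝 0))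
    (hfin : ∀ ω, ∀ᵐ E : ℝ, liminf (fun k => G k (ω, E)) atTop < ⊤)
    (h : ∀ᵐ E : ℝ, E ∈ A → limsup (fun k => ∫⁻ ω, Z k (ω, E) ∂P) atTop ≠ ⊤) :
    ∀ᵐ ω ∂P, ∀ᵐ E : ℝ, E ∈ A → liminf (fun k => G k (ω, E)) atTop = 0 := by
  obtain ⟨B, hBd⟩ : ∃ B : ℕ → Set ℝ, B = fun n : ℕ => (A ∩ Set.Icc (-(n : ℝ)) n) ∩
      ⋂ k : ℕ, ⋂ (_ : n ≤ k), {E : ℝ | ∫⁻ ω, Z k (ω, E) ∂P ≤ (n : ℝ≥0∞)} := ⟨_, rfl⟩
  have hBm : ∀ n, MeasurableSet (B n) := by
    intro n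
    rw [hBd]
    refine (hA.inter measurableSet_Icc).inter ?_
    refine MeasurableSet.iInter fun k => MeasurableSet.iInter fun _ => ?_
    exact measurableSet_le ((hZ k).lintegral_prod_left') measurable_const
  have hBv : ∀ n, volume (B n) ≠ ⊤ := by
    intro n
    have h1 : B n ⊆ Set.Icc (-(n : ℝ)) n := by
      rw [hBd]
      exact fun E hE => hE.1.2
    exact ((measure_mono h1).trans_lt measure_Icc_lt_top).ne
  have hBD : ∀ n, ∀ E ∈ B n, ∀ k, n ≤ k → ∫⁻ ω, Z k (ω, E) ∂P ≤ (n : ℝ≥0∞) := by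
    intro n E hE k hk
    rw [hBd] at hE
    have h1 := hE.2
    simp only [Set.mem_iInter] at h1
    exact h1 k hk
  have hκm : Measurable fun z : Ω × ℝ => liminf (fun k => G k z) atTop := Measurable.liminf hG
  have hmain : ∀ n Λ : ℕ, ∀ᵐ ω ∂P, ∀ᵐ E : ℝ, E ∈ B n →
      liminf (fun k => G k (ω, E)) atTop ≤ (Λ : ℝ≥0∞) →
      liminf (fun k => G k (ω, E)) atTop = 0 := by
    intro n Λ
    have h0 := core1 P G Z X C hG hZ hC mass xs n (n : ℝ≥0∞) (ENNReal.natCast_ne_top n) (B n)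
      (hBm n) (hBv n) (hBD n) Λ
    have hm : Measurable fun z : Ω × ℝ => (if liminf (fun k => G k z) atTop ≤ (Λ : ℝ≥0∞) then
      min (liminf (fun k => G k z) atTop) 1 else 0) :=
      Measurable.ite (measurableSet_le hκm measurable_const)
        (hκm.min measurable_const) measurable_const
    rw [lintegral_eq_zero_iff hm] at h0
    have h1 := Measure.ae_ae_of_ae_prod h0
    filter_upwards [h1] with ω hω
    rw [ae_restrict_iff' (hBm n)] at hω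
    filter_upwards [hω] with E hE hEB hΛ
    have h2 := hE hEB
    simp only [hΛ, if_true, Pi.zero_apply] at h2
    rcases min_eq_iff.1 h2 with h3 | h3
    · exact h3.1
    · exact absurd h3.1 one_ne_zero
  have hall : ∀ᵐ ω ∂P, ∀ n Λ : ℕ, ∀ᵐ E : ℝ, E ∈ B n →
      liminf (fun k => G k (ω, E)) atTop ≤ (Λ : ℝ≥0∞) →
      liminf (fun k => G k (ω, E)) atTop = 0 :=
    ae_all_iff.2 fun n => ae_all_iff.2 fun Λ => hmain n Λ
  have hcov : ∀ᵐ E : ℝ, E ∈ A → ∃ n, E ∈ B n := by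
    filter_upwards [h] with E hE hEA
    have h1 := hE hEA
    obtain ⟨b, hb⟩ := ENNReal.exists_nat_gt h1
    have h2 := eventually_lt_of_limsup_lt hb
    obtain ⟨K, hK⟩ := eventually_atTop.1 h2
    obtain ⟨r, hr⟩ := exists_nat_ge |E|
    refine ⟨max K (max b r), ?_⟩
    rw [hBd]
    have hr2 : |E| ≤ ((max K (max b r) : ℕ) : ℝ) :=
      hr.trans (by exact_mod_cast (le_max_right b r).trans (le_max_right K _))
    refine ⟨⟨hEA, (abs_le.1 hr2).1, (abs_le.1 hr2).2⟩, ?_⟩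
    simp only [Set.mem_iInter]
    intro k hk
    have h3 := hK k ((le_max_left _ _).trans hk)
    refine h3.le.trans ?_
    exact_mod_cast (le_max_left b r).trans (le_max_right K _)
  filter_upwards [hall] with ω hω
  have hω2 : ∀ᵐ E : ℝ, ∀ n Λ : ℕ, E ∈ B n →
      liminf (fun k => G k (ω, E)) atTop ≤ (Λ : ℝ≥0∞) →
      liminf (fun k => G k (ω, E)) atTop = 0 :=
    ae_all_iff.2 fun n => ae_all_iff.2 fun Λ => hω n Λ
  filter_upwards [hω2, hcov, hfin ω] with E h1 h2 h3 hEA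
  obtain ⟨n, hn⟩ := h2 hEA
  obtain ⟨Λ, hΛ⟩ := ENNReal.exists_nat_gt h3.ne
  exact h1 n Λ hn hΛ.le

theorem core2 {Ω : Type} [MeasurableSpace Ω] (P : Measure Ω) [IsProbabilityMeasure P]
    (G Z : ℕ → Ω × ℝ → ℝ≥0∞) (X : ℕ → ℕ → Ω × ℝ → ℝ≥0∞) (C : ℕ → ℝ≥0∞) (A : Set ℝ)
    (κ : Ω × ℝ → ℝ≥0∞) (hκ : ∀ z, κ z = liminf (fun k => G k z) atTop)
    (hG : ∀ k, Measurable (G k)) (hZ : ∀ k, Measurable (Z k)) (hA : MeasurableSet A)
    (hC : Tendsto C atTop (𝓝 0))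
    (mass : ∀ N k z, G k z ≤ X N k z + C N * Z k z)
    (xs : ∀ (N Λ : ℕ) (B : Set ℝ), MeasurableSet B → volume B ≠ ⊤ →
      Tendsto (fun k => ∫⁻ ω, (∫⁻ E in B, if κ (ω, E) ≤ (Λ : ℝ≥0∞) then
        min (X N k (ω, E)) 1 else 0) ∂P) atTop (𝓝 0))
    (hfin : ∀ ω, ∀ᵐ E : ℝ, κ (ω, E) < ⊤)
    (h : ∀ᵐ E : ℝ, E ∈ A → limsup (fun k => ∫⁻ ω, Z k (ω, E) ∂P) atTop ≠ ⊤) :
    ∀ᵐ ω ∂P, ∀ᵐ E : ℝ, E ∈ A → κ (ω, E) = 0 := by
  obtain rfl : κ = fun z => liminf (fun k => G k z) atTop := funext hκ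
  exact core P G Z X C A hG hZ hA hC mass xs hfin h

/-- the size of the box -/
theorem card_le (d : ℕ) (hd : 0 < d) (N : ℕ) (k : ℕ) :
    ((CE.box d (((N + 1 : ℕ) : ℝ) * ((k : ℝ) + 1) ^ ((1 : ℝ) / d))).card : ℝ) ≤
      (2 * ((N + 1 : ℕ) : ℝ) + 1) ^ d * ((k : ℝ) + 1) := by
  have hk : (0 : ℝ) < (k : ℝ) + 1 := by positivity
  have hr0 : (0 : ℝ) ≤ ((k : ℝ) + 1) ^ ((1 : ℝ) / d) := by positivity
  have hr1 : (1 : ℝ) ≤ ((k : ℝ) + 1) ^ ((1 : ℝ) / d) :=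
    Real.one_le_rpow (by linarith [Nat.cast_nonneg (α := ℝ) k]) (by positivity)
  have h1 := CE.card_box (d := d) (R := ((N + 1 : ℕ) : ℝ) * ((k : ℝ) + 1) ^ ((1 : ℝ) / d))
    (by positivity)
  refine h1.trans ?_
  have h2 : 2 * (((N + 1 : ℕ) : ℝ) * ((k : ℝ) + 1) ^ ((1 : ℝ) / d)) + 1 ≤
      (2 * ((N + 1 : ℕ) : ℝ) + 1) * ((k : ℝ) + 1) ^ ((1 : ℝ) / d) := by nlinarith
  refine (pow_le_pow_left₀ (by positivity) h2 d).trans ?_
  rw [mul_pow]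
  have h3 : (((k : ℝ) + 1) ^ ((1 : ℝ) / d)) ^ d = (k : ℝ) + 1 := by
    rw [← Real.rpow_natCast, ← Real.rpow_mul hk.le]
    have hd' : (d : ℝ) ≠ 0 := by exact_mod_cast hd.ne'
    rw [one_div, inv_mul_cancel₀ hd', Real.rpow_one]
  rw [h3]

end KU5

open Pool.Agent.TH369.AN Pool.Agent.TH369.MU
variable {d : ℕ}

theorem KU5.measZ (p c : ℝ) (hc : 0 ≤ c) (k : ℕ) :
    Measurable fun z : (Zd d → ℝ) × ℝ => Zp p c z.1 z.2 k := by
  unfold Zp
  refine Measurable.const_mul ?_ _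
  refine Measurable.tsum fun y => ?_
  refine Measurable.const_mul ?_ _
  exact ((gk_meas2 c hc k y 0).enorm).pow_const 2

theorem KU5.measG (c : ℝ) (hc : 0 ≤ c) (k : ℕ) :
    Measurable fun z : (Zd d → ℝ) × ℝ => ENNReal.ofReal (Gk c z.1 z.2 k 0 0).im :=
  (GA.meas_im c hc k 0).ennreal_ofReal

theorem KU5.limC (p : ℝ) (hp : 0 < p) :
    Tendsto (fun N : ℕ => ENNReal.ofReal (((N + 1 : ℕ) : ℝ) ^ (-p))) atTop (𝓝 0) := by
  have h1 : Tendsto (fun N : ℕ => ((N + 1 : ℕ) : ℝ) ^ (-p)) atTop (𝓝 0) :=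
    (tendsto_rpow_neg_atTop hp).comp
      (tendsto_natCast_atTop_atTop.comp (tendsto_add_atTop_nat 1))
  have h2 := ENNReal.tendsto_ofReal h1
  rwa [ENNReal.ofReal_zero] at h2

theorem KU5.fin1 (c : ℝ) (ω : Zd d → ℝ) : ∫⁻ E : ℝ, kap c E 0 ω ≠ ⊤ := by
  obtain ⟨m, hm, -⟩ := spm_exists (TT (∅ : Finset (Zd d)) c ω) (TT_sa ∅ c ω) (dl 0)
  have h1 := (kap_ae c ω 0 m hm).2.2
  exact (h1.trans_lt ENNReal.ofReal_lt_top).ne

theorem KU5.fin2 (c : ℝ) (hc : 0 ≤ c) (ω : Zd d → ℝ) :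
    Measurable fun E : ℝ => kap c E 0 ω := by
  have h := (GA.meas_kap (d := d) c hc 0).comp (measurable_prodMk_left (x := ω))
  exact h

theorem KU5.fin3 (c : ℝ) (ω : Zd d → ℝ) (h2 : ∫⁻ E : ℝ, kap c E 0 ω ≠ ⊤)
    (h3 : Measurable fun E : ℝ => kap c E 0 ω) : ∀ᵐ E : ℝ, kap c E 0 ω < ⊤ := by
  exact ae_lt_top h3 h2

theorem kap_zero (hd : 0 < d) (c : ℝ) (hc : 0 ≤ c) (μ : Measure ℝ) [IsProbabilityMeasure μ]
    (hμ : μ (Set.Icc (-c) c)ᶜ = 0) (hnd : ∀ x : ℝ, μ {x} ≠ 1) (p : ℝ) (hp : 0 < p) (A : Set ℝ)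
    (hA : MeasurableSet A)
    (h : ∀ᵐ E : ℝ, E ∈ A → limsup (fun k => ∫⁻ ω, Zp p c ω E k ∂(iid d μ)) atTop ≠ ⊤) :
    ∀ᵐ ω ∂(iid d μ), ∀ᵐ E : ℝ, E ∈ A → kap c E 0 ω = 0 := by
  have hP : IsProbabilityMeasure (iid d μ) := by unfold iid; infer_instance
  obtain ⟨X, hX⟩ : ∃ X : ℕ → ℕ → (Zd d → ℝ) × ℝ → ℝ≥0∞, X = fun N k z => Xs c z.1 z.2 k
      (CE.box d (((N + 1 : ℕ) : ℝ) * ((k : ℝ) + 1) ^ ((1 : ℝ) / d))) 0 := ⟨_, rfl⟩
  obtain ⟨κ, hκ⟩ : ∃ κ : (Zd d → ℝ) × ℝ → ℝ≥0∞, κ = fun z => kap c z.2 0 z.1 := ⟨_, rfl⟩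
  have h1 : ∀ (N k : ℕ) (z : (Zd d → ℝ) × ℝ), ENNReal.ofReal (Gk c z.1 z.2 k 0 0).im ≤
      X N k z + ENNReal.ofReal (((N + 1 : ℕ) : ℝ) ^ (-p)) * Zp p c z.1 z.2 k := by
    intro N k z
    rw [hX]
    exact mass hd p hp c z.1 z.2 k (N + 1) (Nat.succ_pos N)
  have h2 : ∀ (N Λ : ℕ) (B : Set ℝ), MeasurableSet B → volume B ≠ ⊤ →
      Tendsto (fun k => ∫⁻ ω, (∫⁻ E in B, if κ (ω, E) ≤ (Λ : ℝ≥0∞) then
        min (X N k (ω, E)) 1 else 0) ∂(iid d μ)) atTop (𝓝 0) := by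
    intro N Λ B hB hB2
    rw [hX, hκ]
    exact xs_mean c hc μ hμ hnd Λ B hB hB2 ((2 * ((N + 1 : ℕ) : ℝ) + 1) ^ d)
      (fun k => CE.box d (((N + 1 : ℕ) : ℝ) * ((k : ℝ) + 1) ^ ((1 : ℝ) / d)))
      (fun k => KU5.card_le d hd N k)
  have h3 : ∀ z : (Zd d → ℝ) × ℝ, κ z =
      liminf (fun k => ENNReal.ofReal (Gk c z.1 z.2 k 0 0).im) atTop := by
    intro z
    rw [hκ]
    rfl
  have h4 : ∀ ω, ∀ᵐ E : ℝ, κ (ω, E) < ⊤ := by
    intro ω
    rw [hκ]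
    exact KU5.fin3 c ω (KU5.fin1 c ω) (KU5.fin2 c hc ω)
  have h5 := KU5.core2 (iid d μ) (fun k z => ENNReal.ofReal (Gk c z.1 z.2 k 0 0).im)
    (fun k z => Zp p c z.1 z.2 k) X (fun N => ENNReal.ofReal (((N + 1 : ℕ) : ℝ) ^ (-p))) A κ h3
    (fun k => KU5.measG c hc k) (fun k => KU5.measZ p c hc k) hA (KU5.limC p hp) h1 h2 h4 h
  rw [hκ] at h5
  exact h5

end Pool.Agent.TH369.SJ
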