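import Pool.Agent.TH369.SJ.KUDefs
import Pool.Agent.TH369.AN.OP
import Pool.Agent.TH369.MU.SM
import Pool.Agent.TH369.MU.QA
import Pool.Agent.TH369.MU.SN
import Pool.Agent.TH369.MU.SH
import Pool.Agent.TH369.MU.SE
import Pool.Agent.TH369.MU.F2
import Pool.Agent.TH369.SJ.KG

/-!
# From one site to all vectors
(job KU-KU6 of helper369, written by helper570)
-/

set_option autoImplicit false
open MeasureTheory Filter Topology
open scoped InnerProductSpace ENNReal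
namespace Pool.Agent.TH369.SJ
open Pool.Agent.TH369.AN Pool.Agent.TH369.MU
variable {d : ℕ}

namespace KU6

/-- if the density of the site `x` vanishes a.e. on `A`, then `qk` of the site tends to zero -/
theorem site (c : ℝ) (ω : Zd d → ℝ) (A : Set ℝ) (x : Zd d)
    (h : ∀ᵐ E : ℝ, E ∈ A → kap c E x ω = 0) : ∀ᵐ E : ℝ, E ∈ A →
      Tendsto (fun k => qk (TT (∅ : Finset (Zd d)) c ω) E k (dl x)) atTop (𝓝 0) := by
  obtain ⟨m, hm, -⟩ := spm_exists (TT (∅ : Finset (Zd d)) c ω) (TT_sa _ c ω) (dl x)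
  filter_upwards [h, (kap_ae c ω x m hm).1, qk_ae _ (TT_sa _ c ω) (dl x) m hm] with E h1 h2 h3 hE
  rw [SN.sq_zero _ (fun k => SN.nonneg _ E k (dl x))]
  have h4 : m.rnDeriv volume E = 0 := by
    rw [h1 hE] at h2
    rcases mul_eq_zero.1 h2.symm with h5 | h5
    · exact absurd (ENNReal.ofReal_eq_zero.1 h5) (not_le.2 Real.pi_pos)
    · exact h5
  rw [h4, ENNReal.toReal_zero, mul_zero] at h3
  exact h3

end KU6

theorem all_sing (c : ℝ) (hc : 0 ≤ c) (μ : Measure ℝ) [IsProbabilityMeasure μ] (A : Set ℝ)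
    (hA : MeasurableSet A) (h : ∀ᵐ ω ∂(iid d μ), ∀ᵐ E : ℝ, E ∈ A → kap c E 0 ω = 0) :
    ∀ᵐ ω ∂(iid d μ), ∀ (φ : L2 d) (m : Measure ℝ), SpM (TT (∅ : Finset (Zd d)) c ω) φ m →
      (m.restrict A) ⟂ₘ (volume : Measure ℝ) := by
  have h1 : ∀ x : Zd d, ∀ᵐ ω ∂(iid d μ), ∀ᵐ E : ℝ, E ∈ A → kap c E x ω = 0 := by
    intro x
    have h2 := (sh_mp (d := d) μ x).quasiMeasurePreserving.ae h
    simpa only [SE.kap_shift, zero_add] using h2
  filter_upwards [ae_all_iff.2 h1] with ω hω φ m hm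
  rw [sing_iff _ (TT_sa _ c ω) φ m hm A hA]
  exact all_vectors c hc ω A hA (fun x => KU6.site c ω A x (hω x)) φ

end Pool.Agent.TH369.SJ
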