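import Pool.Agent.TH369.SJ.KUDefs
import Pool.Agent.TH369.MU.SM
import Pool.Agent.TH369.MU.MJ
import Pool.Agent.TH369.MU.GA
import Pool.Agent.TH369.MU.SE
import Pool.Agent.TH369.SJ.KG
import Pool.Agent.TH369.SJ.CE
import Pool.Agent.TH369.SJ.KU3B
import Pool.Agent.TH369.SJ.KU4

/-!
# The density vanishes where the integrated conductivity has a finite lower limit (project KU)
-/

set_option autoImplicit false
open MeasureTheory Filter Topology
open scoped InnerProductSpace ENNReal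
namespace Pool.Agent.TH369.SJ
open Pool.Agent.TH369.AN Pool.Agent.TH369.MU
variable {d : ℕ}

namespace KU8

instance iid_prob (μ : Measure ℝ) [IsProbabilityMeasure μ] : IsProbabilityMeasure (iid d μ) := by
  unfold iid; infer_instance

lemma zp_meas (p c : ℝ) (hc : 0 ≤ c) (k : ℕ) :
    Measurable (Function.uncurry fun (ω : Zd d → ℝ) (E : ℝ) => Zp p c ω E k) := by
  show Measurable fun q : (Zd d → ℝ) × ℝ => Zp p c q.1 q.2 k
  unfold Zp
  refine Measurable.const_mul ?_ _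
  refine Measurable.tsum fun y => ?_
  exact ((gk_meas2 c hc k y 0).enorm.pow_const 2).const_mul _

lemma card_le (hd : 0 < d) (N : ℕ) (k : ℕ) :
    ((CE.box d ((N : ℝ) * ((k : ℝ) + 1) ^ ((1 : ℝ) / d))).card : ℝ) ≤
      (2 * (N : ℝ) + 1) ^ d * ((k : ℝ) + 1) := by
  have hd' : (d : ℝ) ≠ 0 := by exact_mod_cast hd.ne'
  have hτ1 : (1 : ℝ) ≤ (k : ℝ) + 1 := by linarith [Nat.cast_nonneg (α := ℝ) k]
  have hτ : 0 < (k : ℝ) + 1 := by linarith
  have hpow : 1 ≤ ((k : ℝ) + 1) ^ ((1 : ℝ) / d) := Real.one_le_rpow hτ1 (by positivity)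
  refine (CE.card_box (by positivity)).trans ?_
  have h6 : 2 * ((N : ℝ) * ((k : ℝ) + 1) ^ ((1 : ℝ) / d)) + 1 ≤
      (2 * (N : ℝ) + 1) * ((k : ℝ) + 1) ^ ((1 : ℝ) / d) := by
    nlinarith
  refine (pow_le_pow_left₀ (by positivity) h6 d).trans ?_
  rw [mul_pow]
  have h7 : (((k : ℝ) + 1) ^ ((1 : ℝ) / d)) ^ d = (k : ℝ) + 1 := by
    rw [← Real.rpow_natCast, ← Real.rpow_mul hτ.le, one_div_mul_cancel hd', Real.rpow_one]
  rw [h7]

lemma lim_trunc (c E : ℝ) (ω : Zd d → ℝ) (Λ : ℕ) :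
    (if kap c E 0 ω ≤ (Λ : ℝ≥0∞) then min (kap c E 0 ω) 1 else 0) ≤
      liminf (fun k => if kap c E 0 ω ≤ (Λ : ℝ≥0∞) then
        min (ENNReal.ofReal (Gk c ω E k 0 0).im) 1 else 0) atTop := by
  by_cases hk : kap c E 0 ω ≤ (Λ : ℝ≥0∞)
  · simp only [hk, if_true]
    have hmono : Monotone fun x : ℝ≥0∞ => min x 1 := fun a b hab => min_le_min_right 1 hab
    have hcont : Continuous fun x : ℝ≥0∞ => min x 1 := continuous_id.min continuous_const
    have h1 := hmono.map_liminf_of_continuousAt (F := atTop)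
      (fun k => ENNReal.ofReal (Gk c ω E k 0 0).im) hcont.continuousAt
    exact h1.le
  · simp only [hk, if_false]
    exact bot_le

lemma min_add_le (a b : ℝ≥0∞) : min (a + b) 1 ≤ min a 1 + b := by
  rcases le_total a 1 with h | h
  · rw [min_eq_left h]
    exact min_le_left _ _
  · rw [min_eq_right h]
    exact (min_le_right _ _).trans le_self_add

lemma piece (hd : 0 < d) (c : ℝ) (hc : 0 ≤ c) (μ : Measure ℝ) [IsProbabilityMeasure μ]
    (hμ : μ (Set.Icc (-c) c)ᶜ = 0) (hnd : ∀ x : ℝ, μ {x} ≠ 1) (p : ℝ) (hp : 0 < p) (A : Set ℝ)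
    (hA : MeasurableSet A) (hA2 : volume A ≠ ⊤) (Λ : ℕ)
    (h : liminf (fun k => ∫⁻ E in A, (∫⁻ ω, Zp p c ω E k ∂(iid d μ))) atTop ≠ ⊤) :
    ∫⁻ ω, (∫⁻ E in A, if kap c E 0 ω ≤ (Λ : ℝ≥0∞) then min (kap c E 0 ω) 1 else 0)
      ∂(iid d μ) = 0 := by
  set P := iid d μ with hP
  set W : ℕ → ℝ≥0∞ := fun k => ∫⁻ E in A, (∫⁻ ω, Zp p c ω E k ∂P) with hW
  -- the truncated densities
  set F : ℕ → (Zd d → ℝ) → ℝ → ℝ≥0∞ := fun k ω E =>
    if kap c E 0 ω ≤ (Λ : ℝ≥0∞) then min (ENNReal.ofReal (Gk c ω E k 0 0).im) 1 else 0 with hF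
  have hkm : Measurable fun q : (Zd d → ℝ) × ℝ => kap c q.2 0 q.1 := GA.meas_kap c hc 0
  have hFm : ∀ k, Measurable (Function.uncurry (F k)) := by
    intro k
    refine Measurable.ite (measurableSet_le hkm measurable_const) ?_ measurable_const
    exact ((GA.meas_im c hc k 0).ennreal_ofReal).min measurable_const
  have hFatou : ∫⁻ ω, (∫⁻ E in A, if kap c E 0 ω ≤ (Λ : ℝ≥0∞) then min (kap c E 0 ω) 1 else 0) ∂P ≤
      liminf (fun k => ∫⁻ ω, (∫⁻ E in A, F k ω E) ∂P) atTop := by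
    calc ∫⁻ ω, (∫⁻ E in A, if kap c E 0 ω ≤ (Λ : ℝ≥0∞) then min (kap c E 0 ω) 1 else 0) ∂P
        ≤ ∫⁻ ω, (∫⁻ E in A, liminf (fun k => F k ω E) atTop) ∂P := by
          refine lintegral_mono fun ω => lintegral_mono fun E => ?_
          exact lim_trunc c E ω Λ
      _ ≤ ∫⁻ ω, liminf (fun k => ∫⁻ E in A, F k ω E) atTop ∂P := by
          refine lintegral_mono fun ω => ?_
          exact lintegral_liminf_le fun k => (hFm k).of_uncurry_left
      _ ≤ _ := lintegral_liminf_le fun k => (hFm k).lintegral_prod_right'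
  -- the bound
  obtain ⟨L, hL⟩ : ∃ L : ℝ≥0∞, L ≠ ⊤ ∧ ∃ᶠ k in atTop, W k ≤ L := by
    refine ⟨liminf W atTop + 1, ENNReal.add_ne_top.2 ⟨h, ENNReal.one_ne_top⟩, ?_⟩
    have h1 : liminf W atTop < liminf W atTop + 1 := ENNReal.lt_add_right h one_ne_zero
    exact (frequently_lt_of_liminf_lt (by isBoundedDefault) h1).mono fun k hk => hk.le
  have hbd : ∀ N : ℕ, 0 < N → liminf (fun k => ∫⁻ ω, (∫⁻ E in A, F k ω E) ∂P) atTop ≤
      ENNReal.ofReal ((N : ℝ) ^ (-p)) * (L + 1) := by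
    intro N hN
    have hN' : (0 : ℝ) < (N : ℝ) ^ (-p) := by
      have : (0 : ℝ) < N := by exact_mod_cast hN
      positivity
    set S : ℕ → Finset (Zd d) := fun k =>
      CE.box d ((N : ℝ) * ((k : ℝ) + 1) ^ ((1 : ℝ) / d)) with hS
    have hx := xs_mean (d := d) c hc μ hμ hnd Λ A hA hA2 ((2 * (N : ℝ) + 1) ^ d) S
      (fun k => card_le hd N k)
    rw [ENNReal.tendsto_nhds_zero] at hx
    have hev := hx (ENNReal.ofReal ((N : ℝ) ^ (-p))) (ENNReal.ofReal_pos.2 hN')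
    refine liminf_le_of_frequently_le ?_ (by isBoundedDefault)
    refine (hL.2.and_eventually hev).mono fun k hk => ?_
    obtain ⟨hk1, hk2⟩ := hk
    calc ∫⁻ ω, (∫⁻ E in A, F k ω E) ∂P
        ≤ ∫⁻ ω, (∫⁻ E in A, ((if kap c E 0 ω ≤ (Λ : ℝ≥0∞) then min (Xs c ω E k (S k) 0) 1 else 0) +
            ENNReal.ofReal ((N : ℝ) ^ (-p)) * Zp p c ω E k)) ∂P := by
          refine lintegral_mono fun ω => lintegral_mono fun E => ?_
          simp only [hF]
          by_cases hk : kap c E 0 ω ≤ (Λ : ℝ≥0∞)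
          · simp only [hk, if_true]
            refine (min_le_min_right 1 (mass hd p hp c ω E k N hN)).trans ?_
            exact min_add_le _ _
          · simp only [hk, if_false]
            exact zero_le
      _ = ∫⁻ ω, ((∫⁻ E in A, if kap c E 0 ω ≤ (Λ : ℝ≥0∞) then min (Xs c ω E k (S k) 0) 1 else 0) +
            ENNReal.ofReal ((N : ℝ) ^ (-p)) * ∫⁻ E in A, Zp p c ω E k) ∂P := by
          refine lintegral_congr fun ω => ?_
          have hz : Measurable fun E : ℝ => Zp p c ω E k := (zp_meas p c hc k).of_uncurry_left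
          rw [lintegral_add_right _ (hz.const_mul _), lintegral_const_mul _ hz]
      _ = (∫⁻ ω, (∫⁻ E in A, if kap c E 0 ω ≤ (Λ : ℝ≥0∞) then
            min (Xs c ω E k (S k) 0) 1 else 0) ∂P) +
            ENNReal.ofReal ((N : ℝ) ^ (-p)) * W k := by
          have hz : Measurable fun ω : Zd d → ℝ => ∫⁻ E in A, Zp p c ω E k :=
            (zp_meas p c hc k).lintegral_prod_right
          rw [lintegral_add_right _ (hz.const_mul _), lintegral_const_mul _ hz]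
          congr 2
          exact lintegral_lintegral_swap (zp_meas p c hc k).aemeasurable
      _ ≤ ENNReal.ofReal ((N : ℝ) ^ (-p)) + ENNReal.ofReal ((N : ℝ) ^ (-p)) * L := by
          gcongr
      _ = ENNReal.ofReal ((N : ℝ) ^ (-p)) * (L + 1) := by ring
  -- conclusion
  have hlim : Tendsto (fun N : ℕ => ENNReal.ofReal ((N : ℝ) ^ (-p)) * (L + 1)) atTop (𝓝 0) := by
    have h1 : Tendsto (fun N : ℕ => (N : ℝ) ^ (-p)) atTop (𝓝 0) :=
      (tendsto_rpow_neg_atTop hp).comp tendsto_natCast_atTop_atTop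
    have h2 := ENNReal.tendsto_ofReal h1
    rw [ENNReal.ofReal_zero] at h2
    have h3 := ENNReal.Tendsto.mul_const (b := L + 1) h2
      (Or.inr (ENNReal.add_ne_top.2 ⟨hL.1, ENNReal.one_ne_top⟩))
    simpa using h3
  refine le_antisymm ?_ bot_le
  refine ge_of_tendsto hlim ?_
  filter_upwards [eventually_gt_atTop 0] with N hN
  exact hFatou.trans (hbd N hN)

end KU8

/-- the density vanishes where the integrated conductivity has a finite lower limit -/
theorem kap_zero_int (hd : 0 < d) (c : ℝ) (hc : 0 ≤ c) (μ : Measure ℝ) [IsProbabilityMeasure μ]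
    (hμ : μ (Set.Icc (-c) c)ᶜ = 0) (hnd : ∀ x : ℝ, μ {x} ≠ 1) (p : ℝ) (hp : 0 < p) (A : Set ℝ)
    (hA : MeasurableSet A)
    (h : liminf (fun k => ∫⁻ E in A, (∫⁻ ω, Zp p c ω E k ∂(iid d μ))) atTop ≠ ⊤) :
    ∀ᵐ ω ∂(iid d μ), ∀ᵐ E : ℝ, E ∈ A → kap c E 0 ω = 0 := by
  -- bounded pieces
  have hpiece : ∀ n Λ : ℕ, ∀ᵐ ω ∂(iid d μ), ∀ᵐ E : ℝ,
      E ∈ A ∩ Set.Icc (-(n : ℝ)) n → kap c E 0 ω ≤ (Λ : ℝ≥0∞) → kap c E 0 ω = 0 := by
    intro n Λ
    have hB : MeasurableSet (A ∩ Set.Icc (-(n : ℝ)) n) := hA.inter measurableSet_Icc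
    have hB2 : volume (A ∩ Set.Icc (-(n : ℝ)) n) ≠ ⊤ := by
      refine ne_top_of_le_ne_top ?_ (measure_mono Set.inter_subset_right)
      rw [Real.volume_Icc]
      exact ENNReal.ofReal_ne_top
    have h1 : liminf (fun k => ∫⁻ E in A ∩ Set.Icc (-(n : ℝ)) n,
        (∫⁻ ω, Zp p c ω E k ∂(iid d μ))) atTop ≠ ⊤ := by
      refine ne_top_of_le_ne_top h (liminf_le_liminf ?_ (by isBoundedDefault)
        (by isBoundedDefault))
      filter_upwards with k
      exact lintegral_mono_set Set.inter_subset_left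
    have h2 := KU8.piece hd c hc μ hμ hnd p hp _ hB hB2 Λ h1
    have hkm : Measurable fun q : (Zd d → ℝ) × ℝ => kap c q.2 0 q.1 := GA.meas_kap c hc 0
    have hGm : Measurable (Function.uncurry fun (ω : Zd d → ℝ) (E : ℝ) =>
        if kap c E 0 ω ≤ (Λ : ℝ≥0∞) then min (kap c E 0 ω) 1 else 0) :=
      Measurable.ite (measurableSet_le hkm measurable_const) (hkm.min measurable_const)
        measurable_const
    rw [lintegral_eq_zero_iff' hGm.lintegral_prod_right.aemeasurable] at h2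
    filter_upwards [h2] with ω hω
    have hGm1 : Measurable fun E : ℝ =>
        if kap c E 0 ω ≤ (Λ : ℝ≥0∞) then min (kap c E 0 ω) 1 else 0 := hGm.of_uncurry_left
    have h3 := (lintegral_eq_zero_iff' (μ := volume.restrict (A ∩ Set.Icc (-(n : ℝ)) n))
      hGm1.aemeasurable).1 hω
    rw [Filter.EventuallyEq, ae_restrict_iff' hB] at h3
    filter_upwards [h3] with E hE hEA hk
    have h4 := hE hEA
    simp only [hk, if_true, Pi.zero_apply] at h4
    rcases min_eq_iff.1 h4 with h5 | h5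
    · exact h5.1
    · exact absurd h5.1 one_ne_zero
  have hall : ∀ᵐ ω ∂(iid d μ), ∀ n Λ : ℕ, ∀ᵐ E : ℝ,
      E ∈ A ∩ Set.Icc (-(n : ℝ)) n → kap c E 0 ω ≤ (Λ : ℝ≥0∞) → kap c E 0 ω = 0 :=
    ae_all_iff.2 fun n => ae_all_iff.2 fun Λ => hpiece n Λ
  filter_upwards [hall] with ω hω
  -- the density is finite
  obtain ⟨m, hm, -⟩ := spm_exists (TT (∅ : Finset (Zd d)) c ω) (TT_sa ∅ c ω) (dl 0)
  have hfin : ∀ᵐ E : ℝ, kap c E 0 ω < ⊤ := by
    have h1 := (kap_ae c ω 0 m hm).1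
    have hf : IsFiniteMeasure m := hm.1
    filter_upwards [h1, m.rnDeriv_lt_top volume] with E h2 h3
    rw [h2]
    exact ENNReal.mul_lt_top ENNReal.ofReal_lt_top h3
  have h2 : ∀ᵐ E : ℝ, ∀ n Λ : ℕ,
      E ∈ A ∩ Set.Icc (-(n : ℝ)) n → kap c E 0 ω ≤ (Λ : ℝ≥0∞) → kap c E 0 ω = 0 :=
    ae_all_iff.2 fun n => ae_all_iff.2 fun Λ => hω n Λ
  filter_upwards [h2, hfin] with E h3 h4 hEA
  obtain ⟨n, hn⟩ := exists_nat_ge |E|
  obtain ⟨Λ, hΛ⟩ := ENNReal.exists_nat_gt h4.ne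
  exact h3 n Λ ⟨hEA, abs_le.1 hn⟩ hΛ.le

end Pool.Agent.TH369.SJ
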