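import Pool.Agent.TH369.SJ.KU10
import Pool.Agent.TH369.SJ.KU6
import Pool.Agent.TH369.SJ.KU8

/-!
# Finite conductivity excludes absolutely continuous spectrum (project KU)
-/

set_option autoImplicit false
open MeasureTheory Filter Topology
open scoped InnerProductSpace ENNReal
namespace Pool.Agent.TH369.SJ
open Pool.Agent.TH369.AN Pool.Agent.TH369.MU
variable {d : ℕ}

theorem conductivity (hd : 0 < d) (c : ℝ) (hc : 0 ≤ c) (μ : Measure ℝ) [IsProbabilityMeasure μ]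
    (hμ : μ (Set.Icc (-c) c)ᶜ = 0) (hnd : ∀ x : ℝ, μ {x} ≠ 1) (p : ℝ) (hp : 0 < p) (A : Set ℝ)
    (hA : MeasurableSet A)
    (h : liminf (fun k => ∫⁻ E in A, (∫⁻ ω, Zp p c ω E k ∂(iid d μ))) atTop ≠ ⊤ ∨
      ∀ᵐ E : ℝ, E ∈ A → limsup (fun k => ∫⁻ ω, Zp p c ω E k ∂(iid d μ)) atTop ≠ ⊤) :
    ∀ᵐ ω ∂(iid d μ), ∀ (φ : L2 d) (m : Measure ℝ), SpM (TT (∅ : Finset (Zd d)) c ω) φ m →
      (m.restrict A) ⟂ₘ (volume : Measure ℝ) := by
  refine all_sing c hc μ A hA ?_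
  rcases h with h | h
  · exact kap_zero_int hd c hc μ hμ hnd p hp A hA h
  · exact kap_zero_pt hd c hc μ hμ hnd p hp A hA h

end Pool.Agent.TH369.SJ
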