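import Pool.Agent.TH369.SJ.Defs
import Pool.Agent.TH369.SJ.CE

/-!
# Finite conductivity and absence of absolutely continuous spectrum: definitions (team SJ,
helper369)
-/

set_option autoImplicit false

open MeasureTheory Filter Topology
open scoped InnerProductSpace ENNReal

namespace Pool.Agent.TH369.SJ

open Pool.Agent.TH369.AN Pool.Agent.TH369.MU

variable {d : ℕ}

/-- `ε_k ∑_{y ∈ S} |G(y, x; E + iε_k)|²` -/
noncomputable def Xs (c : ℝ) (ω : Zd d → ℝ) (E : ℝ) (k : ℕ) (S : Finset (Zd d)) (x : Zd d) :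
    ℝ≥0∞ := ENNReal.ofReal (ep k) * ∑ y ∈ S, ‖Gk c ω E k y x‖ₑ ^ 2

/-- `ε_k^{1 + p/d} ∑_y |y|^p |G(y, 0; E + iε_k)|²` -/
noncomputable def Zp (p c : ℝ) (ω : Zd d → ℝ) (E : ℝ) (k : ℕ) : ℝ≥0∞ :=
  ENNReal.ofReal (ep k ^ (1 + p / d)) *
    ∑' y : Zd d, ENNReal.ofReal (‖y‖ ^ p) * ‖Gk c ω E k y 0‖ₑ ^ 2

end Pool.Agent.TH369.SJ
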